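import Pool.Agent.D0H83.FB.Tr

/-!
# Closures of braids on many strands with a varying braid on the first four strands
-/

set_option autoImplicit false

namespace Pool.Agent.D0H83.FB

open Pool.Agent.H891R2.Jones Pool.Agent.TH561 Pool.Agent.W639.RB Finset LaurentPolynomial

/-- the state sum of the closure -/
theorem bracket_states' {m : ℕ} (hm : 0 < m) (w : List (Bool × ℕ)) (hw : ∀ x ∈ w, x.2 + 1 < m)
    (A : ℂ) (hA : A ≠ 0) :
    (-A^2 - (A⁻¹)^2) * evc A hA (draw (braidClosure m) w).close.bracket =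
      ((terms w).map (fun t => A ^ t.1 * (-A^2 - (A⁻¹)^2) ^ lam m t.2)).sum := by
  have h1 := bracket_formula (m := m) hm w hw 1 w hw (fun A N => (pow_one _).symm)
  have h2 := congrArg (evc A hA) h1
  rw [map_mul, evc_dl, map_sum] at h2
  have h3 : ((terms w).map (fun t : ℤ × List ℕ => A ^ t.1 * (-A^2 - (A⁻¹)^2) ^ lam m t.2)).sum =
      ∑ i : St w, A ^ wt i * (-A^2 - (A⁻¹)^2) ^ lam m (gw i) := by
    rw [← Fin.sum_univ_fun_getElem (terms w)
      (fun t : ℤ × List ℕ => A ^ t.1 * (-A^2 - (A⁻¹)^2) ^ lam m t.2)]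
    rfl
  rw [h2, h3, ← (Equiv.funUnique (Fin 1) (St w)).sum_comp]
  refine Finset.sum_congr rfl fun f _ => ?_
  rw [map_mul, map_pow, evc_dl, evc_T]
  have h3 : seqw f = gw ((Equiv.funUnique (Fin 1) (St w)) f) := by
    simp [seqw, Equiv.funUnique_apply]
  rw [h3]
  simp [Equiv.funUnique_apply]

theorem terms_append {M : Type*} [AddCommMonoid M] (U w : List (Bool × ℕ)) :
    ∀ h : ℤ × List ℕ → M, ((terms (U ++ w)).map h).sum =
      ((terms U).map (fun s => ((terms w).map (fun t => h (s.1 + t.1, s.2 ++ t.2))).sum)).sum := by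
  induction U with
  | nil => intro h; simp [terms]
  | cons x U ih =>
    intro h
    rw [List.cons_append, terms, List.map_append, List.sum_append, List.map_map, List.map_map,
      ih, ih, terms, List.map_append, List.sum_append, List.map_map, List.map_map]
    congr 1
    · congr 1
      apply List.map_congr_left
      intro s _
      simp only [Function.comp_apply, add_assoc]
    · congr 1
      apply List.map_congr_left
      intro s _
      simp only [Function.comp_apply, add_assoc, List.cons_append]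

theorem isTL_mono {m : ℕ} (hm : 4 ≤ m) {K R : Type*} [Field K] [Ring R] [Algebra K R] {d : K}
    {e : ℕ → R} (h : IsTL m d e) : IsTL 4 d e where
  sq i hi := h.sq i (by omega)
  up i hi := h.up i (by omega)
  down i hi := h.down i (by omega)
  far i j hj hij := h.far i j (by omega) hij

theorem nb_mem (j : Fin 14) : ∀ i ∈ nb j, i + 1 < 4 := by
  fin_cases j <;> simp [nb]

theorem lam_app {m : ℕ} (hm : 4 ≤ m) (L L' : List ℕ) (hL : ∀ i ∈ L, i + 1 < m)
    (hL' : ∀ i ∈ L', i + 1 < 4) : lam m (L ++ L') = (nf L').2 + lam m (L ++ nb (nf L').1) := by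
  have hm1 : ∀ i ∈ L ++ L', i + 1 < m := by
    intro i hi
    rcases List.mem_append.1 hi with h | h
    · exact hL i h
    · have := hL' i h; omega
  have hm2 : ∀ i ∈ L ++ nb (nf L').1, i + 1 < m := by
    intro i hi
    rcases List.mem_append.1 hi with h | h
    · exact hL i h
    · have := nb_mem _ i h; omega
  have h1 := trace_lam (N := 2) (L ++ L') hm1 (by norm_num)
  rw [WP_append, nf_eq (isTL_mono hm (isTL_KK m 2)) L' hL', mul_smul_comm, Matrix.trace_smul,
    ← WP_append, trace_lam (N := 2) _ hm2 (by norm_num), smul_eq_mul, ← pow_add] at h1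
  have h2 : (2 : ℕ) ^ ((nf L').2 + lam m (L ++ nb (nf L').1)) = 2 ^ lam m (L ++ L') := by
    exact_mod_cast h1
  exact (Nat.pow_right_injective le_rfl h2).symm

/-- the coefficients of a word in the basis of the reduced words -/
noncomputable def kap (A d : ℂ) (w : List (Bool × ℕ)) (j : Fin 14) : ℂ :=
  ((terms w).map (fun t => if (nf t.2).1 = j then A ^ t.1 * d ^ (nf t.2).2 else 0)).sum

theorem sum_list_comm {ι α M : Type*} [Fintype ι] [AddCommMonoid M] (l : List α) (f : α → ι → M) :
    (l.map (fun t => ∑ j, f t j)).sum = ∑ j, (l.map (fun t => f t j)).sum := by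
  induction l with
  | nil => simp
  | cons a l ih => simp [ih, Finset.sum_add_distrib]

theorem wo_kap {R : Type*} [Ring R] [Algebra ℂ R] {A d : ℂ} (hA : A ≠ 0) {e : ℕ → R}
    (h : IsTL 4 d e) (w : List (Bool × ℕ)) (hw : ∀ x ∈ w, x.2 + 1 < 4) :
    wo A e w = ∑ j, kap A d w j • WP e (nb j) := by
  rw [wo_terms hA]
  have h1 : ∀ t ∈ terms w, A ^ t.1 • WP e t.2 =
      ∑ j, (if (nf t.2).1 = j then A ^ t.1 * d ^ (nf t.2).2 else 0) • WP e (nb j) := by
    intro t ht
    rw [nf_eq h t.2 (terms_mem w hw t ht), smul_smul]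
    simp [ite_smul]
  rw [List.map_congr_left h1, sum_list_comm]
  refine Finset.sum_congr rfl fun j _ => ?_
  unfold kap
  induction (terms w) with
  | nil => simp
  | cons a l ih => simp only [List.map_cons, List.sum_cons, add_smul, ih]

/-- the functional of the outside on the reduced words -/
noncomputable def Fn (m : ℕ) (U : List (Bool × ℕ)) (A d : ℂ) (j : Fin 14) : ℂ :=
  ((terms U).map (fun s => A ^ s.1 * d ^ lam m (s.2 ++ nb j))).sum

theorem functional {m : ℕ} (hm : 4 ≤ m) (U w : List (Bool × ℕ)) (hU : ∀ x ∈ U, x.2 + 1 < m)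
    (hw : ∀ x ∈ w, x.2 + 1 < 4) {A : ℂ} (hA : A ≠ 0) (d : ℂ) :
    ((terms (U ++ w)).map (fun t => A ^ t.1 * d ^ lam m t.2)).sum =
      ∑ j, kap A d w j * Fn m U A d j := by
  rw [terms_append]
  have h1 : ∀ s ∈ terms U, ((terms w).map (fun t => A ^ (s.1 + t.1) * d ^ lam m (s.2 ++ t.2))).sum =
      ∑ j, kap A d w j * (A ^ s.1 * d ^ lam m (s.2 ++ nb j)) := by
    intro s hs
    have h2 : ∀ t ∈ terms w, A ^ (s.1 + t.1) * d ^ lam m (s.2 ++ t.2) =
        ∑ j, (if (nf t.2).1 = j then A ^ t.1 * d ^ (nf t.2).2 else 0) *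
          (A ^ s.1 * d ^ lam m (s.2 ++ nb j)) := by
      intro t ht
      rw [lam_app hm s.2 t.2 (terms_mem U hU s hs) (terms_mem w hw t ht), zpow_add₀ hA, pow_add]
      simp only [ite_mul, zero_mul, Finset.sum_ite_eq, Finset.mem_univ, if_true]
      ring
    rw [List.map_congr_left h2, sum_list_comm]
    refine Finset.sum_congr rfl fun j _ => ?_
    rw [List.sum_map_mul_right]
    rfl
  have h3 : ((terms U).map (fun s => ((terms w).map
      (fun t => A ^ (s.1 + t.1, s.2 ++ t.2).1 * d ^ lam m (s.1 + t.1, s.2 ++ t.2).2)).sum)).sum =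
      ((terms U).map (fun s => ∑ j, kap A d w j * (A ^ s.1 * d ^ lam m (s.2 ++ nb j)))).sum := by
    congr 1
    exact List.map_congr_left h1
  rw [h3, sum_list_comm]
  refine Finset.sum_congr rfl fun j _ => ?_
  rw [List.sum_map_mul_left]
  rfl

end Pool.Agent.D0H83.FB
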