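import Pool.Agent.D0H83.FB.Form
import Pool.Agent.D0H83.FB.Gen

/-!
# Uniform bounds for the coefficients of a braid word
-/

set_option autoImplicit false

namespace Pool.Agent.D0H83.FB

open Pool.Agent.H891R2.Jones Pool.Agent.TH561 Pool.Agent.W639.RB Complex Finset
open scoped Matrix

theorem sum14 {M : Type*} [AddCommMonoid M] (f : Fin 14 → M) :
    ∑ j, f j = f 0 + f 1 + f 2 + f 3 + f 4 + f 5 + f 6 + f 7 + f 8 + f 9 + f 10 + f 11 + f 12 +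
      f 13 := by
  simp only [Fin.sum_univ_castSucc, Fin.sum_univ_zero, zero_add]
  rfl

/-- the columns of an isometry -/
theorem col_eq {n : Type*} [Fintype n] [DecidableEq n] {G M : Matrix n n ℂ} (hM : Mᴴ * G * M = G)
    (j : n) : star (fun i => M i j) ⬝ᵥ (G *ᵥ (fun i => M i j)) = G j j := by
  have h := congrFun (congrFun hM j) j
  rw [← h, mul_assoc, Matrix.mul_apply]
  simp only [dotProduct, Matrix.mulVec, Matrix.mul_apply, Matrix.conjTranspose_apply, Pi.star_apply]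

theorem norm_le_of_sq {z : ℂ} {r : ℝ} (hr : 0 ≤ r) (h : z.re^2 + z.im^2 ≤ r^2) : ‖z‖ ≤ r := by
  have h1 : ‖z‖^2 = z.re^2 + z.im^2 := by
    rw [← Complex.normSq_eq_norm_sq, Complex.normSq_apply]; ring
  have h2 : ‖z‖^2 ≤ r^2 := by rw [h1]; exact h
  exact le_of_sq_le_sq_of_nonneg' h2 hr
where
  le_of_sq_le_sq_of_nonneg' {a b : ℝ} (h : a^2 ≤ b^2) (hb : 0 ≤ b) : a ≤ b := by
    nlinarith [abs_le_of_sq_le_sq' h hb]

theorem col_bound_X (h : ℝ) (h0 : 9/10 ≤ h) (h1 : h ≤ 1) (v : Fin 3 → ℂ)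
    (hv : star v ⬝ᵥ (GX h *ᵥ v) = -2*(h:ℂ)) (i : Fin 3) : ‖v i‖ ≤ 3 := by
  have h1' := congrArg Complex.re hv
  simp [dotProduct, Matrix.mulVec, Fin.sum_univ_three, GX] at h1'
  obtain ⟨x0, hx0⟩ : ∃ x, x = (v 0).re := ⟨_, rfl⟩
  obtain ⟨x1, hx1⟩ : ∃ x, x = (v 1).re := ⟨_, rfl⟩
  obtain ⟨x2, hx2⟩ : ∃ x, x = (v 2).re := ⟨_, rfl⟩
  obtain ⟨y0, hy0⟩ : ∃ x, x = (v 0).im := ⟨_, rfl⟩
  obtain ⟨y1, hy1⟩ : ∃ x, x = (v 1).im := ⟨_, rfl⟩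
  obtain ⟨y2, hy2⟩ : ∃ x, x = (v 2).im := ⟨_, rfl⟩
  rw [← hx0, ← hx1, ← hx2, ← hy0, ← hy1, ← hy2] at h1'
  have h2 : (2*h*x0 - x1)^2 + (2*h*y0 - y1)^2 + ((2*h*x2 - x1)^2 + (2*h*y2 - y1)^2) +
      (4*h^2 - 2)*(x1^2 + y1^2) = 4*h^2 := by
    linear_combination (-2*h) * h1'
  have hh : 81/100 ≤ h^2 := by nlinarith
  have hh1 : h^2 ≤ 1 := by nlinarith
  have s1 := sq_nonneg (2*h*x0 - x1)
  have s2 := sq_nonneg (2*h*y0 - y1)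
  have s3 := sq_nonneg (2*h*x2 - x1)
  have s4 := sq_nonneg (2*h*y2 - y1)
  have s5 : 0 ≤ x1^2 + y1^2 := by positivity
  have a1 : x1^2 + y1^2 ≤ 4 := by nlinarith
  have a5 : 0 ≤ (4*h^2 - 2)*(x1^2 + y1^2) := mul_nonneg (by linarith) s5
  have key : ∀ x y : ℝ, (2*h*x - x1)^2 + (2*h*y - y1)^2 ≤ 4*h^2 → x^2 + y^2 ≤ 3^2 := by
    intro x y hxy
    have h4 : (2*h*x)^2 + (2*h*y)^2 ≤ 16 := by
      have e : (2*h*x)^2 + (2*h*y)^2 ≤ 2*((2*h*x - x1)^2 + (2*h*y - y1)^2) + 2*(x1^2 + y1^2) := by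
        nlinarith [sq_nonneg (2*h*x - 2*x1), sq_nonneg (2*h*y - 2*y1)]
      linarith
    have h5 : (2*h*x)^2 + (2*h*y)^2 = 4*h^2*(x^2+y^2) := by ring
    have h6 : 0 ≤ x^2 + y^2 := by positivity
    nlinarith
  fin_cases i
  · apply norm_le_of_sq (by norm_num)
    show (v 0).re^2 + (v 0).im^2 ≤ 3^2
    rw [← hx0, ← hy0]
    exact key _ _ (by linarith)
  · apply norm_le_of_sq (by norm_num)
    show (v 1).re^2 + (v 1).im^2 ≤ 3^2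
    rw [← hx1, ← hy1]
    linarith
  · apply norm_le_of_sq (by norm_num)
    show (v 2).re^2 + (v 2).im^2 ≤ 3^2
    rw [← hx2, ← hy2]
    exact key _ _ (by linarith)

theorem col_bound_Y (h : ℝ) (h0 : 9/10 ≤ h) (h1 : h ≤ 1) (v : Fin 2 → ℂ)
    (hv : star v ⬝ᵥ (GY h *ᵥ v) = -2*(h:ℂ)) (i : Fin 2) : ‖v i‖ ≤ 3 := by
  have h1' := congrArg Complex.re hv
  simp [dotProduct, Matrix.mulVec, Fin.sum_univ_two, GY] at h1'
  obtain ⟨x0, hx0⟩ : ∃ x, x = (v 0).re := ⟨_, rfl⟩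
  obtain ⟨x1, hx1⟩ : ∃ x, x = (v 1).re := ⟨_, rfl⟩
  obtain ⟨y0, hy0⟩ : ∃ x, x = (v 0).im := ⟨_, rfl⟩
  obtain ⟨y1, hy1⟩ : ∃ x, x = (v 1).im := ⟨_, rfl⟩
  rw [← hx0, ← hx1, ← hy0, ← hy1] at h1'
  have h2 : (2*h*x0 - x1)^2 + (2*h*y0 - y1)^2 +
      (4*h^2 - 1)*(x1^2 + y1^2) = 4*h^2 := by
    linear_combination (-2*h) * h1'
  have hh : 81/100 ≤ h^2 := by nlinarith
  have hh1 : h^2 ≤ 1 := by nlinarith
  have s1 := sq_nonneg (2*h*x0 - x1)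
  have s2 := sq_nonneg (2*h*y0 - y1)
  have s5 : 0 ≤ x1^2 + y1^2 := by positivity
  have a1 : x1^2 + y1^2 ≤ 4 := by nlinarith
  have a5 : 0 ≤ (4*h^2 - 1)*(x1^2 + y1^2) := mul_nonneg (by linarith) s5
  have key : ∀ x y : ℝ, (2*h*x - x1)^2 + (2*h*y - y1)^2 ≤ 4*h^2 → x^2 + y^2 ≤ 3^2 := by
    intro x y hxy
    have h4 : (2*h*x)^2 + (2*h*y)^2 ≤ 16 := by
      have e : (2*h*x)^2 + (2*h*y)^2 ≤ 2*((2*h*x - x1)^2 + (2*h*y - y1)^2) + 2*(x1^2 + y1^2) := by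
        nlinarith [sq_nonneg (2*h*x - 2*x1), sq_nonneg (2*h*y - 2*y1)]
      linarith
    have h5 : (2*h*x)^2 + (2*h*y)^2 = 4*h^2*(x^2+y^2) := by ring
    have h6 : 0 ≤ x^2 + y^2 := by positivity
    nlinarith
  fin_cases i
  · apply norm_le_of_sq (by norm_num)
    show (v 0).re^2 + (v 0).im^2 ≤ 3^2
    rw [← hx0, ← hy0]
    exact key _ _ (by linarith)
  · apply norm_le_of_sq (by norm_num)
    show (v 1).re^2 + (v 1).im^2 ≤ 3^2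
    rw [← hx1, ← hy1]
    linarith

theorem entry_X {A : ℂ} (hA : ‖A‖ = 1) (h : ℝ) (h0 : 9/10 ≤ h) (h1 : h ≤ 1)
    (hd : -2*(h:ℂ) = -A^2 - (A⁻¹)^2) (w : List (Bool × ℕ)) (hw : ∀ x ∈ w, x.2 + 1 < 4)
    (i j : Fin 3) : ‖wo A (EX (-2*(h:ℂ))) w i j‖ ≤ 3 := by
  have hM := word_inv hA hd (isTL_EX _) (GX h) (selfadj_X h) w hw
  apply col_bound_X h h0 h1 (fun i => wo A (EX (-2*(h:ℂ))) w i j)
  rw [col_eq hM j]
  fin_cases j <;> simp [GX]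

theorem entry_Y {A : ℂ} (hA : ‖A‖ = 1) (h : ℝ) (h0 : 9/10 ≤ h) (h1 : h ≤ 1)
    (hd : -2*(h:ℂ) = -A^2 - (A⁻¹)^2) (w : List (Bool × ℕ)) (hw : ∀ x ∈ w, x.2 + 1 < 4)
    (i j : Fin 2) : ‖wo A (EY (-2*(h:ℂ))) w i j‖ ≤ 3 := by
  have hM := word_inv hA hd (isTL_EY _) (GY h) (selfadj_Y h) w hw
  apply col_bound_Y h h0 h1 (fun i => wo A (EY (-2*(h:ℂ))) w i j)
  rw [col_eq hM j]
  fin_cases j <;> simp [GY]

theorem kap_zero {A : ℂ} (hA : A ≠ 0) (d : ℂ) (w : List (Bool × ℕ)) (hw : ∀ x ∈ w, x.2 + 1 < 4) :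
    kap A d w 0 = A ^ expo w := by
  have hTL : IsTL 4 d EZ := by
    constructor <;> intros <;> simp [EZ]
  have h1 := wo_kap hA hTL w hw
  rw [wo_EZ A hA, sum14] at h1
  simp only [WP_EZ, nb] at h1
  simp at h1
  exact h1.symm

theorem kap_X {A : ℂ} (hA : A ≠ 0) (d : ℂ) (w : List (Bool × ℕ)) (hw : ∀ x ∈ w, x.2 + 1 < 4) :
    wo A (EX d) w = kap A d w 0 • (1 : Matrix (Fin 3) (Fin 3) ℂ) +
      !![kap A d w 1, kap A d w 4, kap A d w 9; kap A d w 5, kap A d w 2, kap A d w 6;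
        kap A d w 10, kap A d w 7, kap A d w 3] * !![d, 1, 0; 1, d, 1; 0, 1, d] := by
  rw [wo_kap hA (isTL_EX d) w hw, sum14]
  ext i j
  fin_cases i <;> fin_cases j <;>
    simp [nb, WP, EX, Matrix.mul_apply, Fin.sum_univ_three]
  all_goals ring

theorem kap_Y {A : ℂ} (hA : A ≠ 0) (d : ℂ) (w : List (Bool × ℕ)) (hw : ∀ x ∈ w, x.2 + 1 < 4) :
    wo A (EY d) w = kap A d w 0 • (1 : Matrix (Fin 2) (Fin 2) ℂ) +
      !![kap A d w 1 + kap A d w 3 + kap A d w 9 + kap A d w 10 + d * kap A d w 8,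
        kap A d w 4 + kap A d w 7 + d * kap A d w 11;
        kap A d w 5 + kap A d w 6 + d * kap A d w 12, kap A d w 2 + d * kap A d w 13] *
        !![d, 1; 1, d] := by
  rw [wo_kap hA (isTL_EY d) w hw, sum14]
  ext i j
  fin_cases i <;> fin_cases j <;>
    simp [nb, WP, EY, Matrix.mul_apply, Fin.sum_univ_two]
  all_goals ring

/-- solving for a row -/
theorem row3 (h : ℝ) (h0 : 9/10 ≤ h) (h1 : h ≤ 1) (c0 c1 c2 r0 r1 r2 : ℂ)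
    (e0 : r0 = c0 * (-2*h) + c1) (e1 : r1 = c0 + c1 * (-2*h) + c2) (e2 : r2 = c1 + c2 * (-2*h))
    (b0 : ‖r0‖ ≤ 4) (b1 : ‖r1‖ ≤ 4) (b2 : ‖r2‖ ≤ 4) : ‖c0‖ ≤ 13 ∧ ‖c1‖ ≤ 13 ∧ ‖c2‖ ≤ 13 := by
  have hh : 81/100 ≤ h^2 := by nlinarith
  have hn : ‖(-2*(h:ℂ))‖ = 2*h := by
    rw [norm_mul, norm_neg, Complex.norm_ofNat, Complex.norm_real, Real.norm_eq_abs,
      abs_of_pos (by linarith)]
  have k1 : ((4*h^2 - 2 : ℝ) : ℂ) * c1 = (-2*h) * r1 - r0 - r2 := by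
    rw [e0, e1, e2]; push_cast; ring
  have n1 : (4*h^2 - 2) * ‖c1‖ ≤ 16 := by
    have : ‖((4*h^2 - 2 : ℝ) : ℂ) * c1‖ = (4*h^2 - 2) * ‖c1‖ := by
      rw [norm_mul, Complex.norm_real, Real.norm_eq_abs, abs_of_pos (by linarith)]
    rw [← this, k1]
    calc ‖(-2*(h:ℂ)) * r1 - r0 - r2‖ ≤ ‖(-2*(h:ℂ)) * r1‖ + ‖r0‖ + ‖r2‖ := by
          refine (norm_sub_le _ _).trans ?_
          gcongr
          exact norm_sub_le _ _
      _ ≤ 2 * 4 + 4 + 4 := by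
          rw [norm_mul, hn]
          gcongr
          linarith
      _ = 16 := by norm_num
  have m1 : ‖c1‖ ≤ 13 := by nlinarith [norm_nonneg c1]
  have key : ∀ c r : ℂ, r = c * (-2*h) + c1 → ‖r‖ ≤ 4 → ‖c‖ ≤ 13 := by
    intro c r hr hb
    have k2 : c * (-2*h) = r - c1 := by rw [hr]; ring
    have n2 : ‖c‖ * (2*h) ≤ 17 := by
      rw [← hn, ← norm_mul, k2]
      refine (norm_sub_le _ _).trans ?_
      linarith
    nlinarith [norm_nonneg c]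
  exact ⟨key c0 r0 e0 b0, m1, key c2 r2 (by rw [e2]; ring) b2⟩

theorem row2 (h : ℝ) (h0 : 9/10 ≤ h) (h1 : h ≤ 1) (c0 c1 r0 r1 : ℂ)
    (e0 : r0 = c0 * (-2*h) + c1) (e1 : r1 = c0 + c1 * (-2*h))
    (b0 : ‖r0‖ ≤ 4) (b1 : ‖r1‖ ≤ 4) : ‖c0‖ ≤ 6 ∧ ‖c1‖ ≤ 6 := by
  have hh : 81/100 ≤ h^2 := by nlinarith
  have hn : ‖(-2*(h:ℂ))‖ = 2*h := by
    rw [norm_mul, norm_neg, Complex.norm_ofNat, Complex.norm_real, Real.norm_eq_abs,
      abs_of_pos (by linarith)]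
  have key : ∀ c r s : ℂ, ((4*h^2 - 1 : ℝ) : ℂ) * c = (-2*h) * r - s → ‖r‖ ≤ 4 → ‖s‖ ≤ 4 →
      ‖c‖ ≤ 6 := by
    intro c r s k br bs
    have n1 : (4*h^2 - 1) * ‖c‖ ≤ 12 := by
      have : ‖((4*h^2 - 1 : ℝ) : ℂ) * c‖ = (4*h^2 - 1) * ‖c‖ := by
        rw [norm_mul, Complex.norm_real, Real.norm_eq_abs, abs_of_pos (by linarith)]
      rw [← this, k]
      calc ‖(-2*(h:ℂ)) * r - s‖ ≤ ‖(-2*(h:ℂ)) * r‖ + ‖s‖ := norm_sub_le _ _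
        _ ≤ 2 * 4 + 4 := by
            rw [norm_mul, hn]
            gcongr
            linarith
        _ = 12 := by norm_num
    nlinarith [norm_nonneg c]
  refine ⟨key c0 r0 r1 ?_ b0 b1, key c1 r1 r0 ?_ b1 b0⟩
  · rw [e0, e1]; push_cast; ring
  · rw [e0, e1]; push_cast; ring

theorem kap_bound {A : ℂ} (hA : ‖A‖ = 1) (h : ℝ) (h0 : 9/10 ≤ h) (h1 : h ≤ 1)
    (hd : -2*(h:ℂ) = -A^2 - (A⁻¹)^2) (w : List (Bool × ℕ)) (hw : ∀ x ∈ w, x.2 + 1 < 4)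
    (j : Fin 14) : ‖kap A (-2*(h:ℂ)) w j‖ ≤ 40 := by
  have hA0 := ne_zero_of_norm_one hA
  have k0 := kap_zero hA0 (-2*(h:ℂ)) w hw
  have n0 : ‖kap A (-2*(h:ℂ)) w 0‖ = 1 := by rw [k0, norm_zpow, hA, one_zpow]
  have kX := kap_X hA0 (-2*(h:ℂ)) w hw
  have kY := kap_Y hA0 (-2*(h:ℂ)) w hw
  have bX := entry_X hA h h0 h1 hd w hw
  have bY := entry_Y hA h h0 h1 hd w hw
  obtain ⟨κ, hκ⟩ : ∃ κ, κ = kap A (-2*(h:ℂ)) w := ⟨_, rfl⟩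
  obtain ⟨X, hX⟩ : ∃ X, X = wo A (EX (-2*(h:ℂ))) w := ⟨_, rfl⟩
  obtain ⟨Y, hY⟩ : ∃ Y, Y = wo A (EY (-2*(h:ℂ))) w := ⟨_, rfl⟩
  rw [← hκ] at n0 kX kY ⊢
  rw [← hX] at kX bX
  rw [← hY] at kY bY
  have bX' : ∀ i j, ‖X i j - κ 0‖ ≤ 4 := by
    intro i j
    refine (norm_sub_le _ _).trans ?_
    rw [n0]
    linarith [bX i j]
  have bY' : ∀ i j, ‖Y i j - κ 0‖ ≤ 4 := by
    intro i j
    refine (norm_sub_le _ _).trans ?_
    rw [n0]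
    linarith [bY i j]
  have bX3 : ∀ i j, ‖X i j‖ ≤ 4 := fun i j => (bX i j).trans (by norm_num)
  have bY3 : ∀ i j, ‖Y i j‖ ≤ 4 := fun i j => (bY i j).trans (by norm_num)
  have x00 := congrFun (congrFun kX 0) 0
  have x01 := congrFun (congrFun kX 0) 1
  have x02 := congrFun (congrFun kX 0) 2
  have x10 := congrFun (congrFun kX 1) 0
  have x11 := congrFun (congrFun kX 1) 1
  have x12 := congrFun (congrFun kX 1) 2
  have x20 := congrFun (congrFun kX 2) 0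
  have x21 := congrFun (congrFun kX 2) 1
  have x22 := congrFun (congrFun kX 2) 2
  have y00 := congrFun (congrFun kY 0) 0
  have y01 := congrFun (congrFun kY 0) 1
  have y10 := congrFun (congrFun kY 1) 0
  have y11 := congrFun (congrFun kY 1) 1
  simp at x00 x01 x02 x10 x11 x12 x20 x21 x22
  simp at y00 y01 y10 y11
  obtain ⟨c1, c4, c9⟩ := row3 h h0 h1 (κ 1) (κ 4) (κ 9) (X 0 0 - κ 0) (X 0 1) (X 0 2)
    (by rw [x00]; ring) (by rw [x01]; ring) (by rw [x02]; ring) (bX' _ _) (bX3 _ _) (bX3 _ _)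
  obtain ⟨c5, c2, c6⟩ := row3 h h0 h1 (κ 5) (κ 2) (κ 6) (X 1 0) (X 1 1 - κ 0) (X 1 2)
    (by rw [x10]; ring) (by rw [x11]; ring) (by rw [x12]; ring) (bX3 _ _) (bX' _ _) (bX3 _ _)
  obtain ⟨c10, c7, c3⟩ := row3 h h0 h1 (κ 10) (κ 7) (κ 3) (X 2 0) (X 2 1) (X 2 2 - κ 0)
    (by rw [x20]; ring) (by rw [x21]; ring) (by rw [x22]; ring) (bX3 _ _) (bX3 _ _) (bX' _ _)
  obtain ⟨f00, f01⟩ := row2 h h0 h1 (κ 1 + κ 3 + κ 9 + κ 10 + (-2*h) * κ 8)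
    (κ 4 + κ 7 + (-2*h) * κ 11) (Y 0 0 - κ 0) (Y 0 1)
    (by rw [y00]; ring) (by rw [y01]; ring) (bY' _ _) (bY3 _ _)
  obtain ⟨f10, f11⟩ := row2 h h0 h1 (κ 5 + κ 6 + (-2*h) * κ 12)
    (κ 2 + (-2*h) * κ 13) (Y 1 0) (Y 1 1 - κ 0)
    (by rw [y10]; ring) (by rw [y11]; ring) (bY3 _ _) (bY' _ _)
  have hn : ‖(-2*(h:ℂ))‖ = 2*h := by
    rw [norm_mul, norm_neg, Complex.norm_ofNat, Complex.norm_real, Real.norm_eq_abs,
      abs_of_pos (by linarith)]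
  have key : ∀ s x : ℂ, ‖s + (-2*h) * x‖ ≤ 6 → ‖s‖ ≤ 52 → ‖x‖ ≤ 40 := by
    intro s x hs1 hs2
    have e1 : (-2*(h:ℂ)) * x = (s + (-2*h) * x) - s := by ring
    have n1 : (2*h) * ‖x‖ ≤ 58 := by
      rw [← hn, ← norm_mul, e1]
      refine (norm_sub_le _ _).trans ?_
      linarith
    nlinarith [norm_nonneg x]
  have c8 : ‖κ 8‖ ≤ 40 := by
    refine key _ _ f00 ?_
    refine (norm_add_le _ _).trans ?_
    have := norm_add_le (κ 1 + κ 3) (κ 9)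
    have := norm_add_le (κ 1) (κ 3)
    linarith
  have c11 : ‖κ 11‖ ≤ 40 := by
    refine key _ _ f01 ?_
    refine (norm_add_le _ _).trans ?_
    linarith
  have c12 : ‖κ 12‖ ≤ 40 := by
    refine key _ _ f10 ?_
    refine (norm_add_le _ _).trans ?_
    linarith
  have c13 : ‖κ 13‖ ≤ 40 := by
    refine key _ _ f11 ?_
    linarith
  fin_cases j
  · exact n0.le.trans (by norm_num)
  · exact c1.trans (by norm_num)
  · exact c2.trans (by norm_num)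
  · exact c3.trans (by norm_num)
  · exact c4.trans (by norm_num)
  · exact c5.trans (by norm_num)
  · exact c6.trans (by norm_num)
  · exact c7.trans (by norm_num)
  · exact c8
  · exact c9.trans (by norm_num)
  · exact c10.trans (by norm_num)
  · exact c11
  · exact c12
  · exact c13

end Pool.Agent.D0H83.FB
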