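import Pool.Agent.D0H83.FB.Main

/-!
# Closed braids on four strands with trivial normalised bracket: the Alexander polynomial
-/

set_option autoImplicit false

namespace Pool.Agent.D0H83.FB

open Pool.Agent.H891R2.Jones Pool.Agent.TH561 Pool.Agent.W639.RB Complex Finset LaurentPolynomial

/-- the matrices of the reduced Burau representation of the braid group on four strands:
`(true, i)` is `σ_i`, whose matrix differs from the identity only in the row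
`(…, t, -t, 1, …)`, and `(false, i)` is its inverse, with the row `(…, 1, -t⁻¹, t⁻¹, …)` -/
noncomputable def bur : Bool × ℕ → Matrix (Fin 3) (Fin 3) ℤ[T;T⁻¹]
  | (true, 0) => !![-T 1, 1, 0; 0, 1, 0; 0, 0, 1]
  | (true, 1) => !![1, 0, 0; T 1, -T 1, 1; 0, 0, 1]
  | (true, 2) => !![1, 0, 0; 0, 1, 0; 0, T 1, -T 1]
  | (false, 0) => !![-T (-1), T (-1), 0; 0, 1, 0; 0, 0, 1]
  | (false, 1) => !![1, 0, 0; 1, -T (-1), T (-1); 0, 0, 1]
  | (false, 2) => !![1, 0, 0; 0, 1, 0; 0, 1, -T (-1)]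
  | _ => 1

/-- the reduced Burau matrix of a braid word -/
noncomputable def burW (w : List (Bool × ℕ)) : Matrix (Fin 3) (Fin 3) ℤ[T;T⁻¹] := (w.map bur).prod

/-- the polynomials `Δ_e` for `e = ±1, ±3, ±5` -/
noncomputable def alex (e : ℤ) : ℤ[T;T⁻¹] :=
  if |e| ≤ 3 then 1 else -T 3 + 2 * T 2 + T 1 - 3 + T (-1) + 2 * T (-2) - T (-3)

/-- the diagonal matrix of the change of basis -/
noncomputable def DD (A : ℂ) : Matrix (Fin 3) (Fin 3) ℂ := !![1, 0, 0; 0, (A⁻¹)^2, 0; 0, 0, (A⁻¹)^4]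

/-- the inverse of `DD` -/
noncomputable def DI (A : ℂ) : Matrix (Fin 3) (Fin 3) ℂ := !![1, 0, 0; 0, A^2, 0; 0, 0, A^4]

theorem DD_DI {A : ℂ} (hA : A ≠ 0) : DD A * DI A = 1 := by
  ext i j
  fin_cases i <;> fin_cases j <;> simp [DD, DI, hA]

theorem DI_DD {A : ℂ} (hA : A ≠ 0) : DI A * DD A = 1 := by
  ext i j
  fin_cases i <;> fin_cases j <;> simp [DD, DI, hA]

theorem bur_letter {A : ℂ} (hA : A ≠ 0) (s : ℂ) (hs : s ≠ 0) (hsA : s = (A⁻¹)^4) (x : Bool × ℕ)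
    (hx : x.2 + 1 < 4) :
    (evc s hs).mapMatrix (bur x) =
      DD A * (A ^ (-sgn x) • lo A (EX (-A^2 - (A⁻¹)^2)) x) * DI A := by
  obtain ⟨b, i⟩ := x
  have hT1 : evc s hs (T 1) = (A⁻¹)^4 := by rw [evc_T, zpow_one, hsA]
  have hT2 : evc s hs (T (-1)) = A^4 := by
    rw [evc_T, zpow_neg, zpow_one, hsA, inv_pow, inv_inv]
  have hi : i = 0 ∨ i = 1 ∨ i = 2 := by simp only at hx; omega
  cases b <;> rcases hi with rfl | rfl | rfl <;> ext p q <;>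
    simp only [Matrix.mul_apply, Fin.sum_univ_three] <;> fin_cases p <;> fin_cases q <;>
    simp [bur, DD, DI, lo, sgn, EX, hT1, hT2, hA] <;> first | done | (field_simp <;> ring)

theorem bur_word {A : ℂ} (hA : A ≠ 0) (s : ℂ) (hs : s ≠ 0) (hsA : s = (A⁻¹)^4)
    (w : List (Bool × ℕ)) (hw : ∀ x ∈ w, x.2 + 1 < 4) :
    (evc s hs).mapMatrix (burW w) =
      DD A * (A ^ (-expo w) • wo A (EX (-A^2 - (A⁻¹)^2)) w) * DI A := by
  induction w with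
  | nil => simp [burW, wo, expo, DD_DI hA]
  | cons x w ih =>
    have h1 : burW (x :: w) = bur x * burW w := by simp [burW]
    rw [h1, map_mul, ih (fun y hy => hw y (List.mem_cons_of_mem _ hy)),
      bur_letter hA s hs hsA x (hw x List.mem_cons_self), wo_cons, expo_cons]
    have h2 : -(sgn x + expo w) = -sgn x + -expo w := by ring
    rw [h2, zpow_add₀ hA, ← smul_mul_smul_comm]
    calc DD A * (A ^ (-sgn x) • lo A (EX (-A^2 - (A⁻¹)^2)) x) * DI A *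
          (DD A * (A ^ (-expo w) • wo A (EX (-A^2 - (A⁻¹)^2)) w) * DI A)
        = DD A * (A ^ (-sgn x) • lo A (EX (-A^2 - (A⁻¹)^2)) x) * (DI A * DD A) *
          ((A ^ (-expo w) • wo A (EX (-A^2 - (A⁻¹)^2)) w) * DI A) := by simp only [mul_assoc]
      _ = _ := by rw [DI_DD hA, mul_one]; simp only [mul_assoc]

/-- the characteristic polynomial at one -/
theorem det_bur {A : ℂ} (hA : A ≠ 0) (s : ℂ) (hs : s ≠ 0) (hsA : s = (A⁻¹)^4)
    (w : List (Bool × ℕ)) (hw : ∀ x ∈ w, x.2 + 1 < 4) :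
    evc s hs (1 - burW w).det = (A ^ (-expo w))^3 *
      ((A ^ expo w) • (1 : Matrix (Fin 3) (Fin 3) ℂ) - wo A (EX (-A^2 - (A⁻¹)^2)) w).det := by
  rw [RingHom.map_det, map_sub, map_one, bur_word hA s hs hsA w hw]
  have h1 : (1 : Matrix (Fin 3) (Fin 3) ℂ) - DD A * (A ^ (-expo w) • wo A (EX (-A^2 - (A⁻¹)^2)) w) * DI A =
      DD A * (A ^ (-expo w) • ((A ^ expo w) • (1 : Matrix (Fin 3) (Fin 3) ℂ) -
        wo A (EX (-A^2 - (A⁻¹)^2)) w)) * DI A := by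
    rw [smul_sub, smul_smul, ← zpow_add₀ hA, neg_add_cancel, zpow_zero, one_smul, mul_sub, sub_mul,
      mul_one, DD_DI hA]
  rw [h1, Matrix.det_mul, Matrix.det_mul, mul_comm, ← mul_assoc, ← Matrix.det_mul, DI_DD hA,
    Matrix.det_one, one_mul, Matrix.det_smul, Fintype.card_fin]

/-- the value of the characteristic polynomial on an arc of the unit circle -/
theorem det_value (w : List (Bool × ℕ)) (hw : ∀ x ∈ w, x.2 + 1 < 4)
    (hf : (draw (braidClosure 4) w).close.fPoly = 1) (A : ℂ) (hA : ‖A‖ = 1) (h : ℝ)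
    (h0 : 0 < h) (hh : 1 < 2*h^2) (hd : -2*(h:ℂ) = -A^2 - (A⁻¹)^2) (s : ℂ) (hs : s ≠ 0)
    (hsA : s = (A⁻¹)^4) :
    (4*(h:ℂ)^2 - 1) * evc s hs (1 - burW w).det =
      (16*(h:ℂ)^4 - 8*(h:ℂ)^2) * (1 + (A ^ expo w)⁻¹^4) -
        2*h*((A ^ expo w)^2 + ((A ^ expo w)⁻¹)^6) := by
  have hodd := expo_odd w hw hf
  have hA0 := ne_zero_of_norm_one hA
  have hbr := evc_bracket w hw A hA0 (by rw [hf, map_one])
  rw [if_neg (Int.not_even_iff_odd.2 hodd)] at hbr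
  obtain ⟨e, he⟩ : ∃ e, e = expo w := ⟨_, rfl⟩
  obtain ⟨ζ, hζ⟩ : ∃ ζ, ζ = A ^ e := ⟨_, rfl⟩
  have hζn : ‖ζ‖ = 1 := by rw [hζ, norm_zpow, hA, one_zpow]
  have hζ0 : ζ ≠ 0 := ne_zero_of_norm_one hζn
  have htr := bracket_traces w hw A hA0 _ hd
  have hdb := det_bur hA0 s hs hsA w hw
  rw [← hd] at hdb
  rw [← he] at hodd hbr
  rw [hbr, ← he, ← hζ] at htr
  rw [← he] at hdb ⊢
  have h3e : A ^ (3 * e) = ζ^3 := by rw [mul_comm, zpow_mul, ← hζ]; rfl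
  rw [h3e] at htr
  have hMX := word_inv hA hd (isTL_EX _) (GX h) (selfadj_X h) w hw
  have hMY := word_inv hA hd (isTL_EY _) (GY h) (selfadj_Y h) w hw
  obtain ⟨a, b, c, ha, hb, hc, hX, hXd, hXt⟩ := three_roots (aniso_GX h h0 hh) hMX
  obtain ⟨m, n, hm, hn, hY, hYd⟩ := two_roots (aniso_GY h h0 hh) hMY
  rw [det_wo_X hA0 hd w hw, ← he, hodd.neg_zpow, inv_zpow, ← hζ] at hXd
  rw [det_wo_Y hA0 hd w hw, ← he, hodd.neg_zpow, ← zpow_natCast, ← zpow_mul, inv_zpow, mul_comm,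
    zpow_mul, ← hζ, zpow_natCast] at hYd
  rw [hX, hY] at htr
  rw [zpow_neg, ← hζ, hXt] at hdb
  rw [← hζ, hdb]
  have ha0 := ne_zero_of_norm_one ha
  have hb0 := ne_zero_of_norm_one hb
  have hc0 := ne_zero_of_norm_one hc
  have hm0 := ne_zero_of_norm_one hm
  have hn0 := ne_zero_of_norm_one hn
  -- the conjugate relation
  have cj : ∀ x : ℂ, ‖x‖ = 1 → (starRingEnd ℂ) x = x⁻¹ := fun x hx => conj_of_norm_one hx
  have htr' := congrArg (starRingEnd ℂ) htr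
  simp only [map_mul, map_add, map_sub, map_pow, map_neg, map_one, map_ofNat,
    Complex.conj_ofReal, cj ζ hζn, cj a ha, cj b hb, cj c hc, cj m hm, cj n hn] at htr'
  have e2 : a * b + b * c + c * a = -ζ⁻¹ * (a⁻¹ + b⁻¹ + c⁻¹) := by
    rw [hXd]; field_simp; ring
  have y2 : m⁻¹ + n⁻¹ = -ζ^2 * (m + n) := by
    have h1 : (m⁻¹ + n⁻¹) * (m * n) = m + n := by field_simp; ring
    rw [← hYd] at h1
    have h2 : (m⁻¹ + n⁻¹) * -(ζ ^ 2)⁻¹ * (-ζ^2) = (m + n) * (-ζ^2) := by rw [h1]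
    have h3 : (m⁻¹ + n⁻¹) * -(ζ ^ 2)⁻¹ * (-ζ^2) = m⁻¹ + n⁻¹ := by
      have h4 : (ζ^2)⁻¹ * ζ^2 = 1 := inv_mul_cancel₀ (pow_ne_zero 2 hζ0)
      linear_combination (m⁻¹ + n⁻¹) * h4
    rw [← h3, h2]; ring
  rw [y2] at htr'
  have hexp : (ζ - a) * (ζ - b) * (ζ - c) = ζ^3 - (a + b + c) * ζ^2 - (a⁻¹ + b⁻¹ + c⁻¹) + ζ⁻¹ := by
    have h1 : (ζ - a) * (ζ - b) * (ζ - c) = ζ^3 - (a + b + c) * ζ^2 + (a * b + b * c + c * a) * ζ -
      a * b * c := by ring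
    rw [h1, e2, ← hXd]
    have h4 : ζ⁻¹ * ζ = 1 := inv_mul_cancel₀ hζ0
    linear_combination (-(a⁻¹ + b⁻¹ + c⁻¹)) * h4
  rw [hexp]
  have h4 : ζ⁻¹ * ζ = 1 := inv_mul_cancel₀ hζ0
  generalize hX1 : a + b + c = X at *
  generalize hX2 : a⁻¹ + b⁻¹ + c⁻¹ = X' at *
  generalize hY1 : m + n = Y at *
  have g1 : (4*(h:ℂ)^2 - 1) * X = 2*h*ζ^3 - (16*(h:ℂ)^4 - 12*(h:ℂ)^2 + 1) * ζ - Y := by
    linear_combination -htr
  have g2 : (4*(h:ℂ)^2 - 1) * X' = 2*h*ζ⁻¹^3 - (16*(h:ℂ)^4 - 12*(h:ℂ)^2 + 1) * ζ⁻¹ + ζ^2*Y := by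
    linear_combination -htr'
  have g3 : (4*(h:ℂ)^2 - 1) * (ζ⁻¹^3 * (ζ^3 - X * ζ^2 - X' + ζ⁻¹)) =
      (4*(h:ℂ)^2 - 1) * (ζ⁻¹^3 * ζ^3 + ζ⁻¹^4) - ζ⁻¹^3 * ζ^2 * ((4*(h:ℂ)^2 - 1) * X) -
        ζ⁻¹^3 * ((4*(h:ℂ)^2 - 1) * X') := by ring
  rw [g3, g1, g2]
  field_simp
  ring

/-- evaluation at the points of an arc is faithful -/
theorem eq_zero_of_arc (p : ℤ[T;T⁻¹]) (hp : ∀ α : ℝ, 0 < α → α < 1 → ∀ s : ℂ, ∀ hs : s ≠ 0,
    s = Complex.exp ((α:ℂ) * I) → evc s hs p = 0) : p = 0 := by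
  obtain ⟨n, q, hq⟩ := p.exists_T_pow
  have hq0 : q.map (Int.castRingHom ℂ) = 0 := by
    apply Polynomial.eq_zero_of_infinite_isRoot
    have hinj : Set.InjOn (fun α : ℝ => Complex.exp ((α:ℂ) * I)) (Set.Ioo 0 1) := by
      intro x hx y hy hxy
      simp only at hxy
      have h1 := congrArg Complex.im hxy
      have h2 := congrArg Complex.re hxy
      rw [Complex.exp_ofReal_mul_I_im, Complex.exp_ofReal_mul_I_im] at h1
      have hpi := Real.pi_gt_three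
      exact Real.injOn_sin (by constructor <;> linarith [hx.1, hx.2])
        (by constructor <;> linarith [hy.1, hy.2]) h1
    have hinf : (Set.image (fun α : ℝ => Complex.exp ((α:ℂ) * I)) (Set.Ioo 0 1)).Infinite :=
      (Set.Ioo_infinite (by norm_num)).image hinj
    apply hinf.mono
    rintro _ ⟨α, hα, rfl⟩
    simp only [Set.mem_setOf_eq, Polynomial.IsRoot.def]
    have h1 := hp α hα.1 hα.2 _ (Complex.exp_ne_zero _) rfl
    have h2 := congrArg (evc (Complex.exp ((α:ℂ) * I)) (Complex.exp_ne_zero _)) hq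
    rw [map_mul, h1, zero_mul] at h2
    unfold evc at h2
    rw [LaurentPolynomial.eval₂_toLaurent] at h2
    rw [Polynomial.eval_map]
    exact h2
  have hq1 : q = 0 := by
    apply Polynomial.map_injective (Int.castRingHom ℂ) (RingHom.injective_int _)
    rw [hq0, Polynomial.map_zero]
  rw [hq1, map_zero] at hq
  have h3 : p = p * T n * T (-n) := by
    rw [mul_assoc, ← T_add, add_neg_cancel, T_zero, mul_one]
  rw [h3, ← hq, zero_mul]

theorem evc_alex {A s : ℂ} (hA : A ≠ 0) (hs : s ≠ 0) (hsA : s = (A⁻¹)^4) (e : ℤ) (h5 : ¬ |e| ≤ 3) :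
    evc s hs (alex e) = -((A⁻¹)^12) + 2*(A⁻¹)^8 + (A⁻¹)^4 - 3 + A^4 + 2*A^8 - A^12 := by
  unfold alex
  rw [if_neg h5]
  simp only [map_add, map_sub, map_neg, map_mul, evc_T, map_ofNat]
  have h1 : s ^ (3:ℤ) = (A⁻¹)^12 := by rw [hsA]; norm_cast; ring
  have h2 : s ^ (2:ℤ) = (A⁻¹)^8 := by rw [hsA]; norm_cast; ring
  have h3 : s ^ (1:ℤ) = (A⁻¹)^4 := by rw [hsA, zpow_one]
  have hi : s⁻¹ = A^4 := by rw [hsA, inv_pow, inv_inv]
  have h4 : s ^ (-1:ℤ) = A^4 := by rw [zpow_neg, zpow_one, hi]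
  have h6 : s ^ (-2:ℤ) = A^8 := by
    have : s ^ (-2:ℤ) = (s⁻¹)^2 := by rw [zpow_neg, inv_pow]; rfl
    rw [this, hi]; ring
  have h7 : s ^ (-3:ℤ) = A^12 := by
    have : s ^ (-3:ℤ) = (s⁻¹)^3 := by rw [zpow_neg, inv_pow]; rfl
    rw [this, hi]; ring
  rw [h1, h2, h3, h4, h6, h7]

/-- The reduced Burau matrix of a braid on four strands whose closure has normalised bracket `1`. -/
theorem det_burau (w : List (Bool × ℕ)) (hw : ∀ x ∈ w, x.2 + 1 < 4)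
    (hf : (draw (braidClosure 4) w).close.fPoly = 1) :
    (1 - burW w).det = T ((expo w - 3) / 2) * (1 + T 1 + T 2 + T 3) * alex (expo w) := by
  rw [← sub_eq_zero]
  apply eq_zero_of_arc
  intro α hα0 hα1 s hs hsα
  rw [map_sub, sub_eq_zero]
  obtain ⟨A, hAe⟩ : ∃ A : ℂ, A = Complex.exp (((-(α/4) : ℝ):ℂ) * I) := ⟨_, rfl⟩
  have hA : ‖A‖ = 1 := by rw [hAe]; exact Complex.norm_exp_ofReal_mul_I _
  have hA0 := ne_zero_of_norm_one hA
  have hsA : s = (A⁻¹)^4 := by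
    rw [hsα, hAe, ← Complex.exp_neg, ← Complex.exp_nat_mul]; congr 1; push_cast; ring
  obtain ⟨h, hh⟩ : ∃ h, h = Real.cos (α/2) := ⟨_, rfl⟩
  have hh1 : 7/8 ≤ h := by
    have h1 := Real.one_sub_sq_div_two_le_cos (x := α/2)
    rw [← hh] at h1
    nlinarith
  have hd : -2*(h:ℂ) = -A^2 - (A⁻¹)^2 := by
    have h1 : A^2 = Complex.exp (-((α/2 : ℝ):ℂ) * I) := by
      rw [hAe, ← Complex.exp_nat_mul]; congr 1; push_cast; ring
    have h2 : (A⁻¹)^2 = Complex.exp (((α/2 : ℝ):ℂ) * I) := by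
      rw [hAe, ← Complex.exp_neg, ← Complex.exp_nat_mul]; congr 1; push_cast; ring
    rw [h1, h2, hh, Complex.ofReal_cos, Complex.cos]
    ring
  have hval := det_value w hw hf A hA h (by linarith) (by nlinarith) hd s hs hsA
  have hodd := expo_odd w hw hf
  have h5 := abs_le_five w hw hf
  have hQ0 : (4*(h:ℂ)^2 - 1) ≠ 0 := by
    have : (4*h^2 - 1 : ℝ) ≠ 0 := by nlinarith
    have h2 : ((4*h^2 - 1 : ℝ) : ℂ) ≠ 0 := by exact_mod_cast this
    push_cast at h2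
    exact h2
  apply mul_left_cancel₀ hQ0
  rw [hval]
  have hh2 : (h:ℂ) = (A^2 + (A⁻¹)^2)/2 := by linear_combination (-1/2) * hd
  rw [map_mul, map_mul, map_add, map_add, map_add, map_one, evc_T, evc_T, evc_T, evc_T, hh2]
  have t1 : s ^ (1:ℤ) = (A⁻¹)^4 := by rw [hsA, zpow_one]
  have t2 : s ^ (2:ℤ) = (A⁻¹)^8 := by rw [hsA]; norm_cast; ring
  have t3 : s ^ (3:ℤ) = (A⁻¹)^12 := by rw [hsA]; norm_cast; ring
  have hi : s⁻¹ = A^4 := by rw [hsA, inv_pow, inv_inv]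
  have t4 : s ^ (-1:ℤ) = A^4 := by rw [zpow_neg, zpow_one, hi]
  have t5 : s ^ (-2:ℤ) = A^8 := by
    have : s ^ (-2:ℤ) = (s⁻¹)^2 := by rw [zpow_neg, inv_pow]; rfl
    rw [this, hi]; ring
  have t6 : s ^ (-3:ℤ) = A^12 := by
    have : s ^ (-3:ℤ) = (s⁻¹)^3 := by rw [zpow_neg, inv_pow]; rfl
    rw [this, hi]; ring
  have t7 : s ^ (-4:ℤ) = A^16 := by
    have : s ^ (-4:ℤ) = (s⁻¹)^4 := by rw [zpow_neg, inv_pow]; rfl
    rw [this, hi]; ring
  rw [t1, t2, t3]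
  have hcases : expo w = 1 ∨ expo w = -1 ∨ expo w = 3 ∨ expo w = -3 ∨ expo w = 5 ∨ expo w = -5 := by
    obtain ⟨k, hk⟩ := hodd
    rw [abs_le] at h5
    omega
  rcases hcases with h1 | h1 | h1 | h1 | h1 | h1
  · rw [h1]
    have e1 : alex 1 = 1 := by unfold alex; rw [if_pos (by norm_num)]
    have e2 : ((1:ℤ) - 3) / 2 = -1 := by norm_num
    rw [e1, map_one, e2, t4, zpow_one]
    field_simp
    ring
  · rw [h1]
    have e1 : alex (-1) = 1 := by unfold alex; rw [if_pos (by norm_num)]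
    have e2 : ((-1:ℤ) - 3) / 2 = -2 := by norm_num
    rw [e1, map_one, e2, t5, zpow_neg, zpow_one]
    field_simp
    ring
  · rw [h1]
    have e1 : alex 3 = 1 := by unfold alex; rw [if_pos (by norm_num)]
    have e2 : ((3:ℤ) - 3) / 2 = 0 := by norm_num
    have e3 : A ^ (3:ℤ) = A^3 := rfl
    rw [e1, map_one, e2, zpow_zero, e3]
    field_simp
    ring
  · rw [h1]
    have e1 : alex (-3) = 1 := by unfold alex; rw [if_pos (by norm_num)]
    have e2 : ((-3:ℤ) - 3) / 2 = -3 := by norm_num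
    have e3 : A ^ (-3:ℤ) = (A⁻¹)^3 := by rw [zpow_neg, inv_pow]; rfl
    rw [e1, map_one, e2, t6, e3]
    field_simp
    ring
  · rw [h1, evc_alex hA0 hs hsA 5 (by norm_num)]
    have e2 : ((5:ℤ) - 3) / 2 = 1 := by norm_num
    have e3 : A ^ (5:ℤ) = A^5 := rfl
    rw [e2, t1, e3]
    field_simp
    ring
  · rw [h1, evc_alex hA0 hs hsA (-5) (by norm_num)]
    have e2 : ((-5:ℤ) - 3) / 2 = -4 := by norm_num
    have e3 : A ^ (-5:ℤ) = (A⁻¹)^5 := by rw [zpow_neg, inv_pow]; rfl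
    rw [e2, t7, e3]
    field_simp
    ring

end Pool.Agent.D0H83.FB
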