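import Mathlib

/-!
# Matrices preserving a definite Hermitian form: eigenvalues, traces and determinants
-/

set_option autoImplicit false

namespace Pool.Agent.D0H83.FB

open Matrix Complex

section

variable {n : Type*} [Fintype n] [DecidableEq n]

/-- all values of the Hermitian form on nonzero vectors are nonzero -/
def Aniso (G : Matrix n n ℂ) : Prop := ∀ v : n → ℂ, v ≠ 0 → star v ⬝ᵥ (G *ᵥ v) ≠ 0

theorem norm_root {G M : Matrix n n ℂ} (hG : Aniso G) (hM : Mᴴ * G * M = G) (r : ℂ)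
    (hr : r ∈ M.charpoly.roots) : ‖r‖ = 1 := by
  have h1 : M.charpoly.eval r = 0 := by
    have := (Polynomial.mem_roots'.1 hr).2
    exact this
  rw [Matrix.eval_charpoly] at h1
  obtain ⟨v, hv, hv'⟩ := Matrix.exists_mulVec_eq_zero_iff.2 h1
  have h2 : M *ᵥ v = r • v := by
    rw [Matrix.sub_mulVec, sub_eq_zero] at hv'
    rw [← hv']
    simp [Matrix.scalar_apply, ← Matrix.smul_one_eq_diagonal, Matrix.smul_mulVec]
  have h3 : star v ⬝ᵥ (G *ᵥ v) = star (M *ᵥ v) ⬝ᵥ (G *ᵥ (M *ᵥ v)) := by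
    conv_lhs => rw [← hM]
    rw [Matrix.star_mulVec, ← Matrix.dotProduct_mulVec, Matrix.mulVec_mulVec, Matrix.mulVec_mulVec,
      mul_assoc]
  rw [h2, Matrix.mulVec_smul, star_smul, smul_dotProduct, dotProduct_smul, smul_eq_mul,
    smul_eq_mul, ← mul_assoc] at h3
  have h4 : (star r * r - 1) * (star v ⬝ᵥ (G *ᵥ v)) = 0 := by
    rw [sub_mul, one_mul, ← h3, sub_self]
  have h5 : star r * r = 1 := by
    rcases mul_eq_zero.1 h4 with h | h
    · exact sub_eq_zero.1 h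
    · exact absurd h (hG v hv)
  have h6 : ‖r‖ * ‖r‖ = 1 := by
    have := congrArg norm h5
    rw [norm_mul, norm_star, norm_one] at this
    exact this
  nlinarith [norm_nonneg r]

end

theorem three_roots {G M : Matrix (Fin 3) (Fin 3) ℂ} (hG : Aniso G) (hM : Mᴴ * G * M = G) :
    ∃ a b c : ℂ, ‖a‖ = 1 ∧ ‖b‖ = 1 ∧ ‖c‖ = 1 ∧ M.trace = a + b + c ∧ M.det = a * b * c ∧
      ∀ t : ℂ, (t • (1 : Matrix (Fin 3) (Fin 3) ℂ) - M).det = (t - a) * (t - b) * (t - c) := by
  have hs := IsAlgClosed.splits M.charpoly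
  have h0 : M.charpoly.roots.card = 3 := by
    rw [Polynomial.splits_iff_card_roots.1 hs, Matrix.charpoly_natDegree_eq_dim, Fintype.card_fin]
  obtain ⟨a, b, c, h1⟩ := Multiset.card_eq_three.1 h0
  refine ⟨a, b, c, norm_root hG hM a ?_, norm_root hG hM b ?_, norm_root hG hM c ?_, ?_, ?_, ?_⟩
  · rw [h1]; simp
  · rw [h1]; simp
  · rw [h1]; simp
  · rw [Matrix.trace_eq_sum_roots_charpoly, h1]; simp [add_assoc]
  · rw [Matrix.det_eq_prod_roots_charpoly, h1]; simp [mul_assoc]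
  · intro t
    have h2 := hs.eq_prod_roots
    rw [M.charpoly_monic.leadingCoeff, Polynomial.C_1, one_mul, h1] at h2
    have h3 := congrArg (Polynomial.eval t) h2
    rw [Matrix.eval_charpoly] at h3
    rw [Matrix.smul_one_eq_diagonal]
    simpa [mul_assoc] using h3

theorem two_roots {G M : Matrix (Fin 2) (Fin 2) ℂ} (hG : Aniso G) (hM : Mᴴ * G * M = G) :
    ∃ a b : ℂ, ‖a‖ = 1 ∧ ‖b‖ = 1 ∧ M.trace = a + b ∧ M.det = a * b := by
  have hs := IsAlgClosed.splits M.charpoly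
  have h0 : M.charpoly.roots.card = 2 := by
    rw [Polynomial.splits_iff_card_roots.1 hs, Matrix.charpoly_natDegree_eq_dim, Fintype.card_fin]
  obtain ⟨a, b, h1⟩ := Multiset.card_eq_two.1 h0
  refine ⟨a, b, norm_root hG hM a ?_, norm_root hG hM b ?_, ?_, ?_⟩
  · rw [h1]; simp
  · rw [h1]; simp
  · rw [Matrix.trace_eq_sum_roots_charpoly, h1]; simp
  · rw [Matrix.det_eq_prod_roots_charpoly, h1]; simp

/-- The discriminant inequality for the trace and the determinant of a unitary `3 × 3` matrix. -/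
theorem disc_ineq (a b c : ℂ) (ha : ‖a‖ = 1) (hb : ‖b‖ = 1) (hc : ‖c‖ = 1) :
    normSq (a + b + c) ^ 2 - 8 * ((a + b + c) ^ 3 * (starRingEnd ℂ) (a * b * c)).re +
      18 * normSq (a + b + c) - 27 ≤ 0 := by
  have conj_inv : ∀ x : ℂ, ‖x‖ = 1 → (starRingEnd ℂ) x = x⁻¹ := by
    intro x hx
    rw [Complex.inv_def, Complex.normSq_eq_norm_sq, hx]
    simp
  have ne0 : ∀ x : ℂ, ‖x‖ = 1 → x ≠ 0 := by
    intro x hx h
    rw [h, norm_zero] at hx
    exact zero_ne_one hx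
  have ha0 := ne0 a ha
  have hb0 := ne0 b hb
  have hc0 := ne0 c hc
  have h1 : ((normSq (a + b + c) ^ 2 - 8 * ((a + b + c) ^ 3 * (starRingEnd ℂ) (a * b * c)).re +
      18 * normSq (a + b + c) - 27 : ℝ) : ℂ) =
      -((normSq ((a - b) * (b - c) * (c - a)) : ℝ) : ℂ) := by
    have h2 : ((2 * ((a + b + c) ^ 3 * (starRingEnd ℂ) (a * b * c)).re : ℝ) : ℂ) =
        (a + b + c) ^ 3 * (starRingEnd ℂ) (a * b * c) +
          (starRingEnd ℂ) ((a + b + c) ^ 3 * (starRingEnd ℂ) (a * b * c)) := by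
      rw [Complex.add_conj]
    have h3 : ((normSq (a + b + c) ^ 2 - 8 * ((a + b + c) ^ 3 * (starRingEnd ℂ) (a * b * c)).re +
      18 * normSq (a + b + c) - 27 : ℝ) : ℂ) = ((normSq (a + b + c) : ℝ) : ℂ) ^ 2 -
      4 * ((2 * ((a + b + c) ^ 3 * (starRingEnd ℂ) (a * b * c)).re : ℝ) : ℂ) +
      18 * ((normSq (a + b + c) : ℝ) : ℂ) - 27 := by
      push_cast
      ring
    rw [h3, h2, Complex.normSq_eq_conj_mul_self, Complex.normSq_eq_conj_mul_self]
    simp only [map_mul, map_add, map_sub, map_pow, conj_inv a ha, conj_inv b hb, conj_inv c hc,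
      Complex.conj_conj, map_inv₀, inv_inv]
    field_simp
    ring
  have h4 := Complex.ofReal_injective (by rw [h1]; push_cast; rfl :
    ((normSq (a + b + c) ^ 2 - 8 * ((a + b + c) ^ 3 * (starRingEnd ℂ) (a * b * c)).re +
      18 * normSq (a + b + c) - 27 : ℝ) : ℂ) = ((-(normSq ((a - b) * (b - c) * (c - a))) : ℝ) : ℂ))
  rw [h4]
  linarith [Complex.normSq_nonneg ((a - b) * (b - c) * (c - a))]

end Pool.Agent.D0H83.FB
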