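import Pool.Agent.D0H83.FB.Tr
import Pool.Agent.D0H83.FB.Uni

/-!
# The invariant Hermitian forms and the determinants
-/

set_option autoImplicit false

namespace Pool.Agent.D0H83.FB

open Pool.Agent.H891R2.Jones Pool.Agent.TH561 Pool.Agent.W639.RB Complex
open scoped Matrix

/-- the form on the three-dimensional representation -/
noncomputable def GX (h : ℝ) : Matrix (Fin 3) (Fin 3) ℂ :=
  !![-2*(h:ℂ), 1, 0; 1, -2*(h:ℂ), 1; 0, 1, -2*(h:ℂ)]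

/-- the form on the two-dimensional representation -/
noncomputable def GY (h : ℝ) : Matrix (Fin 2) (Fin 2) ℂ := !![-2*(h:ℂ), 1; 1, -2*(h:ℂ)]

theorem aniso_GX (h : ℝ) (h0 : 0 < h) (hh : 1 < 2*h^2) : Aniso (GX h) := by
  intro v hv hz
  apply hv
  have h1 := congrArg Complex.re hz
  simp [dotProduct, Matrix.mulVec, Fin.sum_univ_three, GX] at h1
  obtain ⟨x0, hx0⟩ : ∃ x, x = (v 0).re := ⟨_, rfl⟩
  obtain ⟨x1, hx1⟩ : ∃ x, x = (v 1).re := ⟨_, rfl⟩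
  obtain ⟨x2, hx2⟩ : ∃ x, x = (v 2).re := ⟨_, rfl⟩
  obtain ⟨y0, hy0⟩ : ∃ x, x = (v 0).im := ⟨_, rfl⟩
  obtain ⟨y1, hy1⟩ : ∃ x, x = (v 1).im := ⟨_, rfl⟩
  obtain ⟨y2, hy2⟩ : ∃ x, x = (v 2).im := ⟨_, rfl⟩
  rw [← hx0, ← hx1, ← hx2, ← hy0, ← hy1, ← hy2] at h1
  have h2 : (2*h*x0 - x1)^2 + (2*h*y0 - y1)^2 + ((2*h*x2 - x1)^2 + (2*h*y2 - y1)^2) +
      (4*h^2 - 2)*(x1^2 + y1^2) = 0 := by
    linear_combination (-2*h) * h1
  have h3 : 0 < 4*h^2 - 2 := by linarith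
  have h4 : x1^2 + y1^2 = 0 := by
    by_contra hne
    have h5 : 0 < x1^2 + y1^2 := lt_of_le_of_ne (by positivity) (Ne.symm hne)
    have h6 : 0 < (4*h^2 - 2)*(x1^2 + y1^2) := mul_pos h3 h5
    nlinarith [sq_nonneg (2*h*x0 - x1), sq_nonneg (2*h*y0 - y1), sq_nonneg (2*h*x2 - x1),
      sq_nonneg (2*h*y2 - y1)]
  have e1 : x1 = 0 := by nlinarith [sq_nonneg x1, sq_nonneg y1]
  have e2 : y1 = 0 := by nlinarith [sq_nonneg x1, sq_nonneg y1]
  subst e1 e2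
  have h7 : (2*h*x0)^2 + (2*h*y0)^2 + ((2*h*x2)^2 + (2*h*y2)^2) = 0 := by linear_combination h2
  have sq0 : ∀ z : ℝ, (2*h*z)^2 = 0 → z = 0 := by
    intro z hz'
    have : 2*h*z = 0 := by
      rwa [sq_eq_zero_iff] at hz'
    rcases mul_eq_zero.1 this with h8 | h8
    · linarith
    · exact h8
  have e3 : x0 = 0 := sq0 _ (by nlinarith [sq_nonneg (2*h*x0), sq_nonneg (2*h*y0), sq_nonneg (2*h*x2), sq_nonneg (2*h*y2)])
  have e4 : y0 = 0 := sq0 _ (by nlinarith [sq_nonneg (2*h*x0), sq_nonneg (2*h*y0), sq_nonneg (2*h*x2), sq_nonneg (2*h*y2)])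
  have e5 : x2 = 0 := sq0 _ (by nlinarith [sq_nonneg (2*h*x0), sq_nonneg (2*h*y0), sq_nonneg (2*h*x2), sq_nonneg (2*h*y2)])
  have e6 : y2 = 0 := sq0 _ (by nlinarith [sq_nonneg (2*h*x0), sq_nonneg (2*h*y0), sq_nonneg (2*h*x2), sq_nonneg (2*h*y2)])
  funext i
  fin_cases i
  · exact Complex.ext (by simp [← hx0, e3]) (by simp [← hy0, e4])
  · exact Complex.ext (by simp [← hx1]) (by simp [← hy1])
  · exact Complex.ext (by simp [← hx2, e5]) (by simp [← hy2, e6])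

theorem aniso_GY (h : ℝ) (h0 : 0 < h) (hh : 1 < 2*h^2) : Aniso (GY h) := by
  intro v hv hz
  apply hv
  have h1 := congrArg Complex.re hz
  simp [dotProduct, Matrix.mulVec, Fin.sum_univ_two, GY] at h1
  obtain ⟨x0, hx0⟩ : ∃ x, x = (v 0).re := ⟨_, rfl⟩
  obtain ⟨x1, hx1⟩ : ∃ x, x = (v 1).re := ⟨_, rfl⟩
  obtain ⟨y0, hy0⟩ : ∃ x, x = (v 0).im := ⟨_, rfl⟩
  obtain ⟨y1, hy1⟩ : ∃ x, x = (v 1).im := ⟨_, rfl⟩
  rw [← hx0, ← hx1, ← hy0, ← hy1] at h1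
  have h2 : (2*h*x0 - x1)^2 + (2*h*y0 - y1)^2 +
      (4*h^2 - 1)*(x1^2 + y1^2) = 0 := by
    linear_combination (-2*h) * h1
  have h3 : 0 < 4*h^2 - 1 := by linarith
  have h4 : x1^2 + y1^2 = 0 := by
    by_contra hne
    have h5 : 0 < x1^2 + y1^2 := lt_of_le_of_ne (by positivity) (Ne.symm hne)
    have h6 : 0 < (4*h^2 - 1)*(x1^2 + y1^2) := mul_pos h3 h5
    nlinarith [sq_nonneg (2*h*x0 - x1), sq_nonneg (2*h*y0 - y1)]
  have e1 : x1 = 0 := by nlinarith [sq_nonneg x1, sq_nonneg y1]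
  have e2 : y1 = 0 := by nlinarith [sq_nonneg x1, sq_nonneg y1]
  subst e1 e2
  have h7 : (2*h*x0)^2 + (2*h*y0)^2 = 0 := by linear_combination h2
  have sq0 : ∀ z : ℝ, (2*h*z)^2 = 0 → z = 0 := by
    intro z hz'
    have : 2*h*z = 0 := by
      rwa [sq_eq_zero_iff] at hz'
    rcases mul_eq_zero.1 this with h8 | h8
    · linarith
    · exact h8
  have e3 : x0 = 0 := sq0 _ (by nlinarith [sq_nonneg (2*h*x0), sq_nonneg (2*h*y0)])
  have e4 : y0 = 0 := sq0 _ (by nlinarith [sq_nonneg (2*h*x0), sq_nonneg (2*h*y0)])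
  funext i
  fin_cases i
  · exact Complex.ext (by simp [← hx0, e3]) (by simp [← hy0, e4])
  · exact Complex.ext (by simp [← hx1]) (by simp [← hy1])

theorem selfadj_X (h : ℝ) (i : ℕ) (hi : i + 1 < 4) :
    (EX (-2*(h:ℂ)) i)ᴴ * GX h = GX h * EX (-2*(h:ℂ)) i := by
  have h2 : (starRingEnd ℂ) 2 = 2 := map_ofNat _ 2
  have : i = 0 ∨ i = 1 ∨ i = 2 := by omega
  rcases this with rfl | rfl | rfl <;> ext a b <;> fin_cases a <;> fin_cases b <;>
    simp [EX, GX, Matrix.mul_apply, Fin.sum_univ_three, h2]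

theorem selfadj_Y (h : ℝ) (i : ℕ) (hi : i + 1 < 4) :
    (EY (-2*(h:ℂ)) i)ᴴ * GY h = GY h * EY (-2*(h:ℂ)) i := by
  have h2 : (starRingEnd ℂ) 2 = 2 := map_ofNat _ 2
  have : i = 0 ∨ i = 1 ∨ i = 2 := by omega
  rcases this with rfl | rfl | rfl <;> ext a b <;> fin_cases a <;> fin_cases b <;>
    simp [EY, GY, Matrix.mul_apply, h2]

theorem conj_of_norm_one {A : ℂ} (hA : ‖A‖ = 1) : star A = A⁻¹ := by
  have : star A = (starRingEnd ℂ) A := rfl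
  rw [this, Complex.inv_def, Complex.normSq_eq_norm_sq, hA]
  simp

theorem ne_zero_of_norm_one {A : ℂ} (hA : ‖A‖ = 1) : A ≠ 0 := by
  intro h
  rw [h, norm_zero] at hA
  exact zero_ne_one hA

/-- the letters as `sg` -/
theorem lo_eq {R : Type*} [Ring R] [Algebra ℂ R] (A : ℂ) (e : ℕ → R) (x : Bool × ℕ) :
    lo A e x = sg (A ^ sgn x) e x.2 := by
  unfold lo sg
  rw [zpow_neg]

/-- invariance of a form under a letter -/
theorem letter_inv {n : Type*} [Fintype n] [DecidableEq n] {A : ℂ} (hA : ‖A‖ = 1) {d : ℂ}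
    (hd : d = -A^2 - (A⁻¹)^2) {e : ℕ → Matrix n n ℂ} (hTL : IsTL 4 d e) (G : Matrix n n ℂ)
    (hG : ∀ i, i + 1 < 4 → (e i)ᴴ * G = G * e i) (x : Bool × ℕ) (hx : x.2 + 1 < 4) :
    (lo A e x)ᴴ * G * lo A e x = G := by
  rw [lo_eq]
  have hB : ‖A ^ sgn x‖ = 1 := by rw [norm_zpow, hA, one_zpow]
  have hB0 := ne_zero_of_norm_one hB
  have hd' : d = -(A ^ sgn x)^2 - ((A ^ sgn x)⁻¹)^2 := by
    rcases sgn_cases x with h | h
    · rw [h, zpow_one]; exact hd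
    · rw [h, zpow_neg, zpow_one, inv_inv, hd]; ring
  have hs := conj_of_norm_one hB
  have h1 : (sg (A ^ sgn x) e x.2)ᴴ * G = G * sg (A ^ sgn x)⁻¹ e x.2 := by
    unfold sg
    rw [Matrix.conjTranspose_add, Matrix.conjTranspose_smul, Matrix.conjTranspose_smul,
      Matrix.conjTranspose_one, add_mul, smul_mul_assoc, smul_mul_assoc, one_mul, hG _ hx, mul_add,
      mul_smul_comm, mul_smul_comm, mul_one, star_inv₀, hs]
  rw [h1, mul_assoc, sg_inv' hB0 hd' hTL _ hx, mul_one]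

theorem word_inv {n : Type*} [Fintype n] [DecidableEq n] {A : ℂ} (hA : ‖A‖ = 1) {d : ℂ}
    (hd : d = -A^2 - (A⁻¹)^2) {e : ℕ → Matrix n n ℂ} (hTL : IsTL 4 d e) (G : Matrix n n ℂ)
    (hG : ∀ i, i + 1 < 4 → (e i)ᴴ * G = G * e i) (w : List (Bool × ℕ)) (hw : ∀ x ∈ w, x.2 + 1 < 4) :
    (wo A e w)ᴴ * G * wo A e w = G := by
  induction w with
  | nil => simp [wo]
  | cons x w ih =>
    rw [wo_cons, Matrix.conjTranspose_mul]
    have h1 := letter_inv hA hd hTL G hG x (hw x List.mem_cons_self)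
    have h2 := ih (fun y hy => hw y (List.mem_cons_of_mem _ hy))
    calc (wo A e w)ᴴ * (lo A e x)ᴴ * G * (lo A e x * wo A e w)
        = (wo A e w)ᴴ * ((lo A e x)ᴴ * G * lo A e x) * wo A e w := by simp only [mul_assoc]
      _ = G := by rw [h1, h2]

theorem det_lo_X {B : ℂ} (hB : B ≠ 0) (i : ℕ) (hi : i + 1 < 4) :
    (sg B (EX (-B^2 - (B⁻¹)^2)) i).det = -B⁻¹ := by
  have : i = 0 ∨ i = 1 ∨ i = 2 := by omega
  rcases this with rfl | rfl | rfl <;>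
    · rw [Matrix.det_fin_three]
      simp [sg, EX]
      field_simp
      ring

theorem det_lo_Y {B : ℂ} (hB : B ≠ 0) (i : ℕ) (hi : i + 1 < 4) :
    (sg B (EY (-B^2 - (B⁻¹)^2)) i).det = -(B⁻¹)^2 := by
  have : i = 0 ∨ i = 1 ∨ i = 2 := by omega
  rcases this with rfl | rfl | rfl <;>
    · rw [Matrix.det_fin_two]
      simp [sg, EY]
      field_simp
      ring

theorem det_wo_X {A d : ℂ} (hA : A ≠ 0) (hd : d = -A^2 - (A⁻¹)^2) (w : List (Bool × ℕ))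
    (hw : ∀ x ∈ w, x.2 + 1 < 4) : (wo A (EX d) w).det = (-A⁻¹) ^ expo w := by
  have hA' : -A⁻¹ ≠ 0 := neg_ne_zero.2 (inv_ne_zero hA)
  induction w with
  | nil => simp [wo, expo]
  | cons x w ih =>
    rw [wo_cons, Matrix.det_mul, ih (fun y hy => hw y (List.mem_cons_of_mem _ hy)), expo_cons,
      zpow_add₀ hA', lo_eq]
    congr 1
    have hx := hw x List.mem_cons_self
    rcases sgn_cases x with h | h
    · rw [h, zpow_one, zpow_one, hd]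
      exact det_lo_X hA _ hx
    · rw [h, zpow_neg, zpow_one, zpow_neg, zpow_one]
      have h1 := det_lo_X (inv_ne_zero hA) _ hx
      have h2 : -A⁻¹ ^ 2 - A⁻¹⁻¹ ^ 2 = d := by rw [hd, inv_inv]; ring
      rw [h2] at h1
      rw [h1, inv_inv, inv_neg, inv_inv]

theorem det_wo_Y {A d : ℂ} (hA : A ≠ 0) (hd : d = -A^2 - (A⁻¹)^2) (w : List (Bool × ℕ))
    (hw : ∀ x ∈ w, x.2 + 1 < 4) : (wo A (EY d) w).det = (-(A⁻¹)^2) ^ expo w := by
  have hA' : -(A⁻¹)^2 ≠ 0 := neg_ne_zero.2 (pow_ne_zero 2 (inv_ne_zero hA))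
  induction w with
  | nil => simp [wo, expo]
  | cons x w ih =>
    rw [wo_cons, Matrix.det_mul, ih (fun y hy => hw y (List.mem_cons_of_mem _ hy)), expo_cons,
      zpow_add₀ hA', lo_eq]
    congr 1
    have hx := hw x List.mem_cons_self
    rcases sgn_cases x with h | h
    · rw [h, zpow_one, zpow_one, hd]
      exact det_lo_Y hA _ hx
    · rw [h, zpow_neg, zpow_one, zpow_neg, zpow_one]
      have h1 := det_lo_Y (inv_ne_zero hA) _ hx
      have h2 : -A⁻¹ ^ 2 - A⁻¹⁻¹ ^ 2 = d := by rw [hd, inv_inv]; ring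
      rw [h2] at h1
      rw [h1, inv_inv, inv_neg, inv_pow, inv_inv]

end Pool.Agent.D0H83.FB
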