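import Pool.Agent.D0H83.FB.Num0

/-!
# The numerical inequality
-/

set_option autoImplicit false

namespace Pool.Agent.D0H83.FB

theorem num_b0 (h S P Q a b : ℝ) (hh : 191/200 ≤ h) (hS0 : 0 ≤ S) (hS : S^2 = 3/4)
    (hP : P = 16*h^4 - 12*h^2 + 1)
    (hQ : Q = 4*h^2 - 1) (ha : a = -h + P/2) (hb : b = S*(P + 2*h) - 2) :
     0 < b^4 + 8*Q*S*b^3 + (2*a^2 + 12*Q*a + 18*Q^2)*b^2 - 24*Q*S*a^2*b + a^4 - 4*Q*a^3 +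
      18*Q^2*a^2 - 27*Q^4 := by
  obtain ⟨v, hv, hh'⟩ : ∃ v, 0 ≤ v ∧ h = 191/200 + v := ⟨h - 191/200, by linarith, by ring⟩
  have hS1 : S ≤ 4331/5000 := by
    by_contra hc
    push Not at hc
    nlinarith
  obtain ⟨w, hw⟩ : ∃ w, w = P + 2*h := ⟨_, rfl⟩
  obtain ⟨β, hβ⟩ : ∃ β, β = 2*a^2 + 12*Q*a + 18*Q^2 := ⟨_, rfl⟩
  obtain ⟨κ, hκ⟩ : ∃ κ, κ = a^4 - 4*Q*a^3 + 18*Q^2*a^2 - 27*Q^4 := ⟨_, rfl⟩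
  obtain ⟨g, hg, h1⟩ := num_G1 v h P Q a w β hv hh' hP hQ ha hw hβ
  have h2 := num_H v h P Q a w β κ hv hh' hP hQ ha hw hβ hκ
  have h3 : S * g ≤ (4331/5000) * g := mul_le_mul_of_nonneg_right hS1 hg
  have h4 : (S*w - 2)^4 + 8*Q*S*(S*w - 2)^3 + β*(S*w - 2)^2 - 24*Q*S*a^2*(S*w - 2) + κ =
      (16 + 4*β + κ) + (3/4)*(24*w^2 + 96*Q*w + β*w^2 - 24*Q*a^2*w) + (9/16)*(w^4 + 8*Q*w^3) +
      S*(-32*w - 64*Q - 4*β*w + 48*Q*a^2 + (3/4)*(-8*w^3 - 48*Q*w^2)) := by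
    linear_combination ((24*w^2 + 96*Q*w + β*w^2 - 24*Q*a^2*w) + S*(-8*w^3 - 48*Q*w^2) +
      (S^2 + 3/4)*(w^4 + 8*Q*w^3)) * hS
  have h5 : b^4 + 8*Q*S*b^3 + (2*a^2 + 12*Q*a + 18*Q^2)*b^2 - 24*Q*S*a^2*b + a^4 - 4*Q*a^3 +
      18*Q^2*a^2 - 27*Q^4 = (S*w - 2)^4 + 8*Q*S*(S*w - 2)^3 + β*(S*w - 2)^2 - 24*Q*S*a^2*(S*w - 2) + κ := by
    rw [hκ, hβ, hb, hw]; ring
  rw [h5, h4, h1]
  rw [h1] at h2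
  linarith

/-- The main numerical inequality. -/
theorem num (h S τ P Q a b : ℝ) (hh : 191/200 ≤ h) (hh1 : h ≤ 1) (hS0 : 0 ≤ S) (hS : S^2 = 3/4)
    (hτ : τ ≤ 1) (hP : P = 16*h^4 - 12*h^2 + 1)
    (hQ : Q = 4*h^2 - 1) (ha : a = -h + P/2) (hb : b = S*(P + 2*h) - 2*τ) :
     0 < b^4 + 8*Q*S*b^3 + (2*a^2 + 12*Q*a + 18*Q^2)*b^2 - 24*Q*S*a^2*b + a^4 - 4*Q*a^3 +
      18*Q^2*a^2 - 27*Q^4 := by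
  obtain ⟨b0, hb0'⟩ : ∃ b0, b0 = S*(P + 2*h) - 2 := ⟨_, rfl⟩
  have h1 := num_b0 h S P Q a b0 hh hS0 hS hP hQ ha hb0'
  have hh2 : (191/200)^2 ≤ h^2 := by gcongr
  have hh3 : h^2 ≤ 1 := by nlinarith
  have hSl : 433/500 ≤ S := by nlinarith
  have hPe : P = 16*(h^2)^2 - 12*h^2 + 1 := by rw [hP]; ring
  have hP1 : P ≤ 5 := by rw [hPe]; nlinarith
  have hP2 : 33/10 ≤ P := by rw [hPe]; nlinarith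
  have hQ1 : 26/10 ≤ Q := by rw [hQ]; nlinarith
  have ha1 : 0 ≤ a := by rw [ha]; linarith
  have ha2 : a ≤ 2 := by rw [ha]; linarith
  have hSu : S ≤ 1 := by nlinarith
  have hb0 : 2 ≤ b0 := by
    have : 433/500 * (33/10 + 2*(191/200)) ≤ S*(P + 2*h) := by
      apply mul_le_mul hSl (by linarith) (by norm_num) hS0
    rw [hb0']
    linarith
  obtain ⟨δ, hδ, hb'⟩ : ∃ δ, 0 ≤ δ ∧ b = b0 + δ := ⟨2*(1-τ), by linarith, by rw [hb, hb0']; ring⟩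
  have hQ0 : 0 < Q := by linarith
  have hb00 : 0 ≤ b0 := by linarith
  have h2 : (b0+δ)^4 + 8*Q*S*(b0+δ)^3 + (2*a^2 + 12*Q*a + 18*Q^2)*(b0+δ)^2 - 24*Q*S*a^2*(b0+δ) + a^4 - 4*Q*a^3 +
      18*Q^2*a^2 - 27*Q^4 = (b0^4 + 8*Q*S*b0^3 + (2*a^2 + 12*Q*a + 18*Q^2)*b0^2 - 24*Q*S*a^2*b0 + a^4 - 4*Q*a^3 +
      18*Q^2*a^2 - 27*Q^4) + δ*((2*b0+δ)*((b0+δ)^2+b0^2) + 8*Q*S*((b0+δ)^2+(b0+δ)*b0+b0^2) +
        (2*a^2+12*Q*a)*(2*b0+δ) + 18*Q^2*δ + (18*Q^2*(2*b0) - 24*Q*S*a^2)) := by ring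
  have h3 : 0 ≤ 18*Q^2*(2*b0) - 24*Q*S*a^2 := by
    have h4 : S*a^2 ≤ 4 := by
      have h40 : a^2 ≤ 4 := by nlinarith
      calc S*a^2 ≤ 1*4 := mul_le_mul hSu h40 (sq_nonneg a) (by norm_num)
        _ = 4 := by norm_num
    have h5 : 4 ≤ 2*b0 := by linarith
    have h8 : (26/10)*4 ≤ Q*(2*b0) := mul_le_mul hQ1 h5 (by norm_num) hQ0.le
    have h6 : 0 ≤ Q * (18*(Q*(2*b0)) - 24*(S*a^2)) := by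
      apply mul_nonneg hQ0.le
      linarith
    have h9 : 18*Q^2*(2*b0) - 24*Q*S*a^2 = Q * (18*(Q*(2*b0)) - 24*(S*a^2)) := by ring
    rw [h9]
    exact h6
  rw [hb', h2]
  have h7 : 0 ≤ δ*((2*b0+δ)*((b0+δ)^2+b0^2) + 8*Q*S*((b0+δ)^2+(b0+δ)*b0+b0^2) +
        (2*a^2+12*Q*a)*(2*b0+δ) + 18*Q^2*δ + (18*Q^2*(2*b0) - 24*Q*S*a^2)) := by
    apply mul_nonneg hδ
    have := hQ0.le
    apply add_nonneg _ h3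
    positivity
  linarith

end Pool.Agent.D0H83.FB
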