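import Pool.Agent.D0H83.FB.Form
import Pool.Agent.D0H83.FB.Num

/-!
# Closed braids on four strands with trivial normalised bracket: the exponent sum
-/

set_option autoImplicit false

namespace Pool.Agent.D0H83.FB

open Pool.Agent.H891R2.Jones Pool.Agent.TH561 Pool.Agent.W639.RB Complex Finset LaurentPolynomial

theorem writhe_eq (w : List (Bool × ℕ)) (hw : ∀ x ∈ w, x.2 + 1 < 4) :
    (draw (braidClosure 4) w).close.writhe = expo w := by
  rw [close_writhe, (draw_up w (braidClosure 4) hw (fun _ => rfl)).2]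
  have : owr (braidClosure 4) = 0 := rfl
  rw [this, zero_add]

/-- the value of the normalised bracket -/
theorem evc_fPoly (w : List (Bool × ℕ)) (hw : ∀ x ∈ w, x.2 + 1 < 4) (A : ℂ) (hA : A ≠ 0) :
    evc A hA (draw (braidClosure 4) w).close.fPoly =
      (if Even (expo w) then 1 else -1) * A ^ (-3 * expo w) *
        evc A hA (draw (braidClosure 4) w).close.bracket := by
  unfold Diagram.fPoly
  rw [map_mul, map_mul, evc_T, writhe_eq w hw]
  congr 2
  split_ifs <;> simp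

theorem evc_bracket (w : List (Bool × ℕ)) (hw : ∀ x ∈ w, x.2 + 1 < 4) (A : ℂ) (hA : A ≠ 0)
    (hf : evc A hA (draw (braidClosure 4) w).close.fPoly = 1) :
    evc A hA (draw (braidClosure 4) w).close.bracket =
      (if Even (expo w) then 1 else -1) * A ^ (3 * expo w) := by
  rw [evc_fPoly w hw A hA] at hf
  have h1 : A ^ (-3 * expo w) * A ^ (3 * expo w) = 1 := by
    rw [← zpow_add₀ hA]
    have : -3 * expo w + 3 * expo w = 0 := by ring
    rw [this, zpow_zero]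
  have h2 : (if Even (expo w) then (1:ℂ) else -1) * (if Even (expo w) then (1:ℂ) else -1) = 1 := by
    split_ifs <;> norm_num
  calc evc A hA (draw (braidClosure 4) w).close.bracket
      = ((if Even (expo w) then (1:ℂ) else -1) * (if Even (expo w) then (1:ℂ) else -1)) *
        (A ^ (-3 * expo w) * A ^ (3 * expo w)) *
        evc A hA (draw (braidClosure 4) w).close.bracket := by rw [h1, h2]; ring
    _ = (if Even (expo w) then (1:ℂ) else -1) * A ^ (3 * expo w) *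
        ((if Even (expo w) then 1 else -1) * A ^ (-3 * expo w) *
        evc A hA (draw (braidClosure 4) w).close.bracket) := by ring
    _ = _ := by rw [hf, mul_one]

/-- the exponent sum is odd -/
theorem expo_odd (w : List (Bool × ℕ)) (hw : ∀ x ∈ w, x.2 + 1 < 4)
    (hf : (draw (braidClosure 4) w).close.fPoly = 1) : Odd (expo w) := by
  rw [← Int.not_even_iff_odd]
  intro hev
  have h1 := bracket_states w hw 1 one_ne_zero
  have h2 := bracket_states w hw I I_ne_zero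
  rw [evc_bracket w hw 1 one_ne_zero (by rw [hf, map_one]), if_pos hev] at h1
  rw [evc_bracket w hw I I_ne_zero (by rw [hf, map_one]), if_pos hev] at h2
  have h3 : ∑ i : St w, I ^ wt i * (-I ^ 2 - (I⁻¹) ^ 2) ^ lam 4 (gw i) =
      I ^ expo w * ∑ i : St w, (1:ℂ) ^ wt i * (-1 ^ 2 - ((1:ℂ)⁻¹) ^ 2) ^ lam 4 (gw i) := by
    rw [Finset.mul_sum]
    refine Finset.sum_congr rfl fun i _ => ?_
    obtain ⟨k, hk⟩ := terms_mod w _ (List.getElem_mem i.2)
    have hk' : wt i + 2 * ((gw i).length : ℤ) = expo w + 4 * k := hk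
    obtain ⟨_, h4, _, h5, _⟩ := ess_ine (gw i) (gw_mem hw i)
    have h6 : lam 4 (gw i) % 2 = (gw i).length % 2 := by
      unfold lam
      omega
    have e1 : (-I ^ 2 - (I⁻¹) ^ 2 : ℂ) = 2 := by
      rw [inv_I, neg_sq, I_sq]; norm_num
    have e2 : (-1 ^ 2 - ((1:ℂ)⁻¹) ^ 2 : ℂ) = -1 * 2 := by norm_num
    rw [e1, e2, mul_pow, one_zpow, one_mul]
    have e3 : I ^ wt i = I ^ expo w * (-1) ^ lam 4 (gw i) := by
      have e4 : wt i = expo w + 4 * k + 2 * (-((gw i).length : ℤ)) := by linarith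
      rw [e4, zpow_add₀ I_ne_zero, zpow_add₀ I_ne_zero, zpow_mul, zpow_mul]
      have e5 : I ^ (4:ℤ) = 1 := by
        have : I ^ (4:ℤ) = I ^ (4:ℕ) := rfl
        rw [this, I_pow_four]
      have e6 : I ^ (2:ℤ) = -1 := by
        have : I ^ (2:ℤ) = I ^ (2:ℕ) := rfl
        rw [this, I_sq]
      rw [e5, e6, one_zpow, mul_one]
      congr 1
      rw [zpow_neg, zpow_natCast]
      rw [← Nat.mod_add_div (lam 4 (gw i)) 2, ← Nat.mod_add_div ((gw i).length) 2, h6, pow_add,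
        pow_add, pow_mul, pow_mul]
      simp only [neg_one_sq, one_pow, mul_one]
      rcases Nat.mod_two_eq_zero_or_one (gw i).length with h | h <;> rw [h] <;> norm_num
    rw [e3]
    ring
  rw [h3, ← h1] at h2
  have e1 : (-I ^ 2 - (I⁻¹) ^ 2 : ℂ) = 2 := by
    rw [inv_I, neg_sq, I_sq]; norm_num
  have e2 : (-1 ^ 2 - ((1:ℂ)⁻¹) ^ 2 : ℂ) = -2 := by norm_num
  rw [e1, e2, one_zpow, one_mul, one_mul, mul_one] at h2
  have h7 : I ^ (3 * expo w) = I ^ expo w := by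
    obtain ⟨t, ht⟩ := hev
    have : 3 * expo w = expo w + 4 * t := by omega
    rw [this, zpow_add₀ I_ne_zero, zpow_mul]
    have e5 : I ^ (4:ℤ) = 1 := by
      have : I ^ (4:ℤ) = I ^ (4:ℕ) := rfl
      rw [this, I_pow_four]
    rw [e5, one_zpow, mul_one]
  rw [h7] at h2
  have h8 : I ^ expo w ≠ 0 := zpow_ne_zero _ I_ne_zero
  have h9 : (4 : ℂ) * I ^ expo w = 0 := by linear_combination h2
  rcases mul_eq_zero.1 h9 with h | h
  · norm_num at h
  · exact h8 h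

/-- No closed braid on four strands with odd exponent sum `e`, `|e| ≥ 7`, has `f(A) = 1` at
`A = exp(-πi/(3e))`. -/
theorem value_ne (w : List (Bool × ℕ)) (hw : ∀ x ∈ w, x.2 + 1 < 4) (hodd : Odd (expo w))
    (h7 : 7 ≤ |expo w|) (A : ℂ) (hA0 : A ≠ 0)
    (hAe : A = Complex.exp (((-(Real.pi / (3 * (expo w : ℝ))) : ℝ) : ℂ) * I)) :
    evc A hA0 (draw (braidClosure 4) w).close.fPoly ≠ 1 := by
  intro hf
  have hbr := evc_bracket w hw A hA0 hf
  obtain ⟨e, he⟩ : ∃ e, e = expo w := ⟨_, rfl⟩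
  rw [← he] at hodd h7 hAe hbr
  rw [if_neg (Int.not_even_iff_odd.2 hodd)] at hbr
  have he0 : (e : ℝ) ≠ 0 := by
    have : e ≠ 0 := by
      rintro rfl
      simp at h7
    exact_mod_cast this
  have he7 : (49 : ℝ) ≤ (e : ℝ)^2 := by
    have h1 : (7 : ℝ) ≤ |(e : ℝ)| := by exact_mod_cast h7
    rw [← sq_abs]
    nlinarith
  obtain ⟨θ, hθ⟩ : ∃ θ : ℝ, θ = Real.pi / (3 * (e : ℝ)) := ⟨_, rfl⟩
  rw [← hθ] at hAe
  have hAn : ‖A‖ = 1 := by rw [hAe]; exact Complex.norm_exp_ofReal_mul_I _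
  -- the angle
  obtain ⟨h, hh⟩ : ∃ h, h = Real.cos (2 * θ) := ⟨_, rfl⟩
  have hh1 : h ≤ 1 := by rw [hh]; exact Real.cos_le_one _
  have hh0 : 191/200 ≤ h := by
    have h1 := Real.one_sub_sq_div_two_le_cos (x := 2 * θ)
    rw [← hh] at h1
    have h2 : (2*θ)^2 ≤ 9/100 := by
      have h3 : (2*θ)^2 = 4 * Real.pi^2 / (9 * (e:ℝ)^2) := by
        rw [hθ]; field_simp; ring
      rw [h3, div_le_iff₀ (by positivity)]
      have h4 := Real.pi_lt_d2
      have h5 := Real.pi_pos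
      have h6 : Real.pi^2 ≤ 3.15^2 := by
        apply pow_le_pow_left₀ h5.le h4.le
      nlinarith
    linarith
  have hd : -2*(h:ℂ) = -A^2 - (A⁻¹)^2 := by
    have h1 : A^2 = Complex.exp (-((2*θ : ℝ):ℂ) * I) := by
      rw [hAe, ← Complex.exp_nat_mul]; congr 1; push_cast; ring
    have h2 : (A⁻¹)^2 = Complex.exp (((2*θ : ℝ):ℂ) * I) := by
      rw [hAe, ← Complex.exp_neg, ← Complex.exp_nat_mul]; congr 1; push_cast; ring
    rw [h1, h2, hh, Complex.ofReal_cos, Complex.cos]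
    ring
  obtain ⟨S, hSe⟩ : ∃ S : ℝ, S = √3 / 2 := ⟨_, rfl⟩
  have hS0 : 0 ≤ S := by rw [hSe]; positivity
  have hS : S^2 = 3/4 := by
    rw [hSe, div_pow, Real.sq_sqrt (by norm_num)]; norm_num
  have hSC : (S:ℂ)^2 = 3/4 := by
    have := congrArg (fun x : ℝ => (x : ℂ)) hS
    simpa using this
  obtain ⟨ζ, hζ⟩ : ∃ ζ, ζ = A ^ e := ⟨_, rfl⟩
  have hζv : ζ = 1/2 - S * I := by
    rw [hζ, hAe, ← Complex.exp_int_mul]
    have h1 : (e:ℂ) * (((-θ : ℝ):ℂ) * I) = ((-(Real.pi/3) : ℝ):ℂ) * I := by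
      have : (e:ℝ) * (-θ) = -(Real.pi/3) := by
        rw [hθ]; field_simp
      rw [← this]; push_cast; ring
    rw [h1, Complex.exp_mul_I, ← Complex.ofReal_cos, ← Complex.ofReal_sin, Real.cos_neg, Real.sin_neg,
      Real.cos_pi_div_three, Real.sin_pi_div_three, ← hSe]
    push_cast
    ring
  have hζn : ‖ζ‖ = 1 := by rw [hζ, norm_zpow, hAn, one_zpow]
  have hζ0 : ζ ≠ 0 := ne_zero_of_norm_one hζn
  have hζ2 : ζ^2 = -1/2 - S * I := by
    rw [hζv]; linear_combination (I^2) * hSC + (3/4) * I_sq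
  have hζ3 : ζ^3 = -1 := by
    have : ζ^3 = ζ * ζ^2 := by ring
    rw [this, hζ2, hζv]; linear_combination (I^2) * hSC + (3/4) * I_sq
  -- the trace formula
  have htr := bracket_traces w hw A hA0 _ hd
  rw [hbr, ← he, ← hζ] at htr
  have h3e : A ^ (3 * e) = -1 := by rw [mul_comm, zpow_mul, ← hζ]; exact hζ3
  rw [h3e] at htr
  have h2h : 1 < 2*h^2 := by nlinarith
  have hpos : 0 < h := by linarith
  have hMX := word_inv hAn hd (isTL_EX _) (GX h) (selfadj_X h) w hw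
  have hMY := word_inv hAn hd (isTL_EY _) (GY h) (selfadj_Y h) w hw
  obtain ⟨a, b, c, ha, hb, hc, hX, hXd, -⟩ := three_roots (aniso_GX h hpos h2h) hMX
  obtain ⟨m, n, hm, hn, hY, hYd⟩ := two_roots (aniso_GY h hpos h2h) hMY
  rw [det_wo_X hA0 hd w hw, ← he, hodd.neg_zpow, inv_zpow, ← hζ] at hXd
  rw [det_wo_Y hA0 hd w hw, ← he, hodd.neg_zpow, ← zpow_natCast, ← zpow_mul, inv_zpow, mul_comm,
    zpow_mul, ← hζ] at hYd
  rw [hX, hY] at htr
  -- the two-dimensional part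
  have hmn : (ζ * m) * (ζ * n) = -1 := by
    have : (ζ * m) * (ζ * n) = ζ^2 * (m * n) := by ring
    rw [this, ← hYd]
    have h1 : ζ ^ ((2:ℕ):ℤ) = ζ^2 := by rw [zpow_natCast]
    rw [h1]
    field_simp
  have hum : ‖ζ * m‖ = 1 := by rw [norm_mul, hζn, hm, one_mul]
  have hu0 := ne_zero_of_norm_one hum
  have hun : ζ * n = -(starRingEnd ℂ) (ζ * m) := by
    have h1 := conj_of_norm_one hum
    have h2 : star (ζ * m) = (starRingEnd ℂ) (ζ * m) := rfl
    rw [← h2, h1]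
    apply mul_left_cancel₀ hu0
    rw [hmn, mul_neg, mul_inv_cancel₀ hu0]
  obtain ⟨τ, hτ⟩ : ∃ τ, τ = (ζ * m).im := ⟨_, rfl⟩
  have hτ1 : τ ≤ 1 := by
    rw [hτ, ← hum]
    exact (le_abs_self _).trans (Complex.abs_im_le_norm _)
  have hY2 : ζ * (m + n) = 2 * τ * I := by
    rw [mul_add, hun, ← sub_eq_add_neg, Complex.sub_conj, ← hτ]
    push_cast
    ring
  -- the three-dimensional part
  obtain ⟨z, hz⟩ : ∃ z, z = ζ * (a + b + c) := ⟨_, rfl⟩
  have hdisc := disc_ineq (ζ * a) (ζ * b) (ζ * c) (by rw [norm_mul, hζn, ha, one_mul])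
    (by rw [norm_mul, hζn, hb, one_mul]) (by rw [norm_mul, hζn, hc, one_mul])
  have hz' : ζ * a + ζ * b + ζ * c = z := by rw [hz]; ring
  have hprod : ζ * a * (ζ * b) * (ζ * c) = 1/2 + S * I := by
    have h1 : ζ * a * (ζ * b) * (ζ * c) = ζ^3 * (a * b * c) := by ring
    rw [h1, ← hXd]
    have h2 : ζ^3 * -ζ⁻¹ = -ζ^2 := by field_simp
    rw [h2, hζ2]; ring
  rw [hz', hprod] at hdisc
  obtain ⟨P, hP⟩ : ∃ P : ℝ, P = 16*h^4 - 12*h^2 + 1 := ⟨_, rfl⟩
  obtain ⟨Q, hQ⟩ : ∃ Q : ℝ, Q = 4*h^2 - 1 := ⟨_, rfl⟩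
  have hPC : (-2*(h:ℂ))^4 - 3*(-2*(h:ℂ))^2 + 1 = (P:ℂ) := by rw [hP]; push_cast; ring
  have hQC : (-2*(h:ℂ))^2 - 1 = (Q:ℂ) := by rw [hQ]; push_cast; ring
  rw [hPC, hQC] at htr
  have hrel : (Q:ℂ) * z = -2*h*ζ - P*ζ^2 - 2*τ*I := by
    rw [hz, ← hY2]
    linear_combination (-ζ) * htr
  rw [hζ2, hζv] at hrel
  obtain ⟨x, hx⟩ : ∃ x, x = z.re := ⟨_, rfl⟩
  obtain ⟨y, hy⟩ : ∃ y, y = z.im := ⟨_, rfl⟩
  have hzxy : z = x + y * I := by
    rw [hx, hy]; exact (Complex.re_add_im z).symm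
  have hQx : Q * x = -h + P/2 := by
    have := congrArg Complex.re hrel
    rw [hzxy] at this
    simp at this
    linarith
  have hQy : Q * y = S*(P + 2*h) - 2*τ := by
    have := congrArg Complex.im hrel
    rw [hzxy] at this
    simp at this
    linarith
  have hQpos : 0 < Q := by rw [hQ]; nlinarith
  have hnum := num h S τ P Q (Q * x) (Q * y) hh0 hh1 hS0 hS hτ1 hP hQ hQx hQy
  have hns : normSq z = x^2 + y^2 := by
    rw [hzxy, Complex.normSq_add_mul_I]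
  have hre : (z^3 * (starRingEnd ℂ) (1/2 + S * I)).re = (x^3 - 3*x*y^2)/2 + S*(3*x^2*y - y^3) := by
    have h1 : (starRingEnd ℂ) (1/2 + (S:ℂ) * I) = 1/2 - S * I := by
      rw [map_add, map_mul, Complex.conj_ofReal, Complex.conj_I, map_div₀, map_one, map_ofNat]
      ring
    have h2 : z^3 * (1/2 - S * I) = (((x^3 - 3*x*y^2)/2 + S*(3*x^2*y - y^3) : ℝ) : ℂ) +
        (((3*x^2*y - y^3)/2 - S*(x^3 - 3*x*y^2) : ℝ) : ℂ) * I := by
      rw [hzxy]
      push_cast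
      linear_combination ((3*(x:ℂ)*(y:ℂ)^2 + (y:ℂ)^3 * I)/2 - (S:ℂ)*(3*(x:ℂ)^2*(y:ℂ) + 3*(x:ℂ)*(y:ℂ)^2*I + (y:ℂ)^3*(I^2-1))) * I_sq
    rw [h1, h2, Complex.add_re, Complex.re_ofReal_mul, Complex.I_re, Complex.ofReal_re]
    ring
  rw [hns, hre] at hdisc
  have hfin : Q^4 * ((x^2+y^2)^2 - 8*((x^3 - 3*x*y^2)/2 + S*(3*x^2*y - y^3)) + 18*(x^2+y^2) - 27) ≤ 0 :=
    mul_nonpos_of_nonneg_of_nonpos (by positivity) hdisc
  have hfin2 : Q^4 * ((x^2+y^2)^2 - 8*((x^3 - 3*x*y^2)/2 + S*(3*x^2*y - y^3)) + 18*(x^2+y^2) - 27) =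
      (Q * y)^4 + 8*Q*S*(Q * y)^3 + (2*(Q * x)^2 + 12*Q*(Q * x) + 18*Q^2)*(Q * y)^2 -
        24*Q*S*(Q * x)^2*(Q * y) + (Q * x)^4 - 4*Q*(Q * x)^3 + 18*Q^2*(Q * x)^2 - 27*Q^4 := by ring
  rw [hfin2] at hfin
  linarith

theorem abs_le_five (w : List (Bool × ℕ)) (hw : ∀ x ∈ w, x.2 + 1 < 4)
    (hf : (draw (braidClosure 4) w).close.fPoly = 1) : |expo w| ≤ 5 := by
  have hodd := expo_odd w hw hf
  by_contra hcon
  push Not at hcon
  have h7 : 7 ≤ |expo w| := by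
    have h1 : Odd |expo w| := by
      rcases abs_choice (expo w) with h | h <;> rw [h]
      · exact hodd
      · exact hodd.neg
    obtain ⟨k, hk⟩ := h1
    omega
  exact value_ne w hw hodd h7 _ (Complex.exp_ne_zero _) rfl (by rw [hf, map_one])

end Pool.Agent.D0H83.FB
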