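import Pool.Agent.D0H83.FB.Lim1
import Pool.Agent.D0H83.FB.Main

/-!
# Inserting braids on four strands into a fixed braid: the exponent sum is bounded
-/

set_option autoImplicit false

namespace Pool.Agent.D0H83.FB

open Pool.Agent.H891R2.Jones Pool.Agent.TH561 Pool.Agent.W639.RB Complex Finset Filter Topology

theorem writhe_eq' {m : ℕ} (w : List (Bool × ℕ)) (hw : ∀ x ∈ w, x.2 + 1 < m) :
    (draw (braidClosure m) w).close.writhe = expo w := by
  rw [close_writhe, (draw_up w (braidClosure m) hw (fun _ => rfl)).2]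
  have : owr (braidClosure m) = 0 := rfl
  rw [this, zero_add]

/-- the value of the bracket -/
theorem evc_bracket' {m : ℕ} (w : List (Bool × ℕ)) (hw : ∀ x ∈ w, x.2 + 1 < m) (A : ℂ) (hA : A ≠ 0) :
    evc A hA (draw (braidClosure m) w).close.bracket =
      (if Even (expo w) then 1 else -1) * A ^ (3 * expo w) *
        evc A hA (draw (braidClosure m) w).close.fPoly := by
  unfold Diagram.fPoly
  rw [map_mul, map_mul, evc_T, writhe_eq' w hw]
  have h1 : A ^ (3 * expo w) * A ^ (-3 * expo w) = 1 := by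
    rw [← zpow_add₀ hA]
    have : 3 * expo w + -3 * expo w = 0 := by ring
    rw [this, zpow_zero]
  split_ifs with h
  · rw [map_one, one_mul, one_mul, ← mul_assoc, h1, one_mul]
  · rw [map_neg, map_one]
    linear_combination (-evc A hA (draw (braidClosure m) w).close.bracket) * h1

theorem limit_fact (m : ℕ) (hm : 4 ≤ m) (U : List (Bool × ℕ)) (hU : ∀ x ∈ U, x.2 + 1 < m)
    (p : List (Bool × ℕ)) (hp : ∀ x ∈ p, x.2 + 1 < 4) (κ : ℂ) (hκ : κ ≠ 0)
    (hFn : ∀ j, Fn m U 1 (-2) j = κ * Fn 4 p 1 (-2) j) (g : LaurentPolynomial ℤ)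
    (w : ℕ → List (Bool × ℕ)) (hw : ∀ n, ∀ x ∈ w n, x.2 + 1 < 4)
    (hf : ∀ n, (draw (braidClosure m) (U ++ w n)).close.fPoly = g)
    (hE : ∀ n : ℕ, (n : ℤ) < |expo (w n)|) (t : ℂ)
    (hone : ∀ n, -2 * ((if Even (expo (U ++ w n)) then 1 else -1) * evc 1 one_ne_zero g) = κ * t)
    (ψ : ℝ) (ζ : ℂ) (hζ : ζ = Complex.exp (((-ψ : ℝ) : ℂ) * I)) :
    ∃ (A : ℕ → ℂ) (h : ℕ → ℝ), (∀ n, ‖A n‖ = 1) ∧ (∀ᶠ n in atTop, 9/10 ≤ h n) ∧
      (∀ n, -2 * (h n : ℂ) = -(A n)^2 - ((A n)⁻¹)^2) ∧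
      (∀ᶠ n in atTop, (A n) ^ expo (p ++ w n) = ζ) ∧
      Tendsto (fun n => 3 * (ζ * Matrix.trace (wo (A n) (EX (-2*(h n:ℂ))) (p ++ w n))) +
        ζ * Matrix.trace (wo (A n) (EY (-2*(h n:ℂ))) (p ++ w n))) atTop
        (𝓝 (t * ζ^4 - 5 * ζ^2)) := by
  have hvm : ∀ n, ∀ x ∈ p ++ w n, x.2 + 1 < 4 := by
    intro n x hx
    rcases List.mem_append.1 hx with h1 | h1
    · exact hp x h1
    · exact hw n x h1
  have hUm : ∀ n, ∀ x ∈ U ++ w n, x.2 + 1 < m := by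
    intro n x hx
    rcases List.mem_append.1 hx with h1 | h1
    · exact hU x h1
    · have := hw n x h1; omega
  obtain ⟨e, he⟩ : ∃ e : ℕ → ℤ, e = fun n => expo (p ++ w n) := ⟨_, rfl⟩
  have hen : ∀ n, expo (p ++ w n) = e n := fun n => by rw [he]
  obtain ⟨c, hc⟩ : ∃ c : ℤ, c = expo U - expo p := ⟨_, rfl⟩
  have hcn : ∀ n, expo (U ++ w n) = e n + c := by
    intro n
    rw [← hen, hc, expo_append, expo_append]
    ring
  obtain ⟨θ, hθ⟩ : ∃ θ : ℕ → ℝ, θ = fun n => ψ / (e n : ℝ) := ⟨_, rfl⟩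
  obtain ⟨A, hAd⟩ : ∃ A : ℕ → ℂ, A = fun n => Complex.exp (((-θ n : ℝ) : ℂ) * I) := ⟨_, rfl⟩
  obtain ⟨h, hh⟩ : ∃ h : ℕ → ℝ, h = fun n => Real.cos (2 * θ n) := ⟨_, rfl⟩
  have hAn : ∀ n, ‖A n‖ = 1 := fun n => by rw [hAd]; exact Complex.norm_exp_ofReal_mul_I _
  have hA0 : ∀ n, A n ≠ 0 := fun n => ne_zero_of_norm_one (hAn n)
  have hd : ∀ n, -2*(h n:ℂ) = -(A n)^2 - ((A n)⁻¹)^2 := by
    intro n
    have h1 : (A n)^2 = Complex.exp (-((2*θ n : ℝ):ℂ) * I) := by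
      rw [hAd]
      show (Complex.exp (((-θ n : ℝ) : ℂ) * I))^2 = _
      rw [← Complex.exp_nat_mul]; congr 1; push_cast; ring
    have h2 : ((A n)⁻¹)^2 = Complex.exp (((2*θ n : ℝ):ℂ) * I) := by
      rw [hAd]
      show ((Complex.exp (((-θ n : ℝ) : ℂ) * I))⁻¹)^2 = _
      rw [← Complex.exp_neg, ← Complex.exp_nat_mul]; congr 1; push_cast; ring
    rw [h1, h2, hh]
    show -2 * ((Real.cos (2 * θ n) : ℝ) : ℂ) = _
    rw [Complex.ofReal_cos, Complex.cos]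
    ring
  -- limits
  have hT1 : Tendsto (fun n => |(e n : ℝ)|) atTop atTop := by
    refine tendsto_atTop_mono (f := fun n : ℕ => (n : ℝ) + (-|(expo p : ℝ)|)) ?_
      (tendsto_atTop_add_const_right _ _ tendsto_natCast_atTop_atTop)
    intro n
    have h1 : (e n : ℝ) = expo p + expo (w n) := by
      rw [← hen, expo_append]; push_cast; ring
    have h2 : (n : ℝ) < |(expo (w n) : ℝ)| := by exact_mod_cast hE n
    have h3 : |(expo (w n) : ℝ)| ≤ |(e n : ℝ)| + |(expo p : ℝ)| := by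
      have : (expo (w n) : ℝ) = e n - expo p := by rw [h1]; ring
      rw [this]
      exact abs_sub _ _
    show (n : ℝ) + (-|(expo p : ℝ)|) ≤ |(e n : ℝ)|
    linarith
  have hθ0 : Tendsto θ atTop (𝓝 0) := by
    rw [tendsto_zero_iff_abs_tendsto_zero]
    have h1 : abs ∘ θ = fun n => |ψ| / |(e n : ℝ)| := by
      funext n
      rw [hθ]
      exact abs_div _ _
    rw [h1]
    exact hT1.const_div_atTop _
  have hAlim : Tendsto A atTop (𝓝 1) := by
    have h1 : Tendsto (fun n => Complex.exp (((-θ n : ℝ) : ℂ) * I)) atTop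
        (𝓝 (Complex.exp (((-0 : ℝ) : ℂ) * I))) := by
      apply (Complex.continuous_exp.tendsto _).comp
      apply Tendsto.mul_const
      exact (Complex.continuous_ofReal.tendsto _).comp hθ0.neg
    rw [hAd]
    simpa using h1
  have hhlim : Tendsto h atTop (𝓝 1) := by
    have h1 : Tendsto (fun n => Real.cos (2 * θ n)) atTop (𝓝 (Real.cos (2 * 0))) :=
      (Real.continuous_cos.tendsto _).comp (hθ0.const_mul 2)
    rw [hh]
    simpa using h1
  have hh1 : ∀ n, h n ≤ 1 := fun n => by rw [hh]; exact Real.cos_le_one _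
  have hh9 : ∀ᶠ n in atTop, 9/10 ≤ h n := by
    filter_upwards [hhlim.eventually (lt_mem_nhds (show (9/10 : ℝ) < 1 by norm_num))] with n hn
    exact hn.le
  have hζA : ∀ᶠ n in atTop, (A n) ^ expo (p ++ w n) = ζ := by
    filter_upwards [hT1.eventually (eventually_gt_atTop 0)] with n hn
    have hne : (e n : ℝ) ≠ 0 := abs_pos.1 hn
    rw [hen, hAd, hζ]
    show (Complex.exp (((-θ n : ℝ) : ℂ) * I)) ^ (e n) = _
    rw [← Complex.exp_int_mul]
    congr 1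
    have h1 : (e n : ℝ) * (-θ n) = -ψ := by
      rw [hθ]
      show (e n : ℝ) * (-(ψ / (e n : ℝ))) = -ψ
      field_simp
    rw [← h1]
    push_cast
    ring
  obtain ⟨d, hdd⟩ : ∃ d : ℕ → ℂ, d = fun n => -2*(h n:ℂ) := ⟨_, rfl⟩
  have hdn : ∀ n, -2*(h n:ℂ) = d n := fun n => by rw [hdd]
  have hdlim : Tendsto d atTop (𝓝 (-2)) := by
    have h1 : Tendsto (fun n => -2*(h n:ℂ)) atTop (𝓝 (-2 * ((1:ℝ):ℂ))) :=
      ((Complex.continuous_ofReal.tendsto _).comp hhlim).const_mul (-2)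
    rw [hdd]
    simpa using h1
  refine ⟨A, h, hAn, hh9, hd, hζA, ?_⟩
  simp only [hdn] at hd ⊢
  obtain ⟨X, hX⟩ : ∃ X : ℕ → ℂ, X = fun n => Matrix.trace (wo (A n) (EX (d n)) (p ++ w n)) :=
    ⟨_, rfl⟩
  obtain ⟨Y, hY⟩ : ∃ Y : ℕ → ℂ, Y = fun n => Matrix.trace (wo (A n) (EY (d n)) (p ++ w n)) :=
    ⟨_, rfl⟩
  have hXn : ∀ n, Matrix.trace (wo (A n) (EX (d n)) (p ++ w n)) = X n := fun n => by rw [hX]
  have hYn : ∀ n, Matrix.trace (wo (A n) (EY (d n)) (p ++ w n)) = Y n := fun n => by rw [hY]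
  simp only [hXn, hYn]
  -- the two state sums
  have hS4 : ∀ n, ∑ j, kap (A n) (d n) (w n) j * Fn 4 p (A n) (d n) j =
      ((d n)^4 - 3*(d n)^2 + 1) * (A n) ^ (e n) + ((d n)^2 - 1) * X n + Y n := by
    intro n
    rw [← functional le_rfl p (w n) hp (hw n) (hA0 n) (d n), ← hXn, ← hYn, ← hen,
      ← bracket_traces (p ++ w n) (hvm n) (A n) (hA0 n) (d n) (hd n), hd n]
    exact (bracket_states' (by norm_num) (p ++ w n) (hvm n) (A n) (hA0 n)).symm
  have hSm : ∀ n, ∑ j, kap (A n) (d n) (w n) j * Fn m U (A n) (d n) j =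
      d n * ((if Even (expo (U ++ w n)) then 1 else -1) * (A n) ^ (3 * expo (U ++ w n)) *
        evc (A n) (hA0 n) g) := by
    intro n
    rw [← functional hm U (w n) hU (hw n) (hA0 n) (d n), ← hf n,
      ← evc_bracket' (U ++ w n) (hUm n) (A n) (hA0 n), hd n]
    exact (bracket_states' (by omega) (U ++ w n) (hUm n) (A n) (hA0 n)).symm
  -- comparison
  have hcomp : Tendsto (fun n => ∑ j, kap (A n) (d n) (w n) j *
      (Fn m U (A n) (d n) j - κ * Fn 4 p (A n) (d n) j)) atTop (𝓝 0) := by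
    rw [← Finset.sum_const_zero (s := (Finset.univ : Finset (Fin 14)))]
    refine tendsto_finset_sum _ fun j _ => ?_
    have h1 : Tendsto (fun n => 40 * ‖Fn m U (A n) (d n) j - κ * Fn 4 p (A n) (d n) j‖) atTop
        (𝓝 0) := by
      have h2 : Tendsto (fun n => Fn m U (A n) (d n) j - κ * Fn 4 p (A n) (d n) j) atTop
          (𝓝 (Fn m U 1 (-2) j - κ * Fn 4 p 1 (-2) j)) :=
        (Fn_tendsto m U j hAlim hdlim).sub ((Fn_tendsto 4 p j hAlim hdlim).const_mul κ)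
      rw [hFn, sub_self] at h2
      simpa using (h2.norm).const_mul 40
    refine squeeze_zero_norm' ?_ h1
    filter_upwards [hh9] with n hn
    rw [norm_mul]
    gcongr
    have h3 := kap_bound (hAn n) (h n) hn (hh1 n) (by rw [hdn, hd n]) (w n) (hw n) j
    rw [hdn] at h3
    exact h3
  have hlim1 : Tendsto (fun n => d n * ((A n) ^ (3 * c) * evc (A n) (hA0 n) g) +
      2 * evc 1 one_ne_zero g) atTop (𝓝 0) := by
    have h1 : Tendsto (fun n => d n * ((A n) ^ (3 * c) * evc (A n) (hA0 n) g) +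
      2 * evc 1 one_ne_zero g) atTop (𝓝 ((-2) * (1 ^ (3 * c) * evc 1 one_ne_zero g) +
        2 * evc 1 one_ne_zero g)) :=
      (hdlim.mul ((hAlim.zpow₀ _ (Or.inl one_ne_zero)).mul (evc_tendsto g A hA0 hAlim))).add_const _
    rw [one_zpow, one_mul] at h1
    have h2 : (-2) * evc 1 one_ne_zero g + 2 * evc 1 one_ne_zero g = 0 := by ring
    rw [h2] at h1
    exact h1
  have hζn : ‖ζ‖ = 1 := by rw [hζ]; exact Complex.norm_exp_ofReal_mul_I _
  have hζ0 : ζ ≠ 0 := ne_zero_of_norm_one hζn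
  have hlim2 : Tendsto (fun n => ∑ j, kap (A n) (d n) (w n) j * Fn m U (A n) (d n) j -
      κ * t * ζ^3) atTop (𝓝 0) := by
    refine squeeze_zero_norm' ?_ (by simpa using hlim1.norm)
    filter_upwards [hζA] with n hn
    rw [hSm n, ← hone n, hcn n]
    have h1 : (A n) ^ (3 * (e n + c)) = ζ^3 * (A n) ^ (3 * c) := by
      rw [mul_add, zpow_add₀ (hA0 n), ← hn, hen, mul_comm 3 (e n), zpow_mul]
      rfl
    have h2 : ∀ s : ℂ, d n * (s * (A n) ^ (3 * (e n + c)) * evc (A n) (hA0 n) g) -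
        -2 * (s * evc 1 one_ne_zero g) * ζ^3 = s * ζ^3 *
        (d n * ((A n) ^ (3 * c) * evc (A n) (hA0 n) g) + 2 * evc 1 one_ne_zero g) := by
      intro s
      rw [h1]; ring
    rw [h2, norm_mul, norm_mul, norm_pow, hζn]
    have h3 : ‖(if Even (e n + c) then (1:ℂ) else -1)‖ = 1 := by
      split_ifs <;> simp
    rw [h3]
    simp
  have hlim3 : Tendsto (fun n => ((d n)^4 - 3*(d n)^2 + 1) * (A n) ^ (e n) + ((d n)^2 - 1) * X n +
      Y n) atTop (𝓝 (t * ζ^3)) := by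
    have h1 := (hlim2.sub hcomp).const_mul (κ⁻¹)
    have h2 : ∀ n, κ⁻¹ * ((∑ j, kap (A n) (d n) (w n) j * Fn m U (A n) (d n) j - κ * t * ζ^3) -
        ∑ j, kap (A n) (d n) (w n) j * (Fn m U (A n) (d n) j - κ * Fn 4 p (A n) (d n) j)) +
        t * ζ^3 = ((d n)^4 - 3*(d n)^2 + 1) * (A n) ^ (e n) + ((d n)^2 - 1) * X n + Y n := by
      intro n
      rw [← hS4 n]
      simp only [mul_sub, Finset.sum_sub_distrib]
      have h3 : ∑ j, kap (A n) (d n) (w n) j * (κ * Fn 4 p (A n) (d n) j) =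
          κ * ∑ j, kap (A n) (d n) (w n) j * Fn 4 p (A n) (d n) j := by
        rw [Finset.mul_sum]
        refine Finset.sum_congr rfl fun j _ => by ring
      rw [h3]
      field_simp
      ring
    have h4 := h1.add_const (t * ζ^3)
    simp only [h2] at h4
    simpa using h4
  -- the final form
  have hXb : ∀ᶠ n in atTop, ‖X n‖ ≤ 3 := by
    filter_upwards [hh9] with n hn
    have h1 := (at_A (hAn n) (h n) hn (by rw [hdn, hd n]) (p ++ w n) (hvm n)).1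
    rw [norm_mul, norm_zpow, hAn, one_zpow, one_mul, hdn, hXn] at h1
    exact h1
  have hlim4 : Tendsto (fun n => ((d n)^2 - 4) * X n) atTop (𝓝 0) := by
    have h1 : Tendsto (fun n => ‖(d n)^2 - 4‖ * 3) atTop (𝓝 0) := by
      have h2 : Tendsto (fun n => (d n)^2 - 4) atTop (𝓝 ((-2)^2 - 4)) := (hdlim.pow 2).sub_const 4
      have h3 : ((-2 : ℂ)^2 - 4) = 0 := by norm_num
      rw [h3] at h2
      simpa using (h2.norm).mul_const 3
    refine squeeze_zero_norm' ?_ h1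
    filter_upwards [hXb] with n hn
    rw [norm_mul]
    gcongr
  have hlim5 : Tendsto (fun n => ζ * (((d n)^4 - 3*(d n)^2 + 1) * (A n) ^ (e n) +
      ((d n)^2 - 1) * X n + Y n) - ζ * (((d n)^4 - 3*(d n)^2 + 1) * ζ) -
      ζ * (((d n)^2 - 4) * X n)) atTop (𝓝 (ζ * (t * ζ^3) - ζ * (((-2)^4 - 3*(-2)^2 + 1) * ζ) -
        ζ * 0)) := by
    refine ((hlim3.const_mul ζ).sub ?_).sub (hlim4.const_mul ζ)
    apply Tendsto.const_mul
    apply Tendsto.mul_const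
    exact ((hdlim.pow 4).sub ((hdlim.pow 2).const_mul 3)).add_const 1
  have h6 : ζ * (t * ζ^3) - ζ * (((-2)^4 - 3*(-2)^2 + 1) * ζ) - ζ * 0 = t * ζ^4 - 5 * ζ^2 := by
    ring
  rw [h6] at hlim5
  refine hlim5.congr' ?_
  filter_upwards [hζA] with n hn
  rw [hen] at hn
  rw [hn]
  ring

/-- the main theorem for words -/
theorem bounded (m : ℕ) (hm : 4 ≤ m) (U : List (Bool × ℕ)) (hU : ∀ x ∈ U, x.2 + 1 < m)
    (g : LaurentPolynomial ℤ) : ∃ E : ℤ, ∀ w : List (Bool × ℕ), (∀ x ∈ w, x.2 + 1 < 4) →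
      (draw (braidClosure m) (U ++ w)).close.fPoly = g → |expo w| ≤ E := by
  by_contra hcon
  push Not at hcon
  obtain ⟨k, p, hp, hfix, hFn⟩ := Fn_one_four m hm U hU
  choose w hw hf hE using fun n : ℕ => hcon (n : ℤ)
  have hvm : ∀ n, ∀ x ∈ p ++ w n, x.2 + 1 < 4 := by
    intro n x hx
    rcases List.mem_append.1 hx with h1 | h1
    · exact hp x h1
    · exact hw n x h1
  have hUm : ∀ n, ∀ x ∈ U ++ w n, x.2 + 1 < m := by
    intro n x hx
    rcases List.mem_append.1 hx with h1 | h1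
    · exact hU x h1
    · have := hw n x h1; omega
  obtain ⟨κ, hκd⟩ : ∃ κ : ℂ, κ = (-1)^m * 2^k := ⟨_, rfl⟩
  have hκ : κ ≠ 0 := by
    rw [hκd]
    exact mul_ne_zero (pow_ne_zero _ (by norm_num)) (pow_ne_zero _ (by norm_num))
  simp only [← hκd] at hFn
  have hone : ∀ n, -2 * ((if Even (expo (U ++ w n)) then 1 else -1) * evc 1 one_ne_zero g) =
      κ * (fix2 (permL 4 (p ++ w n)) : ℂ) := by
    intro n
    have h1 := bracket_states' (m := m) (by omega) (U ++ w n) (hUm n) 1 one_ne_zero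
    rw [evc_bracket' (U ++ w n) (hUm n) 1 one_ne_zero, hf n, one_zpow, mul_one] at h1
    have h2 : (-1 ^ 2 - ((1:ℂ)⁻¹) ^ 2 : ℂ) = -2 := by norm_num
    rw [h2, states_one (by omega) (U ++ w n) (hUm n), hfix (w n) (hw n)] at h1
    rw [h1, hκd]
    push_cast
    ring
  have ht : ∀ n, fix2 (permL 4 (p ++ w n)) = fix2 (permL 4 (p ++ w 0)) := by
    intro n
    have h1 : ∀ n, 2 * ‖evc 1 one_ne_zero g‖ = ‖κ‖ * (fix2 (permL 4 (p ++ w n)) : ℝ) := by
      intro n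
      have h2 := congrArg norm (hone n)
      rw [norm_mul, norm_mul, norm_mul, Complex.norm_natCast] at h2
      have h3 : ‖(if Even (expo (U ++ w n)) then (1:ℂ) else -1)‖ = 1 := by
        split_ifs <;> simp
      rw [h3, one_mul] at h2
      simpa using h2
    have h2 := (h1 n).symm.trans (h1 0)
    have h3 := mul_left_cancel₀ (norm_ne_zero_iff.2 hκ) h2
    exact_mod_cast h3
  obtain ⟨t, htd⟩ : ∃ t, t = fix2 (permL 4 (p ++ w 0)) := ⟨_, rfl⟩
  rw [← htd] at ht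
  have hone' : ∀ n, -2 * ((if Even (expo (U ++ w n)) then 1 else -1) * evc 1 one_ne_zero g) =
      κ * (t : ℂ) := by
    intro n
    rw [hone n, ht n]
  have hpar : ∀ n, (Odd (expo (p ++ w n)) ∧ (t = 2 ∨ t = 8)) ∨
      (Even (expo (p ++ w n)) ∧ (t = 4 ∨ t = 16)) := by
    intro n
    have := parity_fix2 (p ++ w n) (hvm n)
    rwa [ht n] at this
  have hdscC : ∀ δ : ℂ, IsClosed {z : ℂ | ‖z‖ ≤ 3 ∧ dsc z δ ≤ 0} := by
    intro δ
    have h1 : {z : ℂ | ‖z‖ ≤ 3 ∧ dsc z δ ≤ 0} = {z : ℂ | ‖z‖ ≤ 3} ∩ {z : ℂ | dsc z δ ≤ 0} := rfl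
    have h2 : Continuous (fun z : ℂ => dsc z δ) := by
      unfold dsc
      have := Complex.continuous_normSq
      have := Complex.continuous_re
      fun_prop
    rw [h1]
    exact (isClosed_le continuous_norm continuous_const).inter (isClosed_le h2 continuous_const)
  -- the two kinds of limits
  have hodd : (t = 2 ∨ t = 8) → ∀ (ψ : ℝ) (ζ : ℂ), ζ = Complex.exp (((-ψ : ℝ) : ℂ) * I) →
      ∃ τ : ℝ, |τ| ≤ 1 ∧ ‖(t * ζ^4 - 5 * ζ^2 - 2 * I * τ) / 3‖ ≤ 3 ∧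
        dsc ((t * ζ^4 - 5 * ζ^2 - 2 * I * τ) / 3) (-ζ^2) ≤ 0 := by
    intro ht2 ψ ζ hζ
    have ho : ∀ n, Odd (expo (p ++ w n)) := by
      intro n
      rcases hpar n with h | h
      · exact h.1
      · exfalso
        rcases ht2 with h2 | h2 <;> rw [h2] at h <;> omega
    obtain ⟨A, h, hAn, hh9, hd, hζA, hlim⟩ := limit_fact m hm U hU p hp κ hκ hFn g w hw hf hE
      (t : ℂ) hone' ψ ζ hζ
    have key : ∀ n, ∃ τ : ℝ, (9/10 ≤ h n → |τ| ≤ 1) ∧ (9/10 ≤ h n → (A n) ^ expo (p ++ w n) = ζ →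
        ζ * Matrix.trace (wo (A n) (EY (-2*(h n:ℂ))) (p ++ w n)) = 2 * I * τ) := by
      intro n
      by_cases hn : 9/10 ≤ h n
      · obtain ⟨-, -, h3⟩ := at_A (hAn n) (h n) hn (hd n) (p ++ w n) (hvm n)
        obtain ⟨-, τ, h4, h5⟩ := h3 (ho n)
        exact ⟨τ, fun _ => h4, fun _ h6 => by rw [← h6]; exact h5⟩
      · exact ⟨0, fun h => absurd h hn, fun h => absurd h hn⟩
    choose τ hτ1 hτ2 using key
    obtain ⟨τ0, h1, h2⟩ := limit_lemma {z : ℂ | ‖z‖ ≤ 3 ∧ dsc z (-ζ^2) ≤ 0} (hdscC _)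
      (fun n => ζ * Matrix.trace (wo (A n) (EX (-2*(h n:ℂ))) (p ++ w n))) (by
        filter_upwards [hh9, hζA] with n hn hn2
        obtain ⟨h2, -, h3⟩ := at_A (hAn n) (h n) hn (hd n) (p ++ w n) (hvm n)
        rw [hn2] at h2 h3
        exact ⟨h2, (h3 (ho n)).1⟩)
      τ (by filter_upwards [hh9] with n hn using hτ1 n hn) (t * ζ^4 - 5 * ζ^2) (2 * I) (by
        refine hlim.congr' ?_
        filter_upwards [hh9, hζA] with n hn hn2
        rw [hτ2 n hn hn2])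
    exact ⟨τ0, h1, h2.1, h2.2⟩
  have heven : (t = 4 ∨ t = 16) → ∀ (ψ : ℝ) (ζ : ℂ), ζ = Complex.exp (((-ψ : ℝ) : ℂ) * I) →
      ∃ τ : ℝ, |τ| ≤ 1 ∧ ‖(t * ζ^4 - 5 * ζ^2 - 2 * τ) / 3‖ ≤ 3 ∧
        dsc ((t * ζ^4 - 5 * ζ^2 - 2 * τ) / 3) (ζ^2) ≤ 0 := by
    intro ht2 ψ ζ hζ
    have ho : ∀ n, Even (expo (p ++ w n)) := by
      intro n
      rcases hpar n with h | h
      · exfalso
        rcases ht2 with h2 | h2 <;> rw [h2] at h <;> omega
      · exact h.1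
    obtain ⟨A, h, hAn, hh9, hd, hζA, hlim⟩ := limit_fact m hm U hU p hp κ hκ hFn g w hw hf hE
      (t : ℂ) hone' ψ ζ hζ
    have key : ∀ n, ∃ τ : ℝ, (9/10 ≤ h n → |τ| ≤ 1) ∧ (9/10 ≤ h n → (A n) ^ expo (p ++ w n) = ζ →
        ζ * Matrix.trace (wo (A n) (EY (-2*(h n:ℂ))) (p ++ w n)) = 2 * τ) := by
      intro n
      by_cases hn : 9/10 ≤ h n
      · obtain ⟨-, h3, -⟩ := at_A (hAn n) (h n) hn (hd n) (p ++ w n) (hvm n)
        obtain ⟨-, τ, h4, h5⟩ := h3 (ho n)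
        exact ⟨τ, fun _ => h4, fun _ h6 => by rw [← h6]; exact h5⟩
      · exact ⟨0, fun h => absurd h hn, fun h => absurd h hn⟩
    choose τ hτ1 hτ2 using key
    obtain ⟨τ0, h1, h2⟩ := limit_lemma {z : ℂ | ‖z‖ ≤ 3 ∧ dsc z (ζ^2) ≤ 0} (hdscC _)
      (fun n => ζ * Matrix.trace (wo (A n) (EX (-2*(h n:ℂ))) (p ++ w n))) (by
        filter_upwards [hh9, hζA] with n hn hn2
        obtain ⟨h2, h3, -⟩ := at_A (hAn n) (h n) hn (hd n) (p ++ w n) (hvm n)
        rw [hn2] at h2 h3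
        exact ⟨h2, (h3 (ho n)).1⟩)
      τ (by filter_upwards [hh9] with n hn using hτ1 n hn) (t * ζ^4 - 5 * ζ^2) 2 (by
        refine hlim.congr' ?_
        filter_upwards [hh9, hζA] with n hn hn2
        rw [hτ2 n hn hn2])
    exact ⟨τ0, h1, h2.1, h2.2⟩
  have hI : -I = Complex.exp (((-(Real.pi/2) : ℝ) : ℂ) * I) := by
    rw [Complex.exp_mul_I, ← Complex.ofReal_cos, ← Complex.ofReal_sin, Real.cos_neg, Real.sin_neg,
      Real.cos_pi_div_two, Real.sin_pi_div_two]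
    push_cast
    ring
  have hcases : t = 2 ∨ t = 8 ∨ t = 4 ∨ t = 16 := by
    rcases hpar 0 with h | h
    · rcases h.2 with h | h
      · exact Or.inl h
      · exact Or.inr (Or.inl h)
    · exact Or.inr (Or.inr h.2)
  rcases hcases with h | h | h | h
  · obtain ⟨τ, h1, -, h3⟩ := hodd (Or.inl h) (Real.pi/3) _ rfl
    obtain ⟨S, hSe⟩ : ∃ S : ℝ, S = √3 / 2 := ⟨_, rfl⟩
    have hS0 : 0 ≤ S := by rw [hSe]; positivity
    have hS : S^2 = 3/4 := by
      rw [hSe, div_pow, Real.sq_sqrt (by norm_num)]; norm_num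
    have hζ : Complex.exp (((-(Real.pi/3) : ℝ) : ℂ) * I) = 1/2 - S * I := by
      rw [Complex.exp_mul_I, ← Complex.ofReal_cos, ← Complex.ofReal_sin, Real.cos_neg, Real.sin_neg,
        Real.cos_pi_div_three, Real.sin_pi_div_three, ← hSe]
      push_cast
      ring
    rw [h] at h3
    exact contra_two S hS0 hS _ hζ τ h1 (by exact_mod_cast h3)
  · obtain ⟨τ, h1, h2, -⟩ := hodd (Or.inr h) (Real.pi/2) _ hI
    rw [h] at h2
    exact contra_eight τ (by exact_mod_cast h2)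
  · obtain ⟨τ, h1, -, h3⟩ := heven (Or.inl h) (Real.pi/2) _ hI
    rw [h] at h3
    exact contra_four τ h1 (by exact_mod_cast h3)
  · obtain ⟨τ, h1, h2, -⟩ := heven (Or.inr h) (Real.pi/2) _ hI
    rw [h] at h2
    exact contra_sixteen τ h1 (by exact_mod_cast h2)

end Pool.Agent.D0H83.FB
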