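import Pool.Agent.D0H83.FB.Sym2

/-!
# Loop value `-2`: closing all strands but the first four
-/

set_option autoImplicit false

namespace Pool.Agent.D0H83.FB

open Pool.Agent.H891R2.Jones Pool.Agent.TH561 Pool.Agent.W639.RB Finset LaurentPolynomial

section opt

variable {α β : Type*} [Fintype α] [DecidableEq α] [Fintype β] [DecidableEq β]

theorem fix2_eq_card (σ : Equiv.Perm α) : fix2 σ = Fintype.card {x : α → Fin 2 // x = x ∘ σ} := by
  unfold fix2
  rw [Fintype.card_subtype]

theorem fix2_permCongr (e : α ≃ β) (σ : Equiv.Perm α) : fix2 (e.permCongr σ) = fix2 σ := by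
  rw [fix2_eq_card, fix2_eq_card]
  refine Fintype.card_congr ⟨fun x => ⟨x.1 ∘ e, ?_⟩, fun y => ⟨y.1 ∘ e.symm, ?_⟩, ?_, ?_⟩
  · obtain ⟨x, hx⟩ := x
    funext a
    have := congrFun hx (e a)
    simpa using this
  · obtain ⟨y, hy⟩ := y
    funext b
    have := congrFun hy (e.symm b)
    simpa using this
  · intro x
    apply Subtype.ext
    funext a
    simp
  · intro y
    apply Subtype.ext
    funext a
    simp

theorem fix2_option (σ : Equiv.Perm (Option α)) :
    fix2 σ = (if σ none = none then 2 else 1) * fix2 (Equiv.removeNone σ) := by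
  have key : ∀ a : α, (∃ b, σ (some a) = some b) ∧ some (Equiv.removeNone σ a) = σ (some a) ∨
      σ (some a) = none ∧ some (Equiv.removeNone σ a) = σ none := by
    intro a
    rcases h : σ (some a) with _ | b
    · right
      exact ⟨rfl, Equiv.removeNone_none σ h⟩
    · left
      refine ⟨⟨b, rfl⟩, ?_⟩
      rw [Equiv.removeNone_some σ ⟨b, h⟩, h]
  split_ifs with h0
  · have h1 : ∀ a : α, some (Equiv.removeNone σ a) = σ (some a) := by
      intro a
      rcases key a with h | h
      · exact h.2
      · exfalso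
        have := σ.injective (h.1.trans h0.symm)
        exact Option.some_ne_none a this
    have e2 : {x : Option α → Fin 2 // x = x ∘ σ} ≃
        Fin 2 × {y : α → Fin 2 // y = y ∘ Equiv.removeNone σ} := by
      refine ⟨fun x => (x.1 none, ⟨fun a => x.1 (some a), ?_⟩),
        fun y => ⟨fun o => o.elim y.1 y.2.1, ?_⟩, ?_, ?_⟩
      · obtain ⟨x, hx⟩ := x
        funext a
        have := congrFun hx (some a)
        simp only [Function.comp_apply, ← h1] at this ⊢
        exact this
      · obtain ⟨c, y, hy⟩ := y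
        funext o
        rcases o with _ | a
        · simp only [Function.comp_apply, h0]
        · have := congrFun hy a
          simp only [Function.comp_apply, ← h1] at this ⊢
          exact this
      · intro x
        apply Subtype.ext
        funext o
        rcases o with _ | a <;> rfl
      · intro y
        rfl
    rw [fix2_eq_card, fix2_eq_card, Fintype.card_congr e2, Fintype.card_prod, Fintype.card_fin]
  · obtain ⟨b, hb⟩ := Option.ne_none_iff_exists'.1 h0
    have e2 : {x : Option α → Fin 2 // x = x ∘ σ} ≃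
        {y : α → Fin 2 // y = y ∘ Equiv.removeNone σ} := by
      refine ⟨fun x => ⟨fun a => x.1 (some a), ?_⟩,
        fun y => ⟨fun o => o.elim (y.1 b) y.1, ?_⟩, ?_, ?_⟩
      · obtain ⟨x, hx⟩ := x
        funext a
        have h1 := congrFun hx (some a)
        have h2 := congrFun hx none
        simp only [Function.comp_apply] at h1 h2 ⊢
        rcases key a with h | h
        · rw [h.2]; exact h1
        · rw [h.2, ← h2, h1, h.1]
      · obtain ⟨y, hy⟩ := y
        funext o
        rcases o with _ | a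
        · simp only [Function.comp_apply, hb, Option.elim_none, Option.elim_some]
        · have h1 := congrFun hy a
          simp only [Function.comp_apply, Option.elim_some] at h1 ⊢
          rcases key a with h | h
          · rw [← h.2, Option.elim_some]; exact h1
          · rw [h.1, Option.elim_none, h1]
            have h3 : Equiv.removeNone σ a = b := by
              have := h.2
              rw [hb] at this
              exact Option.some_injective _ this
            rw [h3]
      · intro x
        apply Subtype.ext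
        funext o
        rcases o with _ | a
        · obtain ⟨x, hx⟩ := x
          have h2 := congrFun hx none
          simp only [Function.comp_apply, hb] at h2
          exact h2.symm
        · rfl
      · intro y
        rfl
    rw [fix2_eq_card, fix2_eq_card, Fintype.card_congr e2, one_mul]

theorem removeNone_mul (σ : Equiv.Perm (Option α)) (ρ : Equiv.Perm α) :
    Equiv.removeNone (σ * Equiv.optionCongr ρ) = Equiv.removeNone σ * ρ := by
  ext a
  have h0 : (σ * Equiv.optionCongr ρ) none = σ none := by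
    rw [Equiv.Perm.mul_apply]; rfl
  have h1 : (σ * Equiv.optionCongr ρ) (some a) = σ (some (ρ a)) := by
    rw [Equiv.Perm.mul_apply]; rfl
  apply Option.some_injective
  rw [Equiv.Perm.mul_apply]
  rcases h : σ (some (ρ a)) with _ | b
  · rw [Equiv.removeNone_none σ h, Equiv.removeNone_none _ (h1.trans h), h0]
  · rw [Equiv.removeNone_some σ ⟨b, h⟩, Equiv.removeNone_some _ ⟨b, h1.trans h⟩, h1]

end opt

section ptr

theorem swp_last (m i : ℕ) (hi : i + 1 < m) :
    (finSuccEquivLast (n := m)).permCongr (swp (m+1) i) = Equiv.optionCongr (swp m i) := by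
  unfold swp
  rw [dif_pos hi, dif_pos (Nat.lt_succ_of_lt hi)]
  ext o
  rw [Equiv.optionCongr_swap]
  have h1 : (⟨i, Nat.lt_of_succ_lt (Nat.lt_succ_of_lt hi)⟩ : Fin (m+1)) =
      Fin.castSucc ⟨i, Nat.lt_of_succ_lt hi⟩ := rfl
  have h2 : (⟨i+1, Nat.lt_succ_of_lt hi⟩ : Fin (m+1)) = Fin.castSucc ⟨i+1, hi⟩ := rfl
  rw [h1, h2, Equiv.permCongr_apply]
  have h3 := Equiv.symm_trans_swap_trans (Fin.castSucc (⟨i, Nat.lt_of_succ_lt hi⟩ : Fin m))
    (Fin.castSucc ⟨i+1, hi⟩) (finSuccEquivLast (n := m))
  rw [finSuccEquivLast_castSucc, finSuccEquivLast_castSucc] at h3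
  rw [← h3]
  rfl

theorem permL_last (m : ℕ) (w : List (Bool × ℕ)) (hw : ∀ x ∈ w, x.2 + 1 < m) :
    (finSuccEquivLast (n := m)).permCongr (permL (m+1) w) = Equiv.optionCongr (permL m w) := by
  induction w with
  | nil =>
    ext o
    simp [permL]
  | cons x w ih =>
    rw [permL_cons, permL_cons, Equiv.permCongr_mul, ih (fun y hy => hw y (List.mem_cons_of_mem _ hy)),
      swp_last m x.2 (hw x List.mem_cons_self)]
    ext o
    rcases o with _ | a <;> simp

theorem fix2_last (m : ℕ) (hm : 4 ≤ m) (π : Equiv.Perm (Fin (m+1))) :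
    ∃ (k : ℕ) (ρ : Equiv.Perm (Fin m)), ∀ w : List (Bool × ℕ), (∀ x ∈ w, x.2 + 1 < 4) →
      fix2 (π * permL (m+1) w) = 2 ^ k * fix2 (ρ * permL m w) := by
  refine ⟨if (finSuccEquivLast (n := m)).permCongr π none = none then 1 else 0,
    Equiv.removeNone ((finSuccEquivLast (n := m)).permCongr π), fun w hw => ?_⟩
  have hw' : ∀ x ∈ w, x.2 + 1 < m := fun x hx => by have := hw x hx; omega
  rw [← fix2_permCongr (finSuccEquivLast (n := m)), Equiv.permCongr_mul, permL_last m w hw',
    fix2_option, removeNone_mul]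
  have h0 : ((finSuccEquivLast (n := m)).permCongr π * Equiv.optionCongr (permL m w)) none =
      (finSuccEquivLast (n := m)).permCongr π none := by
    rw [Equiv.Perm.mul_apply]; rfl
  rw [h0]
  split_ifs <;> simp

theorem fix2_four (m : ℕ) (hm : 4 ≤ m) (π : Equiv.Perm (Fin m)) :
    ∃ (k : ℕ) (ρ : Equiv.Perm (Fin 4)), ∀ w : List (Bool × ℕ), (∀ x ∈ w, x.2 + 1 < 4) →
      fix2 (π * permL m w) = 2 ^ k * fix2 (ρ * permL 4 w) := by
  induction m, hm using Nat.le_induction with
  | base => exact ⟨0, π, fun w _ => by rw [pow_zero, one_mul]⟩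
  | succ m hm ih =>
    obtain ⟨k, ρ, h⟩ := fix2_last m hm π
    obtain ⟨k', ρ', h'⟩ := ih ρ
    refine ⟨k + k', ρ', fun w hw => ?_⟩
    rw [h w hw, h' w hw, pow_add, mul_assoc]

theorem trace_four (m : ℕ) (π : Equiv.Perm (Fin m)) (k : ℕ) (ρ : Equiv.Perm (Fin 4))
    (h : ∀ w : List (Bool × ℕ), (∀ x ∈ w, x.2 + 1 < 4) →
      fix2 (π * permL m w) = 2 ^ k * fix2 (ρ * permL 4 w)) (L : List ℕ) :
    ∀ (w : List (Bool × ℕ)), (∀ x ∈ w, x.2 + 1 < 4) → (∀ i ∈ L, i + 1 < 4) →
      Matrix.trace (PM π * (PM (permL m w) * WP (es m) L)) =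
      2 ^ k * Matrix.trace (PM ρ * (PM (permL 4 w) * WP (es 4) L)) := by
  induction L with
  | nil =>
    intro w hw _
    rw [WP_nil, WP_nil, mul_one, mul_one, PM_mul, PM_mul, trace_PM, trace_PM, h w hw]
    push_cast
    ring
  | cons i L ih =>
    intro w hw hL
    have hi := hL i List.mem_cons_self
    have hL' : ∀ j ∈ L, j + 1 < 4 := fun j hj => hL j (List.mem_cons_of_mem _ hj)
    have hw' : ∀ x ∈ w ++ [(true, i)], x.2 + 1 < 4 := by
      intro x hx
      rcases List.mem_append.1 hx with h1 | h1
      · exact hw x h1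
      · rw [List.mem_singleton.1 h1]; exact hi
    have key : ∀ n : ℕ, ∀ τ : Equiv.Perm (Fin n),
        Matrix.trace (PM τ * (PM (permL n w) * WP (es n) (i :: L))) =
        Matrix.trace (PM τ * (PM (permL n (w ++ [(true, i)])) * WP (es n) L)) -
        Matrix.trace (PM τ * (PM (permL n w) * WP (es n) L)) := by
      intro n τ
      have h1 : permL n (w ++ [(true, i)]) = permL n w * swp n i := by
        rw [permL_append]; simp [permL]
      rw [h1, ← Matrix.trace_sub, WP_cons, ← PM_mul]
      congr 1
      unfold es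
      noncomm_ring
    rw [key m π, key 4 ρ, ih _ hw' hL', ih _ hw hL']
    ring

/-- every permutation of four places comes from a word -/
theorem exists_word (ρ : Equiv.Perm (Fin 4)) :
    ∃ p : List (Bool × ℕ), (∀ x ∈ p, x.2 + 1 < 4) ∧ permL 4 p = ρ := by
  have h := Equiv.Perm.mclosure_swap_castSucc_succ 3
  have h1 : ρ ∈ Submonoid.closure (Set.range fun i : Fin 3 => Equiv.swap i.castSucc i.succ) := by
    rw [h]; trivial
  refine Submonoid.closure_induction (motive := fun ρ _ => ∃ p : List (Bool × ℕ),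
    (∀ x ∈ p, x.2 + 1 < 4) ∧ permL 4 p = ρ) ?_ ?_ ?_ h1
  · rintro _ ⟨i, rfl⟩
    refine ⟨[(true, (i : ℕ))], ?_, ?_⟩
    · intro x hx
      rw [List.mem_singleton.1 hx]
      simp only
      omega
    · simp only [permL, List.map_cons, List.map_nil, List.prod_cons, List.prod_nil, mul_one]
      unfold swp
      rw [dif_pos (by omega)]
      rfl
  · exact ⟨[], by simp, by simp [permL]⟩
  · rintro x y _ _ ⟨p, hp, rfl⟩ ⟨q, hq, rfl⟩
    refine ⟨p ++ q, ?_, permL_append p q⟩
    intro z hz
    rcases List.mem_append.1 hz with h1 | h1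
    · exact hp z h1
    · exact hq z h1

/-- the functional of the outside at `A = 1` is a multiple of the functional of a braid word -/
theorem Fn_one_four (m : ℕ) (hm : 4 ≤ m) (U : List (Bool × ℕ)) (hU : ∀ x ∈ U, x.2 + 1 < m) :
    ∃ (k : ℕ) (p : List (Bool × ℕ)), (∀ x ∈ p, x.2 + 1 < 4) ∧
      (∀ w : List (Bool × ℕ), (∀ x ∈ w, x.2 + 1 < 4) →
        fix2 (permL m (U ++ w)) = 2 ^ k * fix2 (permL 4 (p ++ w))) ∧
      ∀ j, Fn m U 1 (-2) j = ((-1) ^ m * 2 ^ k) * Fn 4 p 1 (-2) j := by
  obtain ⟨k, ρ, h⟩ := fix2_four m hm (permL m U)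
  obtain ⟨p, hp, hpρ⟩ := exists_word ρ
  refine ⟨k, p, hp, fun w hw => ?_, fun j => ?_⟩
  · rw [permL_append, permL_append, h w hw, hpρ]
  · rw [Fn_one hm U hU, Fn_one le_rfl p hp, hpρ]
    have h1 := trace_four m (permL m U) k ρ h (nb j) [] (by simp) (nb_mem j)
    have h2 : ∀ n : ℕ, permL n [] = 1 := fun n => by simp [permL]
    rw [h2, h2, PM_one, PM_one, one_mul, one_mul] at h1
    rw [h1]
    ring

end ptr

end Pool.Agent.D0H83.FB
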