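import Pool.Agent.D0H83.FB.Bdd
import Pool.Agent.D0H83.FB.PTr

/-!
# Limits as `A` tends to `1`
-/

set_option autoImplicit false

namespace Pool.Agent.D0H83.FB

open Pool.Agent.H891R2.Jones Pool.Agent.TH561 Pool.Agent.W639.RB Complex Finset Filter Topology
open LaurentPolynomial (C T)

theorem tendsto_listsum {α : Type*} (L : List α) (f : α → ℕ → ℂ) (a : α → ℂ)
    (h : ∀ x ∈ L, Tendsto (f x) atTop (𝓝 (a x))) :
    Tendsto (fun n => (L.map (fun x => f x n)).sum) atTop (𝓝 (L.map a).sum) := by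
  induction L with
  | nil => simp
  | cons x L ih =>
    simp only [List.map_cons, List.sum_cons]
    exact (h x List.mem_cons_self).add (ih fun y hy => h y (List.mem_cons_of_mem _ hy))

theorem Fn_tendsto (m : ℕ) (U : List (Bool × ℕ)) (j : Fin 14) {A d : ℕ → ℂ}
    (hA : Tendsto A atTop (𝓝 1)) (hd : Tendsto d atTop (𝓝 (-2))) :
    Tendsto (fun n => Fn m U (A n) (d n) j) atTop (𝓝 (Fn m U 1 (-2) j)) := by
  unfold Fn
  apply tendsto_listsum (terms U) (fun s n => A n ^ s.1 * d n ^ lam m (s.2 ++ nb j))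
    (fun s => 1 ^ s.1 * (-2) ^ lam m (s.2 ++ nb j))
  intro s _
  exact (hA.zpow₀ s.1 (Or.inl one_ne_zero)).mul (hd.pow _)

theorem evc_tendsto (g : LaurentPolynomial ℤ) (A : ℕ → ℂ) (hA0 : ∀ n, A n ≠ 0)
    (hA : Tendsto A atTop (𝓝 1)) :
    Tendsto (fun n => evc (A n) (hA0 n) g) atTop (𝓝 (evc 1 one_ne_zero g)) := by
  induction g using LaurentPolynomial.induction_on' with
  | add p q hp hq =>
    simp only [map_add]
    exact hp.add hq
  | C_mul_T k a =>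
    have h1 : ∀ (B : ℂ) (hB : B ≠ 0), evc B hB (C a * T k) = (a : ℂ) * B ^ k := by
      intro B hB
      unfold evc
      rw [LaurentPolynomial.eval₂_C_mul_T]
      simp
    simp only [h1]
    exact tendsto_const_nhds.mul (hA.zpow₀ k (Or.inl one_ne_zero))

theorem limit_lemma (S : Set ℂ) (hS : IsClosed S) (z : ℕ → ℂ) (hz : ∀ᶠ n in atTop, z n ∈ S)
    (τ : ℕ → ℝ) (hτ : ∀ᶠ n in atTop, |τ n| ≤ 1) (c κ : ℂ)
    (hlim : Tendsto (fun n => 3 * z n + κ * τ n) atTop (𝓝 c)) :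
    ∃ t : ℝ, |t| ≤ 1 ∧ (c - κ * t) / 3 ∈ S := by
  have h1 : ∃ᶠ n in atTop, τ n ∈ Set.Icc (-1 : ℝ) 1 := by
    apply Eventually.frequently
    filter_upwards [hτ] with n hn
    exact abs_le.1 hn
  obtain ⟨t, ht, φ, hφ, hlt⟩ := isCompact_Icc.tendsto_subseq' h1
  refine ⟨t, abs_le.2 ht, ?_⟩
  have h2 : Tendsto (fun n => ((3 * z (φ n) + κ * τ (φ n)) - κ * τ (φ n)) / 3) atTop
      (𝓝 ((c - κ * t) / 3)) := by
    apply Tendsto.div_const
    apply Tendsto.sub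
    · exact hlim.comp hφ.tendsto_atTop
    · apply tendsto_const_nhds.mul
      exact (Complex.continuous_ofReal.tendsto t).comp hlt
  have h3 : (fun n => ((3 * z (φ n) + κ * τ (φ n)) - κ * τ (φ n)) / 3) = fun n => z (φ n) := by
    funext n; ring
  rw [h3] at h2
  exact hS.mem_of_tendsto h2 (hφ.tendsto_atTop.eventually hz)

/-! ### the sign -/

theorem sign_fix2 (π : Equiv.Perm (Fin 4)) :
    (Equiv.Perm.sign π = -1 ∧ (fix2 π = 2 ∨ fix2 π = 8)) ∨
    (Equiv.Perm.sign π = 1 ∧ (fix2 π = 4 ∨ fix2 π = 16)) := by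
  revert π
  decide +kernel

theorem sign_permL (w : List (Bool × ℕ)) (hw : ∀ x ∈ w, x.2 + 1 < 4) :
    (Equiv.Perm.sign (permL 4 w) = 1 ↔ Even (expo w)) := by
  induction w with
  | nil => simp [permL, expo]
  | cons x w ih =>
    have ih' := ih (fun y hy => hw y (List.mem_cons_of_mem _ hy))
    have h1 : Equiv.Perm.sign (swp 4 x.2) = -1 := by
      unfold swp
      rw [dif_pos (hw x List.mem_cons_self), Equiv.Perm.sign_swap]
      simp [Fin.ext_iff]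
    rw [permL_cons, Equiv.Perm.sign_mul, h1, expo_cons, Int.even_add]
    have h2 : ¬ Even (sgn x) := by
      rcases sgn_cases x with h | h <;> rw [h] <;> decide
    have h3 : Even (sgn x) ↔ False := iff_false_intro h2
    rw [h3, false_iff, ← ih', neg_one_mul]
    rcases Int.units_eq_one_or (Equiv.Perm.sign (permL 4 w)) with h | h <;> rw [h] <;> decide

theorem parity_fix2 (w : List (Bool × ℕ)) (hw : ∀ x ∈ w, x.2 + 1 < 4) :
    (Odd (expo w) ∧ (fix2 (permL 4 w) = 2 ∨ fix2 (permL 4 w) = 8)) ∨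
    (Even (expo w) ∧ (fix2 (permL 4 w) = 4 ∨ fix2 (permL 4 w) = 16)) := by
  have h := sign_permL w hw
  rcases sign_fix2 (permL 4 w) with ⟨h1, h2⟩ | ⟨h1, h2⟩
  · left
    refine ⟨?_, h2⟩
    rw [← Int.not_even_iff_odd, ← h, h1]
    decide
  · right
    exact ⟨h.1 h1, h2⟩

/-! ### the data at a value of `A` -/

/-- the discriminant form -/
noncomputable def dsc (z δ : ℂ) : ℝ :=
  normSq z ^ 2 - 8 * (z ^ 3 * (starRingEnd ℂ) δ).re + 18 * normSq z - 27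

theorem at_A {A : ℂ} (hA : ‖A‖ = 1) (h : ℝ) (h0 : 9/10 ≤ h)
    (hd : -2*(h:ℂ) = -A^2 - (A⁻¹)^2) (v : List (Bool × ℕ)) (hv : ∀ x ∈ v, x.2 + 1 < 4) :
    ‖A ^ expo v * Matrix.trace (wo A (EX (-2*(h:ℂ))) v)‖ ≤ 3 ∧
    (Even (expo v) → dsc (A ^ expo v * Matrix.trace (wo A (EX (-2*(h:ℂ))) v)) ((A ^ expo v)^2) ≤ 0 ∧
      ∃ τ : ℝ, |τ| ≤ 1 ∧ A ^ expo v * Matrix.trace (wo A (EY (-2*(h:ℂ))) v) = 2 * τ) ∧
    (Odd (expo v) → dsc (A ^ expo v * Matrix.trace (wo A (EX (-2*(h:ℂ))) v)) (-(A ^ expo v)^2) ≤ 0 ∧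
      ∃ τ : ℝ, |τ| ≤ 1 ∧ A ^ expo v * Matrix.trace (wo A (EY (-2*(h:ℂ))) v) = 2 * I * τ) := by
  have hA0 := ne_zero_of_norm_one hA
  have h2h : 1 < 2*h^2 := by nlinarith
  have hpos : 0 < h := by linarith
  have hMX := word_inv hA hd (isTL_EX _) (GX h) (selfadj_X h) v hv
  have hMY := word_inv hA hd (isTL_EY _) (GY h) (selfadj_Y h) v hv
  obtain ⟨a, b, c, ha, hb, hc, hX, hXd, -⟩ := three_roots (aniso_GX h hpos h2h) hMX
  obtain ⟨m, n, hm, hn, hY, hYd⟩ := two_roots (aniso_GY h hpos h2h) hMY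
  rw [det_wo_X hA0 hd v hv] at hXd
  rw [det_wo_Y hA0 hd v hv] at hYd
  obtain ⟨ζ, hζ⟩ : ∃ ζ, ζ = A ^ expo v := ⟨_, rfl⟩
  rw [← hζ, hX, hY]
  have hζn : ‖ζ‖ = 1 := by rw [hζ, norm_zpow, hA, one_zpow]
  have hζ0 : ζ ≠ 0 := ne_zero_of_norm_one hζn
  have hdisc := disc_ineq (ζ * a) (ζ * b) (ζ * c) (by rw [norm_mul, hζn, ha, one_mul])
    (by rw [norm_mul, hζn, hb, one_mul]) (by rw [norm_mul, hζn, hc, one_mul])
  have hz' : ζ * a + ζ * b + ζ * c = ζ * (a + b + c) := by ring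
  rw [hz'] at hdisc
  have hum : ‖ζ * m‖ = 1 := by rw [norm_mul, hζn, hm, one_mul]
  have hu0 := ne_zero_of_norm_one hum
  have hstar : star (ζ * m) = (starRingEnd ℂ) (ζ * m) := rfl
  have hy2 : ((A⁻¹)^2) ^ expo v = (ζ^2)⁻¹ := by
    rw [hζ]
    have e1 : (A⁻¹)^2 = A ^ (-2:ℤ) := by rw [zpow_neg, inv_pow]; rfl
    have e2 : (A ^ expo v)^2 = A ^ (expo v * 2) := by
      rw [zpow_mul]; exact (zpow_natCast _ 2).symm
    rw [e1, e2, ← zpow_mul, ← zpow_neg]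
    congr 1
    ring
  have hconj := conj_of_norm_one hum
  rw [hstar] at hconj
  refine ⟨?_, fun hev => ⟨?_, (ζ * m).re, ?_, ?_⟩, fun hodd => ⟨?_, (ζ * m).im, ?_, ?_⟩⟩
  · rw [norm_mul, hζn, one_mul]
    calc ‖a + b + c‖ ≤ ‖a‖ + ‖b‖ + ‖c‖ := norm_add₃_le
      _ = 3 := by rw [ha, hb, hc]; norm_num
  · have hprod : ζ * a * (ζ * b) * (ζ * c) = ζ^2 := by
      have h1 : ζ * a * (ζ * b) * (ζ * c) = ζ^3 * (a * b * c) := by ring
      rw [h1, ← hXd, hev.neg_zpow, inv_zpow, ← hζ]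
      field_simp
    rw [hprod] at hdisc
    exact hdisc
  · rw [← hum]; exact Complex.abs_re_le_norm _
  · have hmn : (ζ * m) * (ζ * n) = 1 := by
      have : (ζ * m) * (ζ * n) = ζ^2 * (m * n) := by ring
      rw [this, ← hYd, hev.neg_zpow, hy2]
      field_simp
    have hun : ζ * n = (starRingEnd ℂ) (ζ * m) := by
      rw [hconj]
      apply mul_left_cancel₀ hu0
      rw [hmn, mul_inv_cancel₀ hu0]
    rw [mul_add, hun, Complex.add_conj]
    push_cast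
    ring
  · have hprod : ζ * a * (ζ * b) * (ζ * c) = -ζ^2 := by
      have h1 : ζ * a * (ζ * b) * (ζ * c) = ζ^3 * (a * b * c) := by ring
      rw [h1, ← hXd, hodd.neg_zpow, inv_zpow, ← hζ]
      field_simp
    rw [hprod] at hdisc
    exact hdisc
  · rw [← hum]; exact Complex.abs_im_le_norm _
  · have hmn : (ζ * m) * (ζ * n) = -1 := by
      have : (ζ * m) * (ζ * n) = ζ^2 * (m * n) := by ring
      rw [this, ← hYd, hodd.neg_zpow, hy2]
      field_simp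
    have hun : ζ * n = -(starRingEnd ℂ) (ζ * m) := by
      rw [hconj]
      apply mul_left_cancel₀ hu0
      rw [hmn, mul_neg, mul_inv_cancel₀ hu0]
    rw [mul_add, hun, ← sub_eq_add_neg, Complex.sub_conj]
    push_cast
    ring

end Pool.Agent.D0H83.FB
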