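import Pool.Agent.D0H83.FB.Lim0
import Pool.Agent.D0H83.FB.Num

/-!
# The numerical contradictions
-/

set_option autoImplicit false

namespace Pool.Agent.D0H83.FB

open Complex

theorem contra_two (S : ℝ) (hS0 : 0 ≤ S) (hS : S^2 = 3/4) (ζ : ℂ) (hζ : ζ = 1/2 - S * I) (τ : ℝ)
    (hτ : |τ| ≤ 1) : ¬ dsc ((2 * ζ^4 - 5 * ζ^2 - 2 * I * τ) / 3) (-ζ^2) ≤ 0 := by
  intro hdisc
  have hSC : (S:ℂ)^2 = 3/4 := by
    have := congrArg (fun x : ℝ => (x : ℂ)) hS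
    simpa using this
  have hζ2 : ζ^2 = -1/2 - S * I := by
    rw [hζ]; linear_combination (I^2) * hSC + (3/4) * I_sq
  have hζ4 : ζ^4 = -1/2 + S * I := by
    have : ζ^4 = ζ^2 * ζ^2 := by ring
    rw [this, hζ2]; linear_combination (I^2) * hSC + (3/4) * I_sq
  obtain ⟨x, hx⟩ : ∃ x : ℝ, x = 1/2 := ⟨_, rfl⟩
  obtain ⟨y, hy⟩ : ∃ y : ℝ, y = (7*S - 2*τ)/3 := ⟨_, rfl⟩
  obtain ⟨z, hz⟩ : ∃ z, z = (2 * ζ^4 - 5 * ζ^2 - 2 * I * τ) / 3 := ⟨_, rfl⟩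
  have hzxy : z = x + y * I := by
    rw [hz, hζ4, hζ2, hx, hy]; push_cast; ring
  rw [← hz] at hdisc
  have hδ : -ζ^2 = 1/2 + S * I := by rw [hζ2]; ring
  rw [hδ] at hdisc
  unfold dsc at hdisc
  have hnum := num 1 S τ 5 3 (3 * x) (3 * y) (by norm_num) le_rfl hS0 hS (abs_le.1 hτ).2
    (by norm_num) (by norm_num) (by rw [hx]; norm_num) (by rw [hy]; ring)
  have hns : normSq z = x^2 + y^2 := by
    rw [hzxy, Complex.normSq_add_mul_I]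
  have hre : (z^3 * (starRingEnd ℂ) (1/2 + S * I)).re = (x^3 - 3*x*y^2)/2 + S*(3*x^2*y - y^3) := by
    have h1 : (starRingEnd ℂ) (1/2 + (S:ℂ) * I) = 1/2 - S * I := by
      rw [map_add, map_mul, Complex.conj_ofReal, Complex.conj_I, map_div₀, map_one, map_ofNat]
      ring
    have h2 : z^3 * (1/2 - S * I) = (((x^3 - 3*x*y^2)/2 + S*(3*x^2*y - y^3) : ℝ) : ℂ) +
        (((3*x^2*y - y^3)/2 - S*(x^3 - 3*x*y^2) : ℝ) : ℂ) * I := by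
      rw [hzxy]
      push_cast
      linear_combination ((3*(x:ℂ)*(y:ℂ)^2 + (y:ℂ)^3 * I)/2 - (S:ℂ)*(3*(x:ℂ)^2*(y:ℂ) + 3*(x:ℂ)*(y:ℂ)^2*I + (y:ℂ)^3*(I^2-1))) * I_sq
    rw [h1, h2, Complex.add_re, Complex.re_ofReal_mul, Complex.I_re, Complex.ofReal_re]
    ring
  rw [hns, hre] at hdisc
  have hfin2 : (3:ℝ)^4 * ((x^2+y^2)^2 - 8*((x^3 - 3*x*y^2)/2 + S*(3*x^2*y - y^3)) + 18*(x^2+y^2) - 27) =
      (3 * y)^4 + 8*3*S*(3 * y)^3 + (2*(3 * x)^2 + 12*3*(3 * x) + 18*3^2)*(3 * y)^2 -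
        24*3*S*(3 * x)^2*(3 * y) + (3 * x)^4 - 4*3*(3 * x)^3 + 18*3^2*(3 * x)^2 - 27*3^4 := by ring
  linarith

theorem negI_pow : ((-I)^2 : ℂ) = -1 ∧ ((-I)^4 : ℂ) = 1 := by
  constructor
  · rw [neg_sq, I_sq]
  · have : ((-I)^4 : ℂ) = (I^2)^2 := by ring
    rw [this, I_sq]; norm_num

theorem contra_four (τ : ℝ) (hτ : |τ| ≤ 1) :
    ¬ dsc ((4 * (-I)^4 - 5 * (-I)^2 - 2 * τ) / 3) ((-I)^2) ≤ 0 := by
  intro h
  rw [negI_pow.1, negI_pow.2] at h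
  obtain ⟨x, hx⟩ : ∃ x : ℝ, x = (9 - 2*τ)/3 := ⟨_, rfl⟩
  have h1 : ((4 * 1 - 5 * (-1) - 2 * τ) / 3 : ℂ) = (x : ℂ) := by
    rw [hx]; push_cast; ring
  rw [h1] at h
  unfold dsc at h
  have h2 : (starRingEnd ℂ) (-1) = -1 := by rw [map_neg, map_one]
  rw [h2, Complex.normSq_ofReal] at h
  have h3 : (((x:ℂ))^3 * (-1)).re = -x^3 := by
    rw [← Complex.ofReal_pow]
    simp
    norm_cast
  rw [h3] at h
  have h4 : (x * x)^2 - 8 * (-x^3) + 18 * (x * x) - 27 = (x - 1) * (x + 3)^3 := by ring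
  rw [h4] at h
  have h5 : 7/3 ≤ x := by rw [hx]; have := (abs_le.1 hτ).2; linarith
  have h6 : 0 < (x - 1) * (x + 3)^3 := by
    apply mul_pos (by linarith)
    apply pow_pos
    linarith
  linarith

theorem contra_eight (τ : ℝ) :
    ¬ ‖((8 * (-I)^4 - 5 * (-I)^2 - 2 * I * τ) / 3 : ℂ)‖ ≤ 3 := by
  intro h
  rw [negI_pow.1, negI_pow.2] at h
  have h1 := Complex.re_le_norm ((8 * 1 - 5 * (-1) - 2 * I * τ) / 3 : ℂ)
  have h2 : ((8 * 1 - 5 * (-1) - 2 * I * τ) / 3 : ℂ) = ((13/3 : ℝ) : ℂ) + ((-2*τ/3 : ℝ) : ℂ) * I := by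
    push_cast; ring
  rw [h2] at h h1
  rw [Complex.add_re, Complex.re_ofReal_mul, Complex.I_re, Complex.ofReal_re, mul_zero, add_zero] at h1
  linarith

theorem contra_sixteen (τ : ℝ) (hτ : |τ| ≤ 1) :
    ¬ ‖((16 * (-I)^4 - 5 * (-I)^2 - 2 * τ) / 3 : ℂ)‖ ≤ 3 := by
  intro h
  rw [negI_pow.1, negI_pow.2] at h
  have h1 := Complex.re_le_norm ((16 * 1 - 5 * (-1) - 2 * τ) / 3 : ℂ)
  have h2 : ((16 * 1 - 5 * (-1) - 2 * τ) / 3 : ℂ) = (((21 - 2*τ)/3 : ℝ) : ℂ) := by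
    push_cast; ring
  rw [h2] at h h1
  rw [Complex.ofReal_re] at h1
  have := (abs_le.1 hτ).2
  linarith

end Pool.Agent.D0H83.FB
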