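import Pool.Agent.TH561.PB.State

/-!
# Normal forms of words in the Temperley–Lieb generators on four strands
-/

set_option autoImplicit false

namespace Pool.Agent.D0H83.FB

open Pool.Agent.H891R2.Jones Pool.Agent.TH561

/-- the reduced words (the 14 diagrams on four strands) -/
def nb : Fin 14 → List ℕ
  | 0 => []
  | 1 => [0]
  | 2 => [1]
  | 3 => [2]
  | 4 => [0, 1]
  | 5 => [1, 0]
  | 6 => [1, 2]
  | 7 => [2, 1]
  | 8 => [0, 2]
  | 9 => [0, 1, 2]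
  | 10 => [2, 1, 0]
  | 11 => [0, 2, 1]
  | 12 => [1, 0, 2]
  | 13 => [1, 0, 2, 1]

/-- left multiplication by a generator: reduced word and exponent of the loop value -/
def stp : Fin 3 → Fin 14 → Fin 14 × ℕ
  | 0, 0 => (1, 0)
  | 0, 1 => (1, 1)
  | 0, 2 => (4, 0)
  | 0, 3 => (8, 0)
  | 0, 4 => (4, 1)
  | 0, 5 => (1, 0)
  | 0, 6 => (9, 0)
  | 0, 7 => (11, 0)
  | 0, 8 => (8, 1)
  | 0, 9 => (9, 1)
  | 0, 10 => (8, 0)
  | 0, 11 => (11, 1)
  | 0, 12 => (8, 0)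
  | 0, 13 => (11, 0)
  | 1, 0 => (2, 0)
  | 1, 1 => (5, 0)
  | 1, 2 => (2, 1)
  | 1, 3 => (6, 0)
  | 1, 4 => (2, 0)
  | 1, 5 => (5, 1)
  | 1, 6 => (6, 1)
  | 1, 7 => (2, 0)
  | 1, 8 => (12, 0)
  | 1, 9 => (6, 0)
  | 1, 10 => (5, 0)
  | 1, 11 => (13, 0)
  | 1, 12 => (12, 1)
  | 1, 13 => (13, 1)
  | 2, 0 => (3, 0)
  | 2, 1 => (8, 0)
  | 2, 2 => (7, 0)
  | 2, 3 => (3, 1)
  | 2, 4 => (11, 0)
  | 2, 5 => (10, 0)
  | 2, 6 => (3, 0)
  | 2, 7 => (7, 1)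
  | 2, 8 => (8, 1)
  | 2, 9 => (8, 0)
  | 2, 10 => (10, 1)
  | 2, 11 => (11, 1)
  | 2, 12 => (8, 0)
  | 2, 13 => (11, 0)

section rel

variable {R : Type*} [Ring R] [Algebra ℂ R] {d : ℂ} {e : ℕ → R}

theorem nf_step (h : IsTL 4 d e) (i : Fin 3) (j : Fin 14) :
    e i * WP e (nb j) = d ^ (stp i j).2 • WP e (nb (stp i j).1) := by
  have s0 := h.sq 0 (by norm_num)
  have s1 := h.sq 1 (by norm_num)
  have s2 := h.sq 2 (by norm_num)
  have u0 := h.up 0 (by norm_num)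
  have u1 := h.up 1 (by norm_num)
  have v0 := h.down 0 (by norm_num)
  have v1 := h.down 1 (by norm_num)
  have f := h.far 0 2 (by norm_num) (by norm_num)
  simp only [zero_add, Nat.reduceAdd] at u0 u1 v0 v1
  rw [mul_assoc] at u0 u1 v0 v1
  have s0' : ∀ x, e 0 * (e 0 * x) = d • (e 0 * x) := fun x => by
    rw [← mul_assoc, s0, smul_mul_assoc]
  have s1' : ∀ x, e 1 * (e 1 * x) = d • (e 1 * x) := fun x => by
    rw [← mul_assoc, s1, smul_mul_assoc]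
  have s2' : ∀ x, e 2 * (e 2 * x) = d • (e 2 * x) := fun x => by
    rw [← mul_assoc, s2, smul_mul_assoc]
  have u0' : ∀ x, e 0 * (e 1 * (e 0 * x)) = e 0 * x := fun x => by
    rw [← mul_assoc, ← mul_assoc, mul_assoc (e 0), u0]
  have u1' : ∀ x, e 1 * (e 2 * (e 1 * x)) = e 1 * x := fun x => by
    rw [← mul_assoc, ← mul_assoc, mul_assoc (e 1), u1]
  have v0' : ∀ x, e 1 * (e 0 * (e 1 * x)) = e 1 * x := fun x => by
    rw [← mul_assoc, ← mul_assoc, mul_assoc (e 1), v0]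
  have v1' : ∀ x, e 2 * (e 1 * (e 2 * x)) = e 2 * x := fun x => by
    rw [← mul_assoc, ← mul_assoc, mul_assoc (e 2), v1]
  have f' : e 2 * e 0 = e 0 * e 2 := f.symm
  have f'' : ∀ x, e 2 * (e 0 * x) = e 0 * (e 2 * x) := fun x => by
    rw [← mul_assoc, f', mul_assoc]
  have g1 : e 2 * (e 1 * (e 0 * e 2)) = e 0 * e 2 := by
    rw [f, v1', f']
  have g1' : ∀ x, e 2 * (e 1 * (e 0 * (e 2 * x))) = e 0 * (e 2 * x) := fun x => by
    have : e 0 * (e 2 * x) = e 2 * (e 0 * x) := (f'' x).symm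
    rw [this, v1', f'']
  have g2 : e 0 * (e 2 * (e 1 * e 0)) = e 0 * e 2 := by
    rw [← f'', u0, f']
  have g2' : ∀ x, e 0 * (e 2 * (e 1 * (e 0 * x))) = e 0 * (e 2 * x) := fun x => by
    rw [← f'', u0', f'']
  fin_cases i <;> fin_cases j <;>
    simp [WP, nb, stp, s0, s1, s2, u0, u1, v0, v1, f', s0', s1', s2', u0', u1', v0', v1', f'', g1,
      g1', g2, g2']

end rel

end Pool.Agent.D0H83.FB
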