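import Mathlib

/-!
# The numerical inequality
-/

set_option autoImplicit false

namespace Pool.Agent.D0H83.FB

theorem num_G1 (v h P Q a w β : ℝ) (hv : 0 ≤ v) (hh : h = 191/200 + v) (hP : P = 16*h^4 - 12*h^2 + 1)
    (hQ : Q = 4*h^2 - 1) (ha : a = -h + P/2) (hw : w = P + 2*h)
    (hβ : β = 2*a^2 + 12*Q*a + 18*Q^2) : ∃ g : ℝ, 0 ≤ g ∧
    (-32*w - 64*Q - 4*β*w + 48*Q*a^2 + (3/4)*(-8*w^3 - 48*Q*w^2)) = -g := by
  refine ⟨(872023020944586320195084881/125000000000000000000000)*v^0 + (16822743872392698612642773/156250000000000000000)*v^1 + (1149729892965331918336233/1562500000000000000)*v^2 + (2313128264953253310421/781250000000000)*v^3 + (122599285118172155779/15625000000000)*v^4 + (706923622017173669/48828125000)*v^5 + (9338763957405071/488281250)*v^6 + (178406258745192/9765625)*v^7 + (980265621912/78125)*v^8 + (18913684736/3125)*v^9 + (1217405952/625)*v^10 + (9388032/25)*v^11 + (32768/1)*v^12, by positivity, ?_⟩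
  subst hβ hw ha hQ hP hh
  ring

theorem num_H (v h P Q a w β κ : ℝ) (hv : 0 ≤ v) (hh : h = 191/200 + v)
    (hP : P = 16*h^4 - 12*h^2 + 1)
    (hQ : Q = 4*h^2 - 1) (ha : a = -h + P/2) (hw : w = P + 2*h)
    (hβ : β = 2*a^2 + 12*Q*a + 18*Q^2) (hκ : κ = a^4 - 4*Q*a^3 + 18*Q^2*a^2 - 27*Q^4) :
     0 < (16 + 4*β + κ) + (3/4)*(24*w^2 + 96*Q*w + β*w^2 - 24*Q*a^2*w) + (9/16)*(w^4 + 8*Q*w^3) +
      (4331/5000)*(-32*w - 64*Q - 4*β*w + 48*Q*a^2 + (3/4)*(-8*w^3 - 48*Q*w^2)) := by
  have h0 : 0 < (489148080113076301454518482135041/100000000000000000000000000000000)*v^0 + (915756483572743939273855769123351/31250000000000000000000000000)*v^1 + (33122274518349008330894203495283/62500000000000000000000000)*v^2 + (656532146647502642776718581897/156250000000000000000000)*v^3 + (61894498118417943667578390171/3125000000000000000000)*v^4 + (1233520827593974761771212343/19531250000000000000)*v^5 + (28571190525250640689297401/195312500000000000)*v^6 + (25044005519314122979473/97656250000000)*v^7 + (1357758433057853701127/3906250000000)*v^8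 + (895465776114176633/2441406250)*v^9 + (73306391746567282/244140625)*v^10 + (1839665799763936/9765625)*v^11 + (6926280566464/78125)*v^12 + (94466246656/3125)*v^13 + (880173056/125)*v^14 + (25034752/25)*v^15 + (65536/1)*v^16 := by positivity
  refine lt_of_lt_of_eq h0 ?_
  subst hκ hβ hw ha hQ hP hh
  ring

end Pool.Agent.D0H83.FB
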