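import Pool.Agent.D0H83.FB.Gen

/-!
# Loop value `-2`: permutations
-/

set_option autoImplicit false

namespace Pool.Agent.D0H83.FB

open Pool.Agent.H891R2.Jones Pool.Agent.TH561 Pool.Agent.W639.RB Finset LaurentPolynomial

section perm

variable {α : Type*} [Fintype α] [DecidableEq α]

/-- the operator of a permutation of the places on the colourings with two colours -/
noncomputable def PM (π : Equiv.Perm α) : Matrix (α → Fin 2) (α → Fin 2) ℂ :=
  fun x y => if y = x ∘ π then 1 else 0

theorem PM_apply (π : Equiv.Perm α) (x y : α → Fin 2) : PM π x y = if y = x ∘ π then 1 else 0 := rfl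

theorem PM_mul (π ρ : Equiv.Perm α) : PM π * PM ρ = PM (π * ρ) := by
  ext x z
  rw [Matrix.mul_apply, Finset.sum_eq_single (x ∘ π)]
  · simp only [PM_apply, if_true, one_mul]
    rfl
  · intro y _ hy
    rw [PM_apply, if_neg hy, zero_mul]
  · intro h; exact absurd (Finset.mem_univ _) h

theorem PM_one : PM (1 : Equiv.Perm α) = 1 := by
  ext x y
  rw [PM_apply, Matrix.one_apply]
  have : x ∘ (1 : Equiv.Perm α) = x := rfl
  rw [this]
  simp only [eq_comm]

/-- the number of invariant colourings -/
def fix2 (π : Equiv.Perm α) : ℕ := (univ.filter (fun x : α → Fin 2 => x = x ∘ π)).card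

theorem trace_PM (π : Equiv.Perm α) : (PM π).trace = (fix2 π : ℂ) := by
  unfold Matrix.trace fix2
  simp only [Matrix.diag_apply, PM_apply]
  rw [Finset.sum_boole]

theorem PM_inj_eval {π ρ : Equiv.Perm α} {x : α → Fin 2} (h : x ∘ π = x ∘ ρ) (y : α → Fin 2) :
    PM π x y = PM ρ x y := by
  rw [PM_apply, PM_apply, h]

/-- the antisymmetrizer on three places vanishes -/
theorem antisym (s t : Equiv.Perm α) (hs : s * s = 1) (ht : t * t = 1) (hst : s * t * s = t * s * t)
    (h3 : ∀ x : α → Fin 2, x ∘ s = x ∨ x ∘ t = x ∨ x ∘ (s * t * s) = x) :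
    PM (s * t * s) - PM (s * t) - PM (t * s) + PM s + PM t - 1 = 0 := by
  ext x y
  have key : ∀ π ρ : Equiv.Perm α, x ∘ π = x → x ∘ (π * ρ) = x ∘ ρ := by
    intro π ρ h
    have : x ∘ (π * ρ) = (x ∘ π) ∘ ρ := rfl
    rw [this, h]
  have hone : (1 : Matrix (α → Fin 2) (α → Fin 2) ℂ) x y = PM (1 : Equiv.Perm α) x y := by
    rw [PM_one]
  simp only [Matrix.sub_apply, Matrix.add_apply, Matrix.zero_apply, hone]
  rcases h3 x with h | h | h
  · have e1 : PM (s * t * s) x y = PM (t * s) x y :=
      PM_inj_eval (by rw [mul_assoc]; exact key s (t * s) h) y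
    have e2 : PM (s * t) x y = PM t x y := PM_inj_eval (key s t h) y
    have e3 : PM s x y = PM (1 : Equiv.Perm α) x y := PM_inj_eval h y
    rw [e1, e2, e3]; ring
  · have e1 : PM (s * t * s) x y = PM (s * t) x y :=
      PM_inj_eval (by rw [hst, mul_assoc]; exact key t (s * t) h) y
    have e2 : PM (t * s) x y = PM s x y := PM_inj_eval (key t s h) y
    have e3 : PM t x y = PM (1 : Equiv.Perm α) x y := PM_inj_eval h y
    rw [e1, e2, e3]; ring
  · have e0 : s * t * s * s = s * t := by rw [mul_assoc, hs, mul_one]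
    have e0' : s * t * s * t = t * s := by rw [hst, mul_assoc, ht, mul_one]
    have e1 : PM (s * t) x y = PM s x y := PM_inj_eval (by rw [← e0]; exact key _ s h) y
    have e2 : PM (t * s) x y = PM t x y := PM_inj_eval (by rw [← e0']; exact key _ t h) y
    have e3 : PM (s * t * s) x y = PM (1 : Equiv.Perm α) x y := PM_inj_eval h y
    rw [e1, e2, e3]; ring

end perm

section sym

variable {m : ℕ}

/-- the transposition of the places `i`, `i + 1` -/
def swp (m i : ℕ) : Equiv.Perm (Fin m) :=
  if h : i + 1 < m then Equiv.swap ⟨i, Nat.lt_of_succ_lt h⟩ ⟨i+1, h⟩ else 1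

theorem swp_sq (m i : ℕ) : swp m i * swp m i = 1 := by
  unfold swp
  split_ifs
  · exact Equiv.swap_mul_self _ _
  · exact one_mul 1

/-- the Temperley–Lieb generators with loop value `-2` -/
noncomputable def es (m i : ℕ) : Matrix (Fin m → Fin 2) (Fin m → Fin 2) ℂ := PM (swp m i) - 1

theorem swap_comp_self {x : Fin m → Fin 2} {a b : Fin m} (h : x a = x b) :
    x ∘ (Equiv.swap a b) = x := by
  funext c
  simp only [Function.comp_apply, Equiv.swap_apply_def]
  split_ifs with h1 h2
  · rw [h1, h]
  · rw [h2, h]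
  · rfl

theorem fin2_three (a b c : Fin 2) : a = b ∨ b = c ∨ a = c := by
  revert a b c; decide

theorem isTL_es (m : ℕ) : IsTL m (-2 : ℂ) (es m) := by
  have hup : ∀ i, i + 2 < m → PM (swp m i * swp m (i+1) * swp m i) - PM (swp m i * swp m (i+1)) -
      PM (swp m (i+1) * swp m i) + PM (swp m i) + PM (swp m (i+1)) - 1 = 0 ∧
      swp m i * swp m (i+1) * swp m i = swp m (i+1) * swp m i * swp m (i+1) := by
    intro i hi
    have h1 : swp m i = Equiv.swap ⟨i, by omega⟩ ⟨i+1, by omega⟩ := by
      unfold swp; rw [dif_pos (by omega)]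
    have h2 : swp m (i+1) = Equiv.swap ⟨i+1, by omega⟩ ⟨i+2, by omega⟩ := by
      unfold swp; rw [dif_pos (by omega)]
    have hab : (⟨i, by omega⟩ : Fin m) ≠ ⟨i+1, by omega⟩ := by simp [Fin.ext_iff]
    have hbc : (⟨i+1, by omega⟩ : Fin m) ≠ ⟨i+2, by omega⟩ := by simp [Fin.ext_iff]
    have hac : (⟨i, by omega⟩ : Fin m) ≠ ⟨i+2, by omega⟩ := by simp [Fin.ext_iff]
    have hsts : swp m i * swp m (i+1) * swp m i = Equiv.swap ⟨i, by omega⟩ ⟨i+2, by omega⟩ := by
      rw [h1, h2]
      have := Equiv.swap_mul_swap_mul_swap (x := (⟨i+1, by omega⟩ : Fin m))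
        (y := (⟨i, by omega⟩ : Fin m)) (z := (⟨i+2, by omega⟩ : Fin m)) hab.symm hbc
      rw [Equiv.swap_comm (⟨i+1, by omega⟩ : Fin m) ⟨i, by omega⟩] at this
      first
        | exact this
        | (rw [Equiv.swap_comm]; exact this)
        | (ext c; simp only [Equiv.Perm.mul_apply, Equiv.swap_apply_def, Fin.ext_iff] <;> split_ifs <;> simp_all <;> omega)
    have htst : swp m (i+1) * swp m i * swp m (i+1) = Equiv.swap ⟨i, by omega⟩ ⟨i+2, by omega⟩ := by
      rw [h1, h2]
      ext c
      simp only [Equiv.Perm.mul_apply, Equiv.swap_apply_def, Fin.ext_iff]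
      split_ifs <;> simp_all <;> omega
    refine ⟨?_, by rw [hsts, htst]⟩
    apply antisym _ _ (swp_sq m i) (swp_sq m (i+1)) (by rw [hsts, htst])
    intro x
    rcases fin2_three (x ⟨i, by omega⟩) (x ⟨i+1, by omega⟩) (x ⟨i+2, by omega⟩) with h | h | h
    · left; rw [h1]; exact swap_comp_self h
    · right; left; rw [h2]; exact swap_comp_self h
    · right; right; rw [hsts]; exact swap_comp_self h
  have hexp : ∀ s t : Equiv.Perm (Fin m), s * s = 1 →
      PM (s * t * s) - PM (s * t) - PM (t * s) + PM s + PM t - 1 = 0 →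
      (PM s - 1) * (PM t - 1) * (PM s - 1) = PM s - 1 := by
    intro s t hs h
    have h1 : (PM s - 1) * (PM t - 1) * (PM s - 1) = PM (s * t * s) - PM (s * t) - PM (t * s) +
        PM s + PM t - 1 + (PM s - PM (s * s)) := by
      rw [← PM_mul, ← PM_mul, ← PM_mul, ← PM_mul]
      noncomm_ring
    rw [h1, h, hs, PM_one, zero_add]
  constructor
  · intro i hi
    unfold es
    have : (PM (swp m i) - 1) * (PM (swp m i) - 1) = PM (swp m i * swp m i) - PM (swp m i) -
        PM (swp m i) + 1 := by
      rw [← PM_mul]; noncomm_ring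
    rw [this, swp_sq, PM_one]
    module
  · intro i hi
    exact hexp _ _ (swp_sq m i) (hup i hi).1
  · intro i hi
    apply hexp _ _ (swp_sq m (i+1))
    have h := hup i hi
    rw [h.2] at h
    rw [← h.1]
    abel
  · intro i j hj hij
    unfold es
    have hc : swp m i * swp m j = swp m j * swp m i := by
      unfold swp
      rw [dif_pos (by omega), dif_pos hj]
      apply Equiv.Perm.Disjoint.commute
      apply Equiv.Perm.disjoint_swap_swap
      simp only [List.nodup_cons, List.mem_cons, List.not_mem_nil, or_false, not_or, Fin.ext_iff,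
        List.nodup_nil, not_false_eq_true, and_true]
      omega
    have h1 : PM (swp m i) * PM (swp m j) = PM (swp m j) * PM (swp m i) := by
      rw [PM_mul, PM_mul, hc]
    have h2 : ∀ a b : Matrix (Fin m → Fin 2) (Fin m → Fin 2) ℂ, a * b = b * a →
        (a - 1) * (b - 1) = (b - 1) * (a - 1) := by
      intro a b hab
      have : (a - 1) * (b - 1) = a * b - a - b + 1 := by noncomm_ring
      rw [this, hab]
      noncomm_ring
    exact h2 _ _ h1

end sym

end Pool.Agent.D0H83.FB
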