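import Pool.Agent.D0H83.FB.Sym

/-!
# Loop value `-2`: the trace formula
-/

set_option autoImplicit false

namespace Pool.Agent.D0H83.FB

open Pool.Agent.H891R2.Jones Pool.Agent.TH561 Pool.Agent.W639.RB Finset LaurentPolynomial

section sym

variable {m : ℕ}

/-- the permutation of a word -/
def permL (m : ℕ) (w : List (Bool × ℕ)) : Equiv.Perm (Fin m) := (w.map (fun x => swp m x.2)).prod

theorem permL_cons (x : Bool × ℕ) (w : List (Bool × ℕ)) :
    permL m (x :: w) = swp m x.2 * permL m w := by simp [permL]

theorem permL_append (w w' : List (Bool × ℕ)) : permL m (w ++ w') = permL m w * permL m w' := by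
  simp [permL]

theorem wo_es (w : List (Bool × ℕ)) : wo 1 (es m) w = PM (permL m w) := by
  induction w with
  | nil => simp [wo, permL, PM_one]
  | cons x w ih =>
    rw [wo_cons, ih, permL_cons, ← PM_mul]
    congr 1
    unfold lo es
    rw [one_zpow, one_zpow]
    module

theorem fix2_swap (π : Equiv.Perm (Fin m)) (r s : Fin m) (hrs : r ≠ s) (hπ : π s = s) :
    2 * (fix2 (π * Equiv.swap r s) : ℂ) = fix2 π := by
  classical
  have h1 : (fix2 (π * Equiv.swap r s) : ℂ) =
      ∑ y : Fin m → Fin 2, (if y r = y s then (if y = y ∘ π then (1:ℂ) else 0) else 0) := by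
    unfold fix2
    rw [← Finset.sum_boole]
    refine Finset.sum_congr rfl fun y _ => ?_
    have h2 : y = y ∘ (π * Equiv.swap r s) ↔ (y r = y s ∧ y = y ∘ π) := by
      constructor
      · intro h
        have h3 : y r = y s := by
          have := congrFun h r
          simp only [Function.comp_apply, Equiv.Perm.mul_apply, Equiv.swap_apply_left, hπ] at this
          exact this
        refine ⟨h3, ?_⟩
        have h4 : y ∘ (Equiv.swap r s) = y := swap_comp_self h3
        have h5 : (y ∘ (π * Equiv.swap r s)) ∘ (Equiv.swap r s) = y ∘ π := by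
          funext c
          simp
        rw [← h5, ← h, h4]
      · rintro ⟨h3, h4⟩
        have h5 : y ∘ (Equiv.swap r s) = y := swap_comp_self h3
        have h6 : y ∘ (π * Equiv.swap r s) = (y ∘ π) ∘ (Equiv.swap r s) := rfl
        rw [h6, ← h4, h5]
    by_cases h : y = y ∘ (π * Equiv.swap r s)
    · rw [if_pos h, if_pos (h2.1 h).1, if_pos (h2.1 h).2]
    · rw [if_neg h]
      split_ifs with h3 h4
      · exact absurd (h2.2 ⟨h3, h4⟩) h
      · rfl
      · rfl
  have h2 : (fix2 π : ℂ) = ∑ y : Fin m → Fin 2, (if y = y ∘ π then (1:ℂ) else 0) := by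
    unfold fix2
    rw [← Finset.sum_boole]
  rw [h1, h2]
  have h3 := sum_place (N := 2) (by norm_num) s r hrs
    (fun y : Fin m → Fin 2 => if y = y ∘ π then (1:ℂ) else 0) ?_
  · exact_mod_cast h3
  · intro σ x
    have h4 : (permAt s σ x = permAt s σ x ∘ π) ↔ (x = x ∘ π) := by
      constructor
      · intro h
        funext j
        have hj := congrFun h j
        simp only [Function.comp_apply] at hj ⊢
        by_cases hjs : j = s
        · rw [hjs, hπ]
        · have hπj : π j ≠ s := by
            intro h'
            apply hjs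
            apply π.injective
            rw [h', hπ]
          rw [permAt_other s σ x hjs, permAt_other s σ x hπj] at hj
          exact hj
      · intro h
        funext j
        simp only [Function.comp_apply]
        by_cases hjs : j = s
        · rw [hjs, hπ]
        · have hπj : π j ≠ s := by
            intro h'
            apply hjs
            apply π.injective
            rw [h', hπ]
          rw [permAt_other s σ x hjs, permAt_other s σ x hπj]
          exact congrFun h j
    simp only [h4]

theorem swp_fix (i r : ℕ) (hi : i < r) (hr : r + 1 < m) : swp m i ⟨r+1, hr⟩ = ⟨r+1, hr⟩ := by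
  unfold swp
  rw [dif_pos (by omega)]
  apply Equiv.swap_apply_of_ne_of_ne
  · intro h; simp only [Fin.mk.injEq] at h; omega
  · intro h; simp only [Fin.mk.injEq] at h; omega

theorem WP_es_span (r : ℕ) (hr : r + 1 < m) (L : List ℕ) (hL : ∀ i ∈ L, i < r) :
    WP (es m) L ∈ Submodule.span ℂ
      {X | ∃ π : Equiv.Perm (Fin m), π ⟨r+1, hr⟩ = ⟨r+1, hr⟩ ∧ X = PM π} := by
  induction L with
  | nil => exact Submodule.subset_span ⟨1, rfl, by rw [WP_nil, PM_one]⟩
  | cons i L ih =>
    have hi := hL i List.mem_cons_self
    have ih' := ih (fun k hk => hL k (List.mem_cons_of_mem _ hk))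
    rw [WP_cons]
    refine Submodule.span_induction (p := fun X _ => es m i * X ∈ Submodule.span ℂ
      {X | ∃ π : Equiv.Perm (Fin m), π ⟨r+1, hr⟩ = ⟨r+1, hr⟩ ∧ X = PM π}) ?_ ?_ ?_ ?_ ih'
    · rintro X ⟨π, hπ, rfl⟩
      have : es m i * PM π = PM (swp m i * π) - PM π := by
        unfold es
        rw [sub_mul, one_mul, PM_mul]
      rw [this]
      apply Submodule.sub_mem
      · apply Submodule.subset_span
        refine ⟨swp m i * π, ?_, rfl⟩
        rw [Equiv.Perm.mul_apply, hπ]
        exact swp_fix i r hi hr
      · exact Submodule.subset_span ⟨π, hπ, rfl⟩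
    · simp
    · intro X Y _ _ hX hY
      rw [mul_add]
      exact Submodule.add_mem _ hX hY
    · intro c X _ hX
      rw [mul_smul_comm]
      exact Submodule.smul_mem _ _ hX

theorem markov_es (r : ℕ) (L : List ℕ) (hr : r + 1 < m) (hL : ∀ i ∈ L, i < r) :
    (-2 : ℂ) * Matrix.trace (WP (es m) L * es m r) = Matrix.trace (WP (es m) L) := by
  refine Submodule.span_induction (p := fun X _ => (-2 : ℂ) * Matrix.trace (X * es m r) =
    Matrix.trace X) ?_ ?_ ?_ ?_ (WP_es_span r hr L hL)
  · rintro X ⟨π, hπ, rfl⟩
    have h1 : PM π * es m r = PM (π * swp m r) - PM π := by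
      unfold es
      rw [mul_sub, mul_one, PM_mul]
    have h2 : swp m r = Equiv.swap ⟨r, by omega⟩ ⟨r+1, hr⟩ := by
      unfold swp; rw [dif_pos hr]
    have h3 := fix2_swap π ⟨r, by omega⟩ ⟨r+1, hr⟩ (by simp [Fin.ext_iff]) hπ
    rw [h1, Matrix.trace_sub, trace_PM, trace_PM, h2, ← h3]
    ring
  · simp
  · intro X Y _ _ hX hY
    rw [add_mul, Matrix.trace_add, mul_add, hX, hY, Matrix.trace_add]
  · intro c X _ hX
    rw [smul_mul_assoc, Matrix.trace_smul, Matrix.trace_smul, ← hX, smul_eq_mul, smul_eq_mul]
    ring

/-- the number of curves as a trace at loop value `-2` -/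
theorem lam_es (L : List ℕ) (hL : ∀ i ∈ L, i + 1 < m) :
    (-2 : ℂ) ^ lam m L = (-1) ^ m * Matrix.trace (WP (es m) L) := by
  obtain ⟨s, z, -, -, -, -, h5⟩ := annular (K := ℂ) (ι := Bool)
    (R := fun _ => Matrix (Fin m → Fin 2) (Fin m → Fin 2) ℂ) (M := m)
    (d := fun j => if j then 2 else -2) (e := fun j => if j then KK m 2 else es m)
    (fun j => by
      cases j
      · simpa using isTL_es m
      · simpa using isTL_KK m 2)
    (fun j => by cases j <;> norm_num)
    (fun j => (if j then 1 else (-1) ^ m : ℂ) • Matrix.traceLinearMap _ ℂ ℂ)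
    (fun j x y => by
      simp only [LinearMap.smul_apply, Matrix.traceLinearMap_apply]
      rw [Matrix.trace_mul_comm])
    (fun j r L hr hL => by
      cases j
      · simp only [Bool.false_eq_true, if_false, LinearMap.smul_apply,
          Matrix.traceLinearMap_apply, smul_eq_mul]
        rw [← markov_es r L hr hL]
        ring
      · simp only [if_true, LinearMap.smul_apply,
          Matrix.traceLinearMap_apply, one_smul]
        have := markov (m := m) (N := 2) (by norm_num) r L hr hL
        exact_mod_cast this)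
    (fun j => by
      cases j
      · simp only [Bool.false_eq_true, if_false, LinearMap.smul_apply,
          Matrix.traceLinearMap_apply, smul_eq_mul, Matrix.trace_one]
        simp only [Fintype.card_pi, Fintype.card_fin, Finset.prod_const, Finset.card_univ]
        push_cast
        rw [← mul_pow]
        norm_num
      · simp only [if_true, LinearMap.smul_apply,
          Matrix.traceLinearMap_apply, one_smul, Matrix.trace_one]
        simp) m le_rfl L hL
  have h1 := h5 true 1 le_rfl
  have h2 := h5 false 1 le_rfl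
  simp only [if_true, LinearMap.smul_apply, Matrix.traceLinearMap_apply, one_smul, pow_one,
    Nat.sub_self, zero_add, one_mul] at h1
  simp only [Bool.false_eq_true, if_false, LinearMap.smul_apply, Matrix.traceLinearMap_apply,
    pow_one, Nat.sub_self, zero_add, one_mul, smul_eq_mul] at h2
  have h3 := trace_lam (m := m) (N := 2) L hL (by norm_num)
  rw [h3] at h1
  have h4 : (2 : ℕ) ^ lam m L = 2 ^ (s + z) := by exact_mod_cast h1
  have h6 : lam m L = s + z := Nat.pow_right_injective le_rfl h4
  rw [h6, h2]

/-- the functional at `A = 1` -/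
theorem Fn_one (hm : 4 ≤ m) (U : List (Bool × ℕ)) (hU : ∀ x ∈ U, x.2 + 1 < m) (j : Fin 14) :
    Fn m U 1 (-2) j = (-1) ^ m * Matrix.trace (PM (permL m U) * WP (es m) (nb j)) := by
  unfold Fn
  have h1 : ∀ s ∈ terms U, (1:ℂ) ^ s.1 * (-2 : ℂ) ^ lam m (s.2 ++ nb j) =
      (-1) ^ m * Matrix.trace (WP (es m) s.2 * WP (es m) (nb j)) := by
    intro s hs
    rw [one_zpow, one_mul, lam_es, WP_append]
    intro i hi
    rcases List.mem_append.1 hi with h | h
    · exact terms_mem U hU s hs i h
    · have := nb_mem _ i h; omega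
  rw [List.map_congr_left h1, List.sum_map_mul_left, ← wo_es, wo_terms one_ne_zero]
  congr 1
  have h2 : ∀ (l : List (ℤ × List ℕ)) (Y : Matrix (Fin m → Fin 2) (Fin m → Fin 2) ℂ),
      (l.map (fun s => Matrix.trace (WP (es m) s.2 * Y))).sum =
      Matrix.trace ((l.map (fun s : ℤ × List ℕ => (1:ℂ) ^ s.1 • WP (es m) s.2)).sum * Y) := by
    intro l Y
    induction l with
    | nil => simp
    | cons a l ih =>
      rw [List.map_cons, List.sum_cons, ih, List.map_cons, List.sum_cons, add_mul,
        Matrix.trace_add, one_zpow, one_smul]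
  exact h2 _ _

/-- the value of the state sum at `A = 1` -/
theorem states_one (hm : 0 < m) (U : List (Bool × ℕ)) (hU : ∀ x ∈ U, x.2 + 1 < m) :
    ((terms U).map (fun t => (1:ℂ) ^ t.1 * (-2 : ℂ) ^ lam m t.2)).sum =
      (-1) ^ m * fix2 (permL m U) := by
  have h1 : ∀ s ∈ terms U, (1:ℂ) ^ s.1 * (-2 : ℂ) ^ lam m s.2 =
      (-1) ^ m * Matrix.trace (WP (es m) s.2) := by
    intro s hs
    rw [one_zpow, one_mul, lam_es _ (terms_mem U hU s hs)]
  rw [List.map_congr_left h1, List.sum_map_mul_left, ← trace_PM, ← wo_es, wo_terms one_ne_zero]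
  congr 1
  induction (terms U) with
  | nil => simp
  | cons a l ih =>
    rw [List.map_cons, List.sum_cons, ih, List.map_cons, List.sum_cons,
      Matrix.trace_add, one_zpow, one_smul]

end sym

end Pool.Agent.D0H83.FB
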