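import Pool.Agent.D0H83.FB.NF

/-!
# The trace formula for closed braids on four strands
-/

set_option autoImplicit false

namespace Pool.Agent.D0H83.FB

open Pool.Agent.H891R2.Jones Pool.Agent.TH561 Pool.Agent.W639.RB Finset LaurentPolynomial

/-! ### reduction to normal forms -/

/-- the normal form of a word (letters are taken modulo three) -/
def nf : List ℕ → Fin 14 × ℕ
  | [] => (0, 0)
  | i :: L => ((stp (Fin.ofNat 3 i) (nf L).1).1, (stp (Fin.ofNat 3 i) (nf L).1).2 + (nf L).2)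

theorem nf_eq {R : Type*} [Ring R] [Algebra ℂ R] {d : ℂ} {e : ℕ → R} (h : IsTL 4 d e) (L : List ℕ)
    (hL : ∀ i ∈ L, i + 1 < 4) : WP e L = d ^ (nf L).2 • WP e (nb (nf L).1) := by
  induction L with
  | nil => simp [nf, nb]
  | cons i L ih =>
    have hi := hL i List.mem_cons_self
    rw [WP_cons, ih (fun k hk => hL k (List.mem_cons_of_mem _ hk)), mul_smul_comm]
    have h1 := nf_step h (Fin.ofNat 3 i) (nf L).1
    have h2 : ((Fin.ofNat 3 i : Fin 3) : ℕ) = i := by
      simp only [Fin.ofNat, Nat.reduceAdd]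
      omega
    rw [h2] at h1
    rw [h1, smul_smul, ← pow_add, add_comm]
    rfl

theorem stp_ne (i : Fin 3) (j : Fin 14) : (stp i j).1 ≠ 0 := by
  revert i j; decide

theorem nf_zero (L : List ℕ) : (nf L).1 = 0 ↔ L = [] := by
  cases L with
  | nil => simp [nf]
  | cons i L => simp [nf, stp_ne]

/-- number of closed curves of the closure of the reduced words -/
def nl : Fin 14 → ℕ
  | 0 => 4
  | 1 => 3
  | 2 => 3
  | 3 => 3
  | 4 => 2
  | 5 => 2
  | 6 => 2
  | 7 => 2
  | 8 => 2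
  | 9 => 1
  | 10 => 1
  | 11 => 1
  | 12 => 1
  | 13 => 2

theorem trace_nb {N : ℕ} (hN : N ≠ 0) (j : Fin 14) :
    Matrix.trace (WP (KK 4 N) (nb j)) = (N : ℂ) ^ nl j := by
  have hN' : (N : ℂ) ≠ 0 := Nat.cast_ne_zero.2 hN
  have hTL := isTL_KK 4 N
  have t0 : Matrix.trace (1 : Matrix (Fin 4 → Fin N) (Fin 4 → Fin N) ℂ) = (N : ℂ) ^ 4 := by
    rw [Matrix.trace_one]; simp
  have m0 := markov (m := 4) hN 0 [] (by norm_num) (by simp)
  have m1 := markov (m := 4) hN 1 [] (by norm_num) (by simp)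
  have m2 := markov (m := 4) hN 2 [] (by norm_num) (by simp)
  have m10 := markov (m := 4) hN 1 [0] (by norm_num) (by simp)
  have m21 := markov (m := 4) hN 2 [1] (by norm_num) (by simp)
  have m20 := markov (m := 4) hN 2 [0] (by norm_num) (by simp)
  have m201 := markov (m := 4) hN 2 [0, 1] (by norm_num) (by simp)
  have m210 := markov (m := 4) hN 2 [1, 0] (by norm_num) (by simp)
  simp only [WP_nil, one_mul, WP_cons, mul_one] at m0 m1 m2 m10 m21 m20 m201 m210
  have k0 : Matrix.trace (KK 4 N 0) = (N : ℂ) ^ 3 := by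
    apply mul_left_cancel₀ hN'; rw [m0, t0]; ring
  have k1 : Matrix.trace (KK 4 N 1) = (N : ℂ) ^ 3 := by
    apply mul_left_cancel₀ hN'; rw [m1, t0]; ring
  have k2 : Matrix.trace (KK 4 N 2) = (N : ℂ) ^ 3 := by
    apply mul_left_cancel₀ hN'; rw [m2, t0]; ring
  have k01 : Matrix.trace (KK 4 N 0 * KK 4 N 1) = (N : ℂ) ^ 2 := by
    apply mul_left_cancel₀ hN'; rw [m10, k0]; ring
  have k10 : Matrix.trace (KK 4 N 1 * KK 4 N 0) = (N : ℂ) ^ 2 := by
    rw [Matrix.trace_mul_comm, k01]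
  have k12 : Matrix.trace (KK 4 N 1 * KK 4 N 2) = (N : ℂ) ^ 2 := by
    apply mul_left_cancel₀ hN'; rw [m21, k1]; ring
  have k21 : Matrix.trace (KK 4 N 2 * KK 4 N 1) = (N : ℂ) ^ 2 := by
    rw [Matrix.trace_mul_comm, k12]
  have k02 : Matrix.trace (KK 4 N 0 * KK 4 N 2) = (N : ℂ) ^ 2 := by
    apply mul_left_cancel₀ hN'; rw [m20, k0]; ring
  have k012 : Matrix.trace (KK 4 N 0 * KK 4 N 1 * KK 4 N 2) = (N : ℂ) := by
    apply mul_left_cancel₀ hN'; rw [m201, k01]; ring
  have k102 : Matrix.trace (KK 4 N 1 * KK 4 N 0 * KK 4 N 2) = (N : ℂ) := by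
    apply mul_left_cancel₀ hN'; rw [m210, k10]; ring
  have k210 : Matrix.trace (KK 4 N 2 * (KK 4 N 1 * KK 4 N 0)) = (N : ℂ) := by
    rw [Matrix.trace_mul_comm, k102]
  have k021 : Matrix.trace (KK 4 N 0 * (KK 4 N 2 * KK 4 N 1)) = (N : ℂ) := by
    rw [← mul_assoc, Matrix.trace_mul_comm, ← mul_assoc, k102]
  have k1021 : Matrix.trace (KK 4 N 1 * (KK 4 N 0 * (KK 4 N 2 * KK 4 N 1))) = (N : ℂ) ^ 2 := by
    have h1 : KK 4 N 1 * (KK 4 N 0 * (KK 4 N 2 * KK 4 N 1)) =
      (KK 4 N 1 * KK 4 N 0 * KK 4 N 2) * KK 4 N 1 := by simp only [mul_assoc]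
    have h2 : KK 4 N 1 * (KK 4 N 1 * KK 4 N 0 * KK 4 N 2) =
      (KK 4 N 1 * KK 4 N 1) * (KK 4 N 0 * KK 4 N 2) := by simp only [mul_assoc]
    rw [h1, Matrix.trace_mul_comm, h2, hTL.sq 1 (by norm_num), smul_mul_assoc, Matrix.trace_smul,
      ← mul_assoc, k102, smul_eq_mul]
    ring
  fin_cases j <;> simp [nb, nl, WP, t0, k0, k1, k2, k01, k10, k12, k21, k02, k210, k021, k1021]
  · rw [← mul_assoc, k012]
  · rw [← mul_assoc, k102]

theorem lam_nf (L : List ℕ) (hL : ∀ i ∈ L, i + 1 < 4) : lam 4 L = (nf L).2 + nl (nf L).1 := by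
  have h1 := trace_lam (N := 2) L hL (by norm_num)
  rw [nf_eq (isTL_KK 4 2) L hL, Matrix.trace_smul, trace_nb (by norm_num), smul_eq_mul,
    ← pow_add] at h1
  have h2 : (2 : ℕ) ^ ((nf L).2 + nl (nf L).1) = 2 ^ lam 4 L := by exact_mod_cast h1
  exact (Nat.pow_right_injective le_rfl h2).symm

/-! ### the irreducible representations -/

/-- the three-dimensional representation of the Temperley–Lieb algebra -/
def EX (d : ℂ) : ℕ → Matrix (Fin 3) (Fin 3) ℂ
  | 0 => !![d, 1, 0; 0, 0, 0; 0, 0, 0]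
  | 1 => !![0, 0, 0; 1, d, 1; 0, 0, 0]
  | 2 => !![0, 0, 0; 0, 0, 0; 0, 1, d]
  | _ => 0

/-- the two-dimensional representation of the Temperley–Lieb algebra -/
def EY (d : ℂ) : ℕ → Matrix (Fin 2) (Fin 2) ℂ
  | 0 => !![d, 1; 0, 0]
  | 1 => !![0, 0; 1, d]
  | 2 => !![d, 1; 0, 0]
  | _ => 0

/-- the one-dimensional representation of the Temperley–Lieb algebra -/
def EZ : ℕ → ℂ := fun _ => 0

theorem isTL_EX (d : ℂ) : IsTL 4 d (EX d) where
  sq i hi := by
    have : i = 0 ∨ i = 1 ∨ i = 2 := by omega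
    rcases this with rfl | rfl | rfl <;> ext a b <;> fin_cases a <;> fin_cases b <;>
      simp [EX, Matrix.mul_apply, Fin.sum_univ_three]
  up i hi := by
    have : i = 0 ∨ i = 1 := by omega
    rcases this with rfl | rfl <;> ext a b <;> fin_cases a <;> fin_cases b <;>
      simp [EX, Matrix.mul_apply, Fin.sum_univ_three]
  down i hi := by
    have : i = 0 ∨ i = 1 := by omega
    rcases this with rfl | rfl <;> ext a b <;> fin_cases a <;> fin_cases b <;>
      simp [EX, Matrix.mul_apply, Fin.sum_univ_three]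
  far i j hj hij := by
    have : i = 0 := by omega
    have : j = 2 := by omega
    subst i j
    ext a b
    fin_cases a <;> fin_cases b <;>
      simp [EX, Matrix.mul_apply, Fin.sum_univ_three]

theorem isTL_EY (d : ℂ) : IsTL 4 d (EY d) where
  sq i hi := by
    have : i = 0 ∨ i = 1 ∨ i = 2 := by omega
    rcases this with rfl | rfl | rfl <;> ext a b <;> fin_cases a <;> fin_cases b <;>
      simp [EY, Matrix.mul_apply]
  up i hi := by
    have : i = 0 ∨ i = 1 := by omega
    rcases this with rfl | rfl <;> ext a b <;> fin_cases a <;> fin_cases b <;>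
      simp [EY, Matrix.mul_apply]
  down i hi := by
    have : i = 0 ∨ i = 1 := by omega
    rcases this with rfl | rfl <;> ext a b <;> fin_cases a <;> fin_cases b <;>
      simp [EY, Matrix.mul_apply]
  far i j hj hij := by
    have : i = 0 := by omega
    have : j = 2 := by omega
    subst i j
    rfl

theorem WP_EZ (L : List ℕ) : WP EZ L = if L = [] then 1 else 0 := by
  cases L with
  | nil => simp
  | cons i L => simp [WP_cons, EZ]

theorem tr_nb (d : ℂ) (j : Fin 14) : d ^ nl j = (d^4 - 3*d^2 + 1) * (if j = 0 then 1 else 0) +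
    (d^2 - 1) * Matrix.trace (WP (EX d) (nb j)) + Matrix.trace (WP (EY d) (nb j)) := by
  fin_cases j <;>
    simp [nb, nl, WP, EX, EY, Matrix.trace_fin_three, Matrix.trace_fin_two, Matrix.mul_apply,
      Fin.sum_univ_three] <;> ring

theorem tr_word (d : ℂ) (L : List ℕ) (hL : ∀ i ∈ L, i + 1 < 4) :
    d ^ lam 4 L = (d^4 - 3*d^2 + 1) * WP EZ L +
    (d^2 - 1) * Matrix.trace (WP (EX d) L) + Matrix.trace (WP (EY d) L) := by
  rw [lam_nf L hL, nf_eq (isTL_EX d) L hL, nf_eq (isTL_EY d) L hL, Matrix.trace_smul,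
    Matrix.trace_smul, smul_eq_mul, smul_eq_mul, pow_add, tr_nb, WP_EZ]
  have h1 := nf_zero L
  by_cases hL0 : L = []
  · subst hL0
    simp [nf, nb]
  · rw [if_neg hL0, if_neg (fun h => hL0 (h1.1 h))]
    ring

/-! ### the matrices of braid words -/

/-- the operator of a letter in a representation of the Temperley–Lieb algebra -/
noncomputable def lo {R : Type*} [Ring R] [Algebra ℂ R] (A : ℂ) (e : ℕ → R) (x : Bool × ℕ) : R :=
  A ^ (sgn x) • (1 : R) + A ^ (-sgn x) • e x.2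

/-- the operator of a word in a representation of the Temperley–Lieb algebra -/
noncomputable def wo {R : Type*} [Ring R] [Algebra ℂ R] (A : ℂ) (e : ℕ → R) (w : List (Bool × ℕ)) :
    R := (w.map (lo A e)).prod

theorem wo_cons {R : Type*} [Ring R] [Algebra ℂ R] (A : ℂ) (e : ℕ → R) (x : Bool × ℕ)
    (w : List (Bool × ℕ)) : wo A e (x :: w) = lo A e x * wo A e w := by simp [wo]

theorem wo_terms {R : Type*} [Ring R] [Algebra ℂ R] {A : ℂ} (hA : A ≠ 0) (e : ℕ → R)
    (w : List (Bool × ℕ)) :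
    wo A e w = ((terms w).map (fun t : ℤ × List ℕ => A ^ t.1 • WP e t.2)).sum := by
  induction w with
  | nil => simp [wo, terms]
  | cons x w ih =>
    rw [wo_cons, ih, terms, List.map_append, List.sum_append, List.map_map, List.map_map, lo, add_mul]
    congr 1
    · rw [smul_mul_assoc, one_mul, List.smul_sum, List.map_map]
      congr 1
      apply List.map_congr_left
      intro t _
      simp only [Function.comp_apply]
      rw [smul_smul, zpow_add₀ hA]
    · rw [smul_mul_assoc, ← List.sum_map_mul_left, List.smul_sum, List.map_map]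
      congr 1
      apply List.map_congr_left
      intro t _
      simp only [Function.comp_apply]
      rw [mul_smul_comm, smul_smul, zpow_add₀ hA, WP_cons]

theorem wo_sum {R : Type*} [Ring R] [Algebra ℂ R] {A : ℂ} (hA : A ≠ 0) (e : ℕ → R)
    (w : List (Bool × ℕ)) : wo A e w = ∑ i : St w, A ^ wt i • WP e (gw i) := by
  rw [wo_terms hA, ← Fin.sum_univ_fun_getElem (terms w) (fun t : ℤ × List ℕ => A ^ t.1 • WP e t.2)]
  rfl

theorem wo_EZ (A : ℂ) (hA : A ≠ 0) (w : List (Bool × ℕ)) : wo A EZ w = A ^ expo w := by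
  induction w with
  | nil => simp [wo, expo]
  | cons x w ih =>
    rw [wo_cons, ih, expo_cons, zpow_add₀ hA, lo]
    simp [EZ]

/-- evaluation of Laurent polynomials at a nonzero complex number -/
noncomputable def evc (A : ℂ) (hA : A ≠ 0) : ℤ[T;T⁻¹] →+* ℂ :=
  LaurentPolynomial.eval₂ (Int.castRingHom ℂ) (Units.mk0 A hA)

theorem evc_T (A : ℂ) (hA : A ≠ 0) (n : ℤ) : evc A hA (T n) = A ^ n := by
  unfold evc
  rw [LaurentPolynomial.eval₂_T]
  simp

theorem evc_dl (A : ℂ) (hA : A ≠ 0) : evc A hA dl = -A^2 - (A⁻¹)^2 := by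
  unfold dl
  rw [map_sub, map_neg, evc_T, evc_T]
  have : A ^ (-2 : ℤ) = (A⁻¹)^2 := by
    rw [zpow_neg, inv_pow]; rfl
  rw [this]
  rfl

/-- the state sum of the closure -/
theorem bracket_states (w : List (Bool × ℕ)) (hw : ∀ x ∈ w, x.2 + 1 < 4) (A : ℂ) (hA : A ≠ 0) :
    (-A^2 - (A⁻¹)^2) * evc A hA (draw (braidClosure 4) w).close.bracket =
      ∑ i : St w, A ^ wt i * (-A^2 - (A⁻¹)^2) ^ lam 4 (gw i) := by
  have h1 := bracket_formula (m := 4) (by norm_num) w hw 1 w hw (fun A N => (pow_one _).symm)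
  have h2 := congrArg (evc A hA) h1
  rw [map_mul, evc_dl, map_sum] at h2
  rw [h2, ← (Equiv.funUnique (Fin 1) (St w)).sum_comp]
  refine Finset.sum_congr rfl fun f _ => ?_
  rw [map_mul, map_pow, evc_dl, evc_T]
  have h3 : seqw f = gw ((Equiv.funUnique (Fin 1) (St w)) f) := by
    simp [seqw, Equiv.funUnique_apply]
  rw [h3]
  simp [Equiv.funUnique_apply]

/-- the trace formula -/
theorem bracket_traces (w : List (Bool × ℕ)) (hw : ∀ x ∈ w, x.2 + 1 < 4) (A : ℂ) (hA : A ≠ 0)
    (d : ℂ) (hd : d = -A^2 - (A⁻¹)^2) :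
    d * evc A hA (draw (braidClosure 4) w).close.bracket =
      (d^4 - 3*d^2 + 1) * A ^ expo w + (d^2 - 1) * Matrix.trace (wo A (EX d) w) +
        Matrix.trace (wo A (EY d) w) := by
  subst hd
  rw [bracket_states w hw A hA, ← wo_EZ A hA w, wo_sum hA, wo_sum hA, wo_sum hA, Matrix.trace_sum,
    Matrix.trace_sum, Finset.mul_sum, Finset.mul_sum, ← Finset.sum_add_distrib,
    ← Finset.sum_add_distrib]
  refine Finset.sum_congr rfl fun i _ => ?_
  rw [tr_word _ (gw i) (gw_mem hw i), Matrix.trace_smul, Matrix.trace_smul, smul_eq_mul,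
    smul_eq_mul, smul_eq_mul]
  ring

end Pool.Agent.D0H83.FB
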